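import Mathlib

/-!
# SU(2) quantum invariants of 3-manifolds given by surgery on plumbing trees
-/

set_option autoImplicit false

open Finset

namespace H524R3

/-- The quantum integer [n] = sin (π n / r) / sin (π / r), i.e. (q^(n/2) - q^(-n/2)) / (q^(1/2) - q^(-1/2))
at q = exp (2 π i / r): the invariant of the unknot of framing 0 coloured by the n-dimensional module. -/
noncomputable def qint (r n : ℕ) : ℝ := Real.sin (Real.pi * n / r) / Real.sin (Real.pi / r)

/-- The factor exp (π i (n² - 1) / (2 r)) by which one positive full twist of the framing of a component
coloured by the n-dimensional module multiplies the coloured Jones polynomial at q = exp (2 π i / r). -/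
noncomputable def twist (r n : ℕ) : ℂ :=
  Complex.exp (Real.pi * Complex.I * ((n : ℂ) ^ 2 - 1) / (2 * r))

/-- A weighted tree on the vertices 0, ..., m: for i = 0, ..., m - 1 the vertex i + 1 is joined by an edge
to the earlier vertex parent i (every finite tree arises in this way), and the vertex v carries the integer
framing v. It describes the framed link in S^3 with one unknotted component for every vertex v, framed by
framing v, in which two components form a Hopf link if their vertices are joined by an edge and are
unlinked otherwise (the plumbing link of the tree). -/
structure PlumbingTree (m : ℕ) where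
  parent : Fin m → Fin (m + 1)
  parent_le : ∀ i, parent i ≤ i.castSucc
  framing : Fin (m + 1) → ℤ

namespace PlumbingTree

variable {m : ℕ} (Γ : PlumbingTree m)

/-- The number of edges at the vertex v. -/
def degree (v : Fin (m + 1)) : ℕ :=
  (univ.filter fun i : Fin m => Γ.parent i = v).card + (univ.filter fun i : Fin m => i.succ = v).card

/-- The coloured Jones polynomial at q = exp (2 π i / r) of the framed plumbing link of Γ whose component v
is coloured by the k v-dimensional module (the coloured Jones polynomial of the Hopf link coloured by
a, b is [a b], that of a connected sum along a component coloured by a is the product divided by [a]). -/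
noncomputable def colouredJones (r : ℕ) (k : Fin (m + 1) → ℕ) : ℂ :=
  (∏ v, twist r (k v) ^ Γ.framing v) * (∏ v, (qint r (k v) : ℂ) ^ (1 - (Γ.degree v : ℤ))) *
    ∏ i : Fin m, (qint r (k i.succ * k (Γ.parent i)) : ℂ)

/-- The SU(2) Witten-Reshetikhin-Turaev invariant at level r - 2 of the closed oriented 3-manifold obtained
by surgery on the plumbing link of Γ, with Witten's normalisation (1 on S^1 x S^2 and b on S^3), up to a
factor of absolute value 1 depending on the signature of the link and on the 2-framing: with
b = sqrt (2 / r) sin (π / r) and n = m + 1 components, the Kirby-Melvin formula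
b * b^n * ∑ over colourings 1 ≤ k v ≤ r - 1 of ∏ [k v] * J(k). -/
noncomputable def wrt (r : ℕ) : ℂ :=
  ((Real.sqrt (2 / r) * Real.sin (Real.pi / r) : ℝ) : ℂ) ^ (m + 2) *
    ∑ k ∈ Fintype.piFinset (fun _ : Fin (m + 1) => Icc 1 (r - 1)),
      (∏ v, (qint r (k v) : ℂ)) * Γ.colouredJones r k

end PlumbingTree

/-- The plumbing tree with two adjacent vertices 0 and 1 of framing 0, to each of which two leaves of
framings 2 and -2 are attached. The manifold obtained by surgery is the Hantzsche-Wendt manifold (the union
of two twisted I-bundles over the Klein bottle, glued by exchanging the two Seifert fibres). -/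
def hwTree : PlumbingTree 5 where
  parent := ![0, 0, 0, 1, 1]
  parent_le := by decide
  framing := ![0, 0, 2, -2, 2, -2]

end H524R3
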