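import Mathlib

/-!
# Finite trigonometric sums: the S-matrix and a quadratic Gauss sum
-/

set_option autoImplicit false

open Finset

namespace H524R3

/-- exp (π i x) -/
noncomputable def E (x : ℝ) : ℂ := Complex.exp (Real.pi * Complex.I * x)

theorem E_add (x y : ℝ) : E (x + y) = E x * E y := by
  unfold E; rw [← Complex.exp_add]; push_cast; ring_nf

theorem E_zero : E 0 = 1 := by simp [E]

theorem E_norm (x : ℝ) : ‖E x‖ = 1 := by
  unfold E
  rw [show (Real.pi : ℂ) * Complex.I * x = ((Real.pi * x : ℝ) : ℂ) * Complex.I by push_cast; ring]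
  exact Complex.norm_exp_ofReal_mul_I _

theorem E_ne_zero (x : ℝ) : E x ≠ 0 := Complex.exp_ne_zero _

theorem E_neg (x : ℝ) : E (-x) = (E x)⁻¹ := by
  refine eq_inv_of_mul_eq_one_left ?_
  rw [← E_add]; simp [E_zero]

theorem E_conj (x : ℝ) : (starRingEnd ℂ) (E x) = E (-x) := by
  unfold E
  rw [← Complex.exp_conj]
  congr 1
  simp

theorem E_two_mul_int (n : ℤ) : E (2 * n) = 1 := by
  unfold E
  rw [Complex.exp_eq_one_iff]
  exact ⟨n, by push_cast; ring⟩

theorem E_even (n : ℤ) (h : Even n) : E n = 1 := by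
  obtain ⟨k, hk⟩ := h
  rw [hk]
  have := E_two_mul_int k
  rw [← this]; congr 1; push_cast; ring

theorem E_one : E 1 = -1 := by
  unfold E; simp [Complex.exp_pi_mul_I]

theorem E_odd (n : ℤ) (h : Odd n) : E n = -1 := by
  obtain ⟨k, hk⟩ := h
  rw [hk]
  push_cast
  rw [E_add, E_two_mul_int, E_one]; ring

theorem E_pow (x : ℝ) (n : ℕ) : E x ^ n = E (n * x) := by
  unfold E; rw [← Complex.exp_nat_mul]; congr 1; push_cast; ring

theorem E_eq_cos_sin (x : ℝ) : E x = Complex.cos (Real.pi * x) + Complex.sin (Real.pi * x) * Complex.I := by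
  unfold E
  rw [show (Real.pi : ℂ) * Complex.I * x = (Real.pi * x) * Complex.I by ring, Complex.exp_mul_I]

theorem E_eq (x : ℝ) : E x = ⟨Real.cos (Real.pi * x), Real.sin (Real.pi * x)⟩ := by
  rw [E_eq_cos_sin]
  have h1 : Complex.cos (Real.pi * x) = ((Real.cos (Real.pi * x) : ℝ) : ℂ) := by push_cast; rfl
  have h2 : Complex.sin (Real.pi * x) = ((Real.sin (Real.pi * x) : ℝ) : ℂ) := by push_cast; rfl
  rw [h1, h2]
  apply Complex.ext
  · rw [Complex.add_re, Complex.ofReal_re, Complex.mul_re, Complex.ofReal_re, Complex.ofReal_im,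
      Complex.I_re, Complex.I_im]; ring
  · rw [Complex.add_im, Complex.ofReal_im, Complex.mul_im, Complex.ofReal_re, Complex.ofReal_im,
      Complex.I_re, Complex.I_im]; ring

theorem E_re (x : ℝ) : (E x).re = Real.cos (Real.pi * x) := by rw [E_eq]

theorem E_im (x : ℝ) : (E x).im = Real.sin (Real.pi * x) := by rw [E_eq]

theorem E_ne_one_of {x : ℝ} (h : ∀ k : ℤ, x ≠ 2 * k) : E x ≠ 1 := by
  unfold E
  rw [Ne, Complex.exp_eq_one_iff]
  rintro ⟨n, hn⟩
  apply h n
  have hpi : (Real.pi : ℂ) ≠ 0 := by exact_mod_cast Real.pi_ne_zero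
  have h1 : (Real.pi : ℂ) * Complex.I * ((x : ℂ) - 2 * n) = 0 := by linear_combination hn
  have h2 : ((x : ℂ) - 2 * n) = 0 := by
    rcases mul_eq_zero.mp h1 with h | h
    · rcases mul_eq_zero.mp h with h | h
      · exact absurd h hpi
      · exact absurd h Complex.I_ne_zero
    · exact h
  have h3 : (x : ℂ) = ((2 * n : ℝ) : ℂ) := by push_cast; linear_combination h2
  exact_mod_cast h3

/-- The sum over a full range of a function of a with f 0 = f r does not change under a ↦ a + 1. -/
theorem sum_range_shift {M : Type*} [AddCommGroup M] (f : ℕ → M) (r : ℕ) (h : f r = f 0) :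
    ∑ a ∈ range r, f (a + 1) = ∑ a ∈ range r, f a := by
  have h1 := Finset.sum_range_succ f r
  have h2 := Finset.sum_range_succ' f r
  rw [h1, h] at h2
  exact (add_right_cancel h2).symm

/-- The sum over a full range of a function of a with f 0 = f r does not change under a ↦ r - a. -/
theorem sum_range_neg {M : Type*} [AddCommGroup M] (f : ℕ → M) (r : ℕ) (h : f r = f 0) :
    ∑ a ∈ range r, f (r - a) = ∑ a ∈ range r, f a := by
  rw [← sum_range_shift f r h, ← Finset.sum_range_reflect (fun a => f (a + 1)) r]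
  refine Finset.sum_congr rfl fun a ha => ?_
  have := Finset.mem_range.mp ha
  congr 1
  omega

/-- Geometric sums of E. -/
theorem sum_E_even (r : ℕ) (m : ℤ) (hr : 0 < r) (hm : Even m) (h : ∀ k : ℤ, m ≠ 2 * r * k) :
    ∑ b ∈ range r, E (b * m / r) = 0 := by
  have hr' : (r : ℝ) ≠ 0 := by exact_mod_cast hr.ne'
  have h1 : ∀ b : ℕ, E (b * m / r) = E (m / r) ^ b := by
    intro b; rw [E_pow]; congr 1; ring
  simp only [h1]
  have hne : E (m / r) ≠ 1 := by
    apply E_ne_one_of
    intro k hk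
    apply h k
    have : (m : ℝ) = 2 * r * k := by field_simp at hk; linarith
    exact_mod_cast this
  rw [geom_sum_eq hne, E_pow]
  have : E (r * (m / r)) = 1 := by
    rw [mul_div_cancel₀ _ hr']; exact E_even m hm
  rw [this]; simp

theorem sum_E_odd (r : ℕ) (m : ℤ) (hr : 0 < r) (hm : Odd m) :
    ∑ b ∈ range r, E (b * m / r) = 2 / (1 - E (m / r)) := by
  have hr' : (r : ℝ) ≠ 0 := by exact_mod_cast hr.ne'
  have h1 : ∀ b : ℕ, E (b * m / r) = E (m / r) ^ b := by
    intro b; rw [E_pow]; congr 1; ring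
  simp only [h1]
  have hne : E (m / r) ≠ 1 := by
    apply E_ne_one_of
    intro k hk
    have : (m : ℝ) = 2 * r * k := by field_simp at hk; linarith
    have h2 : m = 2 * r * k := by exact_mod_cast this
    rcases hm with ⟨j, hj⟩
    rw [hj] at h2
    have h3 : (2 : ℤ) ∣ 1 := ⟨r * k - j, by linarith⟩
    norm_num at h3
  rw [geom_sum_eq hne, E_pow]
  have : E (r * (m / r)) = -1 := by
    rw [mul_div_cancel₀ _ hr']; exact E_odd m hm
  rw [this]
  have h3 : E (m / r) - 1 ≠ 0 := sub_ne_zero.mpr hne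
  have h4 : 1 - E (m / r) ≠ 0 := sub_ne_zero.mpr hne.symm
  field_simp
  ring

/-- 1 / (1 - exp (i φ)) = 1/2 + (i/2) cot (φ / 2) -/
theorem re_inv_one_sub_E (x : ℝ) (h : E x ≠ 1) : (2 / (1 - E x)).re = 1 := by
  have h1 : (1 - E x) ≠ 0 := sub_ne_zero.mpr h.symm
  have h2 : (1 - E x).re ^ 2 + (1 - E x).im ^ 2 ≠ 0 := by
    intro h3
    apply h1
    have h4 : (1 - E x).re = 0 := by nlinarith [sq_nonneg (1 - E x).re, sq_nonneg (1 - E x).im]
    have h5 : (1 - E x).im = 0 := by nlinarith [sq_nonneg (1 - E x).re, sq_nonneg (1 - E x).im]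
    exact Complex.ext (by simpa using h4) (by simpa using h5)
  rw [Complex.div_re]
  simp only [Complex.normSq_apply]
  simp only [Complex.sub_re, Complex.one_re, Complex.sub_im, Complex.one_im, E_re, E_im] at h2 ⊢
  have h6 := Real.sin_sq_add_cos_sq (Real.pi * x)
  have h7 : (1 - Real.cos (Real.pi * x)) ^ 2 + (0 - Real.sin (Real.pi * x)) ^ 2 =
      2 * (1 - Real.cos (Real.pi * x)) := by nlinarith
  rw [h7] at h2
  have h8 : 1 - Real.cos (Real.pi * x) ≠ 0 := fun h9 => h2 (by rw [h9]; ring)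
  have h9 : (1 - Real.cos (Real.pi * x)) * (1 - Real.cos (Real.pi * x)) +
      (0 - Real.sin (Real.pi * x)) * (0 - Real.sin (Real.pi * x)) =
      2 * (1 - Real.cos (Real.pi * x)) := by nlinarith
  rw [h9]
  simp
  field_simp
  exact h8

theorem sum_cos_zero (r : ℕ) : ∑ b ∈ range r, Real.cos (Real.pi * (b * (0 : ℤ) / r)) = r := by
  simp

theorem sum_cos_even (r : ℕ) (m : ℤ) (hr : 0 < r) (hm : Even m) (h : ∀ k : ℤ, m ≠ 2 * r * k) :
    ∑ b ∈ range r, Real.cos (Real.pi * (b * m / r)) = 0 := by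
  have := congrArg Complex.re (sum_E_even r m hr hm h)
  rw [Complex.re_sum] at this
  simpa only [E_re, Complex.zero_re] using this

theorem sum_cos_odd (r : ℕ) (m : ℤ) (hr : 0 < r) (hm : Odd m) :
    ∑ b ∈ range r, Real.cos (Real.pi * (b * m / r)) = 1 := by
  have h1 := congrArg Complex.re (sum_E_odd r m hr hm)
  rw [Complex.re_sum] at h1
  simp only [E_re] at h1
  rw [h1]
  apply re_inv_one_sub_E
  apply E_ne_one_of
  intro k hk
  have hr' : (r : ℝ) ≠ 0 := by exact_mod_cast hr.ne'
  have : (m : ℝ) = 2 * r * k := by field_simp at hk; linarith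
  have h2 : m = 2 * r * k := by exact_mod_cast this
  rcases hm with ⟨j, hj⟩
  rw [hj] at h2
  have h3 : (2 : ℤ) ∣ 1 := ⟨r * k - j, by linarith⟩
  norm_num at h3

/-- Orthogonality of sines. -/
theorem sum_sin_sin (r a c : ℕ) (ha : 0 < a) (har : a < r) (hc : 0 < c) (hcr : c < r) :
    ∑ b ∈ range r, Real.sin (Real.pi * (a * b / r)) * Real.sin (Real.pi * (b * c / r)) =
      if a = c then (r : ℝ) / 2 else 0 := by
  have hr : 0 < r := by omega
  have h1 : ∀ b : ℕ, Real.sin (Real.pi * (a * b / r)) * Real.sin (Real.pi * (b * c / r)) =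
      (1 / 2) * (Real.cos (Real.pi * (b * ((a - c : ℤ) : ℤ) / r)) -
        Real.cos (Real.pi * (b * ((a + c : ℤ) : ℤ) / r))) := by
    intro b
    have h2 : Real.pi * (b * ((a - c : ℤ) : ℤ) / r) = Real.pi * (a * b / r) - Real.pi * (b * c / r) := by
      push_cast; ring
    have h3 : Real.pi * (b * ((a + c : ℤ) : ℤ) / r) = Real.pi * (a * b / r) + Real.pi * (b * c / r) := by
      push_cast; ring
    rw [h2, h3, Real.cos_sub, Real.cos_add]
    ring
  simp only [h1]
  rw [← Finset.mul_sum, Finset.sum_sub_distrib]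
  rcases Int.even_or_odd ((a : ℤ) + c) with he | ho
  · have he' : Even ((a : ℤ) - c) := by
      rw [Int.even_sub]; rwa [Int.even_add] at he
    rw [sum_cos_even r ((a : ℤ) + c) hr he]
    · by_cases hac : a = c
      · subst hac
        rw [if_pos rfl, sub_self, sum_cos_zero]
        ring
      · rw [if_neg hac, sum_cos_even r ((a : ℤ) - c) hr he']
        · ring
        · intro k hk
          rcases lt_trichotomy k 0 with h0 | h0 | h0
          · nlinarith
          · subst h0; apply hac; omega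
          · nlinarith
    · intro k hk
      rcases lt_trichotomy k 0 with h0 | h0 | h0
      · nlinarith
      · subst h0; omega
      · nlinarith
  · have ho' : Odd ((a : ℤ) - c) := by
      rw [Int.odd_sub]; rwa [Int.odd_add] at ho
    rw [sum_cos_odd r ((a : ℤ) + c) hr ho, sum_cos_odd r ((a : ℤ) - c) hr ho']
    have : a ≠ c := by
      rintro rfl
      simp at ho'
    rw [if_neg this]; ring

end H524R3
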