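import Mathlib
import Pool.Agent.H524R3.Trig

/-!
# The vector of the twisted I-bundle over the Klein bottle
-/

set_option autoImplicit false

open Finset

namespace H524R3

/-- The alternating sum of sines is minus a tangent, or zero. -/
theorem sum_alt_sin (r a : ℕ) (ha : 0 < a) (har : a < r) :
    ∑ b ∈ range r, (-1 : ℝ) ^ b * Real.sin (Real.pi * (a * b / r)) =
      if Odd (a + r) then -Real.tan (Real.pi * (a / (2 * r))) else 0 := by
  have hr : 0 < r := by omega
  have hr' : (r : ℝ) ≠ 0 := by exact_mod_cast hr.ne'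
  -- (-1)^b sin (π a b / r) is the imaginary part of E (b (a + r) / r)
  have h1 : ∀ b : ℕ, (-1 : ℝ) ^ b * Real.sin (Real.pi * (a * b / r)) =
      (E (b * ((a + r : ℤ) : ℤ) / r)).im := by
    intro b
    have h2 : (b * ((a + r : ℤ) : ℤ) / r : ℝ) = a * b / r + b := by
      push_cast; field_simp
    rw [h2, E_add]
    have h3 : E (b : ℝ) = ((-1 : ℝ) ^ b : ℝ) := by
      have := E_pow 1 b
      rw [mul_one] at this
      rw [← this, E_one]; push_cast; rfl
    rw [h3, mul_comm, Complex.im_mul_ofReal, E_im]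
  simp only [h1]
  rw [← Complex.im_sum]
  by_cases ho : Odd (a + r)
  · rw [if_pos ho, sum_E_odd r _ hr (by exact_mod_cast ho)]
    have h2 : (((a + r : ℤ) : ℤ) / r : ℝ) = a / r + 1 := by push_cast; field_simp
    rw [h2, E_add, E_one]
    -- 2 / (1 + E (a / r))
    set φ : ℝ := Real.pi * (a / (2 * r)) with hφ
    have hφ2 : Real.pi * ((a : ℝ) / r) = 2 * φ := by rw [hφ]; field_simp
    have hcos : 0 < Real.cos φ := by
      apply Real.cos_pos_of_mem_Ioo
      have ha' : (0 : ℝ) < a := by exact_mod_cast ha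
      have har' : (a : ℝ) < r := by exact_mod_cast har
      have hrpos : (0 : ℝ) < r := by exact_mod_cast hr
      constructor
      · have : 0 ≤ φ := by rw [hφ]; positivity
        linarith [Real.pi_pos]
      · rw [hφ]
        have : (a : ℝ) / (2 * r) < 1 / 2 := by
          rw [div_lt_div_iff₀ (by positivity) (by norm_num)]; linarith
        nlinarith [Real.pi_pos]
    have h3 : (1 : ℂ) - E (a / r) * -1 = ⟨2 * Real.cos φ ^ 2, 2 * Real.sin φ * Real.cos φ⟩ := by
      rw [E_eq, hφ2]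
      apply Complex.ext
      · simp [Real.cos_two_mul]
      · simp [Real.sin_two_mul]
    rw [h3, Complex.div_im]
    simp only [Complex.normSq_mk]
    have h4 : (2 * Real.cos φ ^ 2) * (2 * Real.cos φ ^ 2) +
        (2 * Real.sin φ * Real.cos φ) * (2 * Real.sin φ * Real.cos φ) = 4 * Real.cos φ ^ 2 := by
      nlinarith [Real.sin_sq_add_cos_sq φ]
    rw [h4, Real.tan_eq_sin_div_cos]
    simp
    field_simp
    ring
  · rw [if_neg ho]
    have he : Even ((a + r : ℤ)) := by
      have := Nat.not_odd_iff_even.mp ho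
      exact_mod_cast this
    rw [sum_E_even r _ hr he]
    · simp
    · intro k hk
      rcases lt_trichotomy k 0 with h0 | h0 | h0
      · nlinarith
      · subst h0; omega
      · nlinarith

/-- The quadratic Gauss sum. -/
noncomputable def gs (r : ℕ) (x : ℤ) : ℂ := ∑ a ∈ range r, E (((a : ℝ) ^ 2 + a * x) / r)

theorem gs_term_r (r : ℕ) (x : ℤ) (hr : 0 < r) (h : Even ((r : ℤ) + x)) :
    E (((r : ℝ) ^ 2 + r * x) / r) = E (((0 : ℕ) : ℝ) ^ 2 + ((0 : ℕ) : ℝ) * x) / 1 := by
  have hr' : (r : ℝ) ≠ 0 := by exact_mod_cast hr.ne'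
  have h1 : ((r : ℝ) ^ 2 + r * x) / r = ((r + x : ℤ) : ℤ) := by push_cast; field_simp
  rw [h1, E_even _ h]
  simp [E_zero]

theorem gs_shift (r : ℕ) (x : ℤ) (hr : 0 < r) (h : Even ((r : ℤ) + x)) :
    gs r (x + 2) = E (-(1 + x) / r) * gs r x := by
  have hr' : (r : ℝ) ≠ 0 := by exact_mod_cast hr.ne'
  have h1 : gs r x = ∑ a ∈ range r, E ((((a + 1 : ℕ) : ℝ) ^ 2 + ((a + 1 : ℕ) : ℝ) * x) / r) := by
    unfold gs
    rw [sum_range_shift (fun a : ℕ => E (((a : ℝ) ^ 2 + a * x) / r)) r]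
    have := gs_term_r r x hr h
    simpa [E_zero] using this
  rw [h1]
  unfold gs
  rw [Finset.mul_sum]
  refine Finset.sum_congr rfl fun a _ => ?_
  rw [← E_add]
  congr 1
  push_cast
  field_simp
  ring

theorem gs_neg (r : ℕ) (x : ℤ) (hr : 0 < r) (h : Even ((r : ℤ) + x)) : gs r (-x) = gs r x := by
  have hr' : (r : ℝ) ≠ 0 := by exact_mod_cast hr.ne'
  have h1 : gs r x = ∑ a ∈ range r, E ((((r - a : ℕ) : ℝ) ^ 2 + ((r - a : ℕ) : ℝ) * x) / r) := by
    unfold gs
    rw [sum_range_neg (fun a : ℕ => E (((a : ℝ) ^ 2 + a * x) / r)) r]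
    have := gs_term_r r x hr h
    simpa [E_zero] using this
  rw [h1]
  unfold gs
  refine Finset.sum_congr rfl fun a ha => ?_
  have ha' : a ≤ r := (Finset.mem_range.mp ha).le
  rw [Nat.cast_sub ha']
  have h2 : (((r : ℝ) - a) ^ 2 + (r - a) * x) / r =
      ((a : ℝ) ^ 2 + a * ((-x : ℤ) : ℝ)) / r + (((r + x - 2 * a : ℤ) : ℤ) : ℝ) := by
    push_cast; field_simp; ring
  rw [h2, E_add, E_even, mul_one]
  rcases h with ⟨k, hk⟩
  exact ⟨k - a, by linarith⟩

theorem gs_norm_shift (r : ℕ) (x : ℤ) (hr : 0 < r) (h : Even ((r : ℤ) + x)) (n : ℕ) :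
    ‖gs r (x + 2 * n)‖ = ‖gs r x‖ := by
  induction n with
  | zero => simp
  | succ n ih =>
    have h2 : Even ((r : ℤ) + (x + 2 * n)) := by
      rcases h with ⟨k, hk⟩
      exact ⟨k + n, by linarith⟩
    have h3 : x + 2 * ((n + 1 : ℕ) : ℤ) = (x + 2 * n) + 2 := by push_cast; ring
    rw [h3, gs_shift r _ hr h2, norm_mul, E_norm, one_mul, ih]

/-- |g|² = r -/
theorem gs_norm_sq (r : ℕ) (x : ℤ) (hr : 0 < r) (h : Even ((r : ℤ) + x)) : ‖gs r x‖ ^ 2 = r := by
  have hr' : (r : ℝ) ≠ 0 := by exact_mod_cast hr.ne'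
  have hrc : (r : ℂ) ≠ 0 := by exact_mod_cast hr.ne'
  -- Parseval
  have h1 : ∑ n ∈ range r, ((‖gs r (x + 2 * n)‖ ^ 2 : ℝ) : ℂ) = (r : ℂ) ^ 2 := by
    have h2 : ∀ n : ℕ, ((‖gs r (x + 2 * n)‖ ^ 2 : ℝ) : ℂ) =
        ∑ a ∈ range r, ∑ b ∈ range r,
          (E (((a : ℝ) ^ 2 + a * x) / r) * E (-(((b : ℝ) ^ 2 + b * x) / r))) *
            E (n * ((2 * (a - b) : ℤ) : ℤ) / r) := by
      intro n
      have h3 : ((‖gs r (x + 2 * n)‖ ^ 2 : ℝ) : ℂ) = gs r (x + 2 * n) * (starRingEnd ℂ) (gs r (x + 2 * n)) := by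
        rw [Complex.mul_conj, Complex.normSq_eq_norm_sq]
      rw [h3]
      unfold gs
      rw [map_sum, Finset.sum_mul_sum]
      refine Finset.sum_congr rfl fun a _ => Finset.sum_congr rfl fun b _ => ?_
      rw [E_conj, ← E_add, ← E_add, ← E_add]
      congr 1
      push_cast
      field_simp
      ring
    simp only [h2]
    rw [Finset.sum_comm]
    have h4 : ∀ a ∈ range r, ∑ n ∈ range r, ∑ b ∈ range r,
        (E (((a : ℝ) ^ 2 + a * x) / r) * E (-(((b : ℝ) ^ 2 + b * x) / r))) *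
            E (n * ((2 * (a - b) : ℤ) : ℤ) / r) = r := by
      intro a ha
      rw [Finset.sum_comm]
      have h5 : ∀ b ∈ range r, ∑ n ∈ range r,
          (E (((a : ℝ) ^ 2 + a * x) / r) * E (-(((b : ℝ) ^ 2 + b * x) / r))) *
            E (n * ((2 * (a - b) : ℤ) : ℤ) / r) = if b = a then (r : ℂ) else 0 := by
        intro b hb
        rw [← Finset.mul_sum]
        by_cases hab : b = a
        · subst hab
          rw [if_pos rfl, ← E_add]
          simp [E_zero]
        · rw [if_neg hab, sum_E_even r (2 * (a - b)) hr (even_two_mul _), mul_zero]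
          intro k hk
          have ha' := Finset.mem_range.mp ha
          have hb' := Finset.mem_range.mp hb
          have h6 : (a : ℤ) - b = r * k := by linarith
          rcases lt_trichotomy k 0 with h0 | h0 | h0
          · nlinarith
          · subst h0; apply hab; omega
          · nlinarith
      rw [Finset.sum_congr rfl h5]
      rw [Finset.sum_ite_eq' (range r) a, if_pos ha]
    rw [Finset.sum_congr rfl h4]
    simp [sq]
  have h2 : ∀ n ∈ range r, ((‖gs r (x + 2 * n)‖ ^ 2 : ℝ) : ℂ) = ((‖gs r x‖ ^ 2 : ℝ) : ℂ) := by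
    intro n _
    rw [gs_norm_shift r x hr h n]
  rw [Finset.sum_congr rfl h2] at h1
  simp only [Finset.sum_const, Finset.card_range, nsmul_eq_mul] at h1
  have h3 : ((‖gs r x‖ ^ 2 : ℝ) : ℂ) = (r : ℂ) := by
    apply mul_left_cancel₀ hrc
    rw [h1]; ring
  exact_mod_cast h3

end H524R3
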