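import Mathlib
import Pool.Agent.H524R3.Defs
import Pool.Agent.H524R3.Trig
import Pool.Agent.H524R3.Gauss

/-!
# The two leaves of framing 2 and -2
-/

set_option autoImplicit false

open Finset

namespace H524R3

/-- The S-matrix. -/
noncomputable def sm (r a b : ℕ) : ℝ := Real.sqrt (2 / r) * Real.sin (Real.pi * (a * b / r))

theorem sum_Icc_eq_range {M : Type*} [AddCommMonoid M] (f : ℕ → M) (r : ℕ) (hr : 0 < r) (h0 : f 0 = 0) :
    ∑ a ∈ Icc 1 (r - 1), f a = ∑ a ∈ range r, f a := by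
  have h1 : range r = insert 0 (Icc 1 (r - 1)) := by
    ext a; simp only [mem_range, mem_insert, mem_Icc]; omega
  rw [h1, Finset.sum_insert (by simp), h0, zero_add]

theorem twist_eq (r a : ℕ) : twist r a = E (((a : ℝ) ^ 2 - 1) / (2 * r)) := by
  unfold twist E
  congr 1
  push_cast
  ring

theorem twist_zpow (r a : ℕ) (n : ℤ) : twist r a ^ n = E (n * (((a : ℝ) ^ 2 - 1) / (2 * r))) := by
  rw [twist_eq]
  cases n with
  | ofNat n => simp [E_pow]
  | negSucc n =>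
    rw [zpow_negSucc, E_pow, ← E_neg]; congr 1; push_cast; ring

theorem sm_sq (r a u : ℕ) : sm r 1 a * sm r a u =
    2 / r * (Real.sin (Real.pi * (a / r)) * Real.sin (Real.pi * (a * u / r))) := by
  unfold sm
  have : Real.sqrt (2 / r) * Real.sqrt (2 / r) = 2 / r := Real.mul_self_sqrt (by positivity)
  push_cast
  rw [one_mul]
  linear_combination (Real.sin (Real.pi * (a / r)) * Real.sin (Real.pi * (a * u / r))) * this

/-- The sum over the colour of a leaf of framing e attached to a vertex of colour u. -/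
noncomputable def leaf (r : ℕ) (e : ℤ) (u : ℕ) : ℂ :=
  ∑ a ∈ Icc 1 (r - 1), ((sm r 1 a * sm r a u : ℝ) : ℂ) * twist r a ^ e

theorem leaf_neg (r : ℕ) (e : ℤ) (u : ℕ) : leaf r (-e) u = (starRingEnd ℂ) (leaf r e u) := by
  unfold leaf
  rw [map_sum]
  refine Finset.sum_congr rfl fun a _ => ?_
  rw [map_mul, Complex.conj_ofReal, twist_zpow, twist_zpow, E_conj]
  congr 2
  push_cast; ring

/-- The oscillating summand. -/
noncomputable def Fs (r u a : ℕ) : ℂ :=
  ((Real.sin (Real.pi * (a / r)) * Real.sin (Real.pi * (a * u / r)) : ℝ) : ℂ) * E ((a : ℝ) ^ 2 / r)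

theorem leaf_two (r u : ℕ) (hr : 0 < r) :
    leaf r 2 u = (2 / r : ℝ) * E (-1 / r) * ∑ a ∈ range r, Fs r u a := by
  unfold leaf
  rw [sum_Icc_eq_range (fun a => ((sm r 1 a * sm r a u : ℝ) : ℂ) * twist r a ^ (2 : ℤ)) r hr
    (by simp [sm]), Finset.mul_sum]
  refine Finset.sum_congr rfl fun a _ => ?_
  rw [sm_sq, twist_zpow]
  unfold Fs
  have hr' : (r : ℝ) ≠ 0 := by exact_mod_cast hr.ne'
  have h1 : (((2 : ℤ) : ℝ) * (((a : ℝ) ^ 2 - 1) / (2 * r))) = -1 / r + (a : ℝ) ^ 2 / r := by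
    push_cast; field_simp; ring
  rw [h1, E_add]
  push_cast
  ring

theorem sin_eq_E (x : ℝ) : ((Real.cos (Real.pi * x) : ℝ) : ℂ) = (E x + E (-x)) / 2 := by
  rw [E_eq_cos_sin, E_eq_cos_sin]
  push_cast
  rw [mul_neg, Complex.cos_neg, Complex.sin_neg]
  ring

theorem Fs_eq (r u a : ℕ) : Fs r u a =
    (E (((a : ℝ) ^ 2 + a * ((u - 1 : ℤ) : ℤ)) / r) + E (((a : ℝ) ^ 2 + a * ((-(u - 1) : ℤ) : ℤ)) / r) -
      E (((a : ℝ) ^ 2 + a * ((u + 1 : ℤ) : ℤ)) / r) - E (((a : ℝ) ^ 2 + a * ((-(u + 1) : ℤ) : ℤ)) / r)) / 4 := by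
  unfold Fs
  have h1 : Real.sin (Real.pi * (a / r)) * Real.sin (Real.pi * (a * u / r)) =
      (Real.cos (Real.pi * (a * (u - 1) / r)) - Real.cos (Real.pi * (a * (u + 1) / r))) / 2 := by
    have h2 : Real.pi * ((a : ℝ) * (u - 1) / r) = Real.pi * (a * u / r) - Real.pi * (a / r) := by ring
    have h3 : Real.pi * ((a : ℝ) * (u + 1) / r) = Real.pi * (a * u / r) + Real.pi * (a / r) := by ring
    rw [h2, h3, Real.cos_sub, Real.cos_add]; ring
  rw [h1]
  push_cast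
  rw [← Complex.ofReal_natCast a, ← Complex.ofReal_natCast u, ← Complex.ofReal_natCast r]
  have h4 : Complex.cos (Real.pi * (((a : ℝ) : ℂ) * ((u : ℝ) - 1) / (r : ℝ))) =
      (E (a * (u - 1) / r) + E (-(a * (u - 1) / r))) / 2 := by
    rw [← sin_eq_E]; push_cast; rfl
  have h5 : Complex.cos (Real.pi * (((a : ℝ) : ℂ) * ((u : ℝ) + 1) / (r : ℝ))) =
      (E (a * (u + 1) / r) + E (-(a * (u + 1) / r))) / 2 := by
    rw [← sin_eq_E]; push_cast; rfl
  rw [h4, h5]
  have e1 : ((a : ℝ) ^ 2 + a * ((u : ℝ) - 1)) / r = (a : ℝ) ^ 2 / r + a * (u - 1) / r := by ring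
  have e2 : ((a : ℝ) ^ 2 + a * -((u : ℝ) - 1)) / r = (a : ℝ) ^ 2 / r + -(a * (u - 1) / r) := by ring
  have e3 : ((a : ℝ) ^ 2 + a * ((u : ℝ) + 1)) / r = (a : ℝ) ^ 2 / r + a * (u + 1) / r := by ring
  have e4 : ((a : ℝ) ^ 2 + a * (-1 + -(u : ℝ))) / r = (a : ℝ) ^ 2 / r + -(a * (u + 1) / r) := by ring
  have e4' : ((a : ℝ) ^ 2 + a * -((u : ℝ) + 1)) / r = (a : ℝ) ^ 2 / r + -(a * (u + 1) / r) := by ring
  first
    | rw [e1, e2, e3, e4, E_add, E_add, E_add, E_add]
      ring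
    | rw [e1, e2, e3, e4', E_add, E_add, E_add, E_add]
      ring

theorem sum_Fs_odd (r u : ℕ) (hr : 0 < r) (h : Odd (u + r)) :
    ∑ a ∈ range r, Fs r u a = gs r (u - 1) * (1 - E (-u / r)) / 2 := by
  simp only [Fs_eq]
  rw [← Finset.sum_div, Finset.sum_sub_distrib, Finset.sum_sub_distrib, Finset.sum_add_distrib]
  have h1 : Even ((r : ℤ) + ((u : ℤ) - 1)) := by
    have : Odd ((u : ℤ) + r) := by exact_mod_cast h
    rcases this with ⟨k, hk⟩; exact ⟨k, by linarith⟩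
  have h2 : Even ((r : ℤ) + ((u : ℤ) + 1)) := by
    have : Odd ((u : ℤ) + r) := by exact_mod_cast h
    rcases this with ⟨k, hk⟩; exact ⟨k + 1, by linarith⟩
  have g1 : ∑ a ∈ range r, E (((a : ℝ) ^ 2 + a * ((u - 1 : ℤ) : ℤ)) / r) = gs r (u - 1) := rfl
  have g2 : ∑ a ∈ range r, E (((a : ℝ) ^ 2 + a * ((-(u - 1) : ℤ) : ℤ)) / r) = gs r (u - 1) :=
    gs_neg r _ hr h1
  have g3 : ∑ a ∈ range r, E (((a : ℝ) ^ 2 + a * ((u + 1 : ℤ) : ℤ)) / r) = gs r (u + 1) := rfl
  have g4 : ∑ a ∈ range r, E (((a : ℝ) ^ 2 + a * ((-(u + 1) : ℤ) : ℤ)) / r) = gs r (u + 1) :=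
    gs_neg r _ hr h2
  rw [g1, g2, g3, g4]
  have g5 : gs r (u + 1) = E (-u / r) * gs r (u - 1) := by
    have := gs_shift r (u - 1) hr h1
    rw [show (u : ℤ) - 1 + 2 = u + 1 by ring] at this
    rw [this]
    congr 2
    push_cast; ring
  rw [g5]
  ring

theorem sum_Fs_even (r u : ℕ) (hr : 0 < r) (h : ¬ Odd (u + r)) : ∑ a ∈ range r, Fs r u a = 0 := by
  have hr' : (r : ℝ) ≠ 0 := by exact_mod_cast hr.ne'
  have h0 : Fs r u 0 = 0 := by simp [Fs]
  have hrr : Fs r u r = Fs r u 0 := by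
    rw [h0]; unfold Fs; rw [div_self hr', mul_one]; simp
  have h1 := sum_range_neg (fun a => Fs r u a) r hrr
  have h2 : ∀ a ∈ range r, Fs r u (r - a) = -Fs r u a := by
    intro a ha
    have ha' : a ≤ r := (Finset.mem_range.mp ha).le
    unfold Fs
    rw [Nat.cast_sub ha']
    have e1 : Real.sin (Real.pi * (((r : ℝ) - a) / r)) = Real.sin (Real.pi * (a / r)) := by
      rw [show Real.pi * (((r : ℝ) - a) / r) = Real.pi - Real.pi * (a / r) by field_simp,
        Real.sin_pi_sub]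
    have e2 : Real.sin (Real.pi * (((r : ℝ) - a) * u / r)) =
        -((-1) ^ u * Real.sin (Real.pi * (a * u / r))) := by
      rw [show Real.pi * (((r : ℝ) - a) * u / r) = u * Real.pi - Real.pi * (a * u / r) by
        field_simp, Real.sin_nat_mul_pi_sub]
    have e3 : E (((r : ℝ) - a) ^ 2 / r) = (-1) ^ r * E ((a : ℝ) ^ 2 / r) := by
      rw [show ((r : ℝ) - a) ^ 2 / r = r * 1 + (a : ℝ) ^ 2 / r + ((2 * (-(a : ℤ)) : ℤ) : ℝ) by
        push_cast; field_simp; ring, E_add, E_even _ (even_two_mul _), E_add, ← E_pow, E_one, mul_one]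
    rw [e1, e2, e3]
    have e4 : (-1 : ℂ) ^ u * (-1) ^ r = 1 := by
      rw [← pow_add]
      exact (Nat.not_odd_iff_even.mp h).neg_one_pow
    push_cast
    linear_combination (-(Complex.sin (Real.pi * (a / r)) * Complex.sin (Real.pi * (a * u / r)) *
      E ((a : ℝ) ^ 2 / r))) * e4
  rw [Finset.sum_congr rfl h2, Finset.sum_neg_distrib] at h1
  have h3 : (2 : ℂ) * ∑ a ∈ range r, Fs r u a = 0 := by linear_combination -h1
  rcases mul_eq_zero.mp h3 with h | h
  · norm_num at h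
  · exact h

/-- The product of the contributions of the leaves of framings 2 and -2 at a vertex of colour u. -/
theorem leaf_mul_leaf (r u : ℕ) (hr : 0 < r) :
    leaf r 2 u * leaf r (-2) u =
      if Odd (u + r) then ((4 / r * Real.sin (Real.pi * (u / (2 * r))) ^ 2 : ℝ) : ℂ) else 0 := by
  have hr' : (r : ℝ) ≠ 0 := by exact_mod_cast hr.ne'
  rw [leaf_neg, Complex.mul_conj, Complex.normSq_eq_norm_sq]
  by_cases h : Odd (u + r)
  · rw [if_pos h, leaf_two r u hr, sum_Fs_odd r u hr h]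
    have h1 : Even ((r : ℤ) + ((u : ℤ) - 1)) := by
      have : Odd ((u : ℤ) + r) := by exact_mod_cast h
      rcases this with ⟨k, hk⟩; exact ⟨k, by linarith⟩
    have h2 := gs_norm_sq r (u - 1) hr h1
    have h3 : ‖(1 - E (-u / r) : ℂ)‖ ^ 2 = 4 * Real.sin (Real.pi * (u / (2 * r))) ^ 2 := by
      rw [← Complex.normSq_eq_norm_sq, E_eq, Complex.normSq_apply]
      simp only [Complex.sub_re, Complex.one_re, Complex.sub_im, Complex.one_im]
      have h4 : Real.pi * (-(u : ℝ) / r) = -(2 * (Real.pi * (u / (2 * r)))) := by field_simp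
      rw [h4, Real.cos_neg, Real.sin_neg]
      have h5 := Real.sin_sq_add_cos_sq (2 * (Real.pi * ((u : ℝ) / (2 * r))))
      have h6 := Real.cos_two_mul (Real.pi * ((u : ℝ) / (2 * r)))
      have h7 := Real.sin_sq_add_cos_sq (Real.pi * ((u : ℝ) / (2 * r)))
      nlinarith
    congr 1
    have h8 : ‖((2 / r : ℝ) : ℂ) * E (-1 / r) * (gs r (u - 1) * (1 - E (-u / r)) / 2)‖ =
        2 / r * (‖gs r (u - 1)‖ * ‖(1 - E (-u / r) : ℂ)‖ / 2) := by
      rw [norm_mul, norm_mul, E_norm, mul_one, norm_div, norm_mul, Complex.norm_real,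
        Real.norm_of_nonneg (by positivity)]
      norm_num
    rw [h8, mul_pow, div_pow, div_pow, mul_pow, h2, h3]
    field_simp
  · rw [if_neg h, leaf_two r u hr, sum_Fs_even r u hr h]
    simp

end H524R3
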