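import Mathlib
import Pool.Agent.H524R3.Leaf

/-!
# A closed formula for the SU(2) invariants of the Hantzsche-Wendt manifold
-/

set_option autoImplicit false

open Finset

namespace H524R3

theorem sum_piFinset_cons {n : ℕ} (s : Finset ℕ) (F : (Fin (n + 1) → ℕ) → ℂ) :
    ∑ k ∈ Fintype.piFinset (fun _ : Fin (n + 1) => s), F k =
      ∑ x ∈ s, ∑ k ∈ Fintype.piFinset (fun _ : Fin n => s), F (Matrix.vecCons x k) := by
  rw [← Finset.sum_product']
  refine Finset.sum_nbij' (fun k => (k 0, fun i => k i.succ)) (fun p => Matrix.vecCons p.1 p.2)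
    ?_ ?_ ?_ ?_ ?_
  · intro k hk
    rw [Fintype.mem_piFinset] at hk
    rw [Finset.mem_product, Fintype.mem_piFinset]
    exact ⟨hk 0, fun i => hk i.succ⟩
  · intro p hp
    rw [Finset.mem_product, Fintype.mem_piFinset] at hp
    rw [Fintype.mem_piFinset]
    intro i
    refine Fin.cases ?_ (fun j => ?_) i
    · exact hp.1
    · exact hp.2 j
  · intro k _
    funext i
    refine Fin.cases ?_ (fun j => ?_) i <;> rfl
  · intro p _
    rfl
  · intro k _
    congr 1
    funext i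
    refine Fin.cases ?_ (fun j => ?_) i <;> rfl

theorem sum_piFinset_zero (s : Finset ℕ) (F : (Fin 0 → ℕ) → ℂ) :
    ∑ k ∈ Fintype.piFinset (fun _ : Fin 0 => s), F k = F ![] := by
  rw [Fintype.piFinset_of_isEmpty]
  simp only [Finset.univ_unique, Finset.sum_singleton]
  congr 1

theorem deg0 : hwTree.degree 0 = 3 := by decide
theorem deg1 : hwTree.degree 1 = 3 := by decide
theorem deg2 : hwTree.degree 2 = 1 := by decide
theorem deg3 : hwTree.degree 3 = 1 := by decide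
theorem deg4 : hwTree.degree 4 = 1 := by decide
theorem deg5 : hwTree.degree 5 = 1 := by decide

/-- b = sqrt (2 / r) sin (π / r). -/
noncomputable def bb (r : ℕ) : ℝ := Real.sqrt (2 / r) * Real.sin (Real.pi / r)

theorem bb_pos (r : ℕ) (hr : 2 ≤ r) : 0 < bb r := by
  unfold bb
  have hr' : (2 : ℝ) ≤ r := by exact_mod_cast hr
  refine mul_pos (Real.sqrt_pos.mpr (by positivity)) (Real.sin_pos_of_pos_of_lt_pi (by positivity) ?_)
  rw [div_lt_iff₀ (by linarith)]
  nlinarith [Real.pi_pos]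

theorem qint_eq (r n : ℕ) (hr : 2 ≤ r) : qint r n = sm r 1 n / bb r := by
  have h := bb_pos r hr
  have h2 : 0 < Real.sin (Real.pi / r) ∧ 0 < Real.sqrt (2 / (r : ℝ)) := by
    unfold bb at h
    have h3 : 0 ≤ Real.sqrt (2 / (r : ℝ)) := Real.sqrt_nonneg _
    constructor
    · by_contra h4
      push Not at h4
      nlinarith
    · rcases h3.lt_or_eq with h4 | h4
      · exact h4
      · rw [← h4] at h; simp at h
  unfold qint sm bb
  push_cast
  rw [one_mul, mul_div_assoc]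
  have := h2.1.ne'
  have := h2.2.ne'
  field_simp

theorem qint_mul_eq (r n k : ℕ) (hr : 2 ≤ r) : qint r (n * k) = sm r n k / bb r := by
  rw [qint_eq r _ hr]
  congr 1
  unfold sm
  push_cast
  rw [one_mul]

theorem sum_four (A : Finset ℕ) (c : ℂ) (f g h k : ℕ → ℂ) :
    ∑ p ∈ A, ∑ q ∈ A, ∑ s ∈ A, ∑ t ∈ A, c * f p * g q * h s * k t =
      c * (∑ p ∈ A, f p) * (∑ p ∈ A, g p) * (∑ p ∈ A, h p) * (∑ p ∈ A, k p) := by
  simp only [← Finset.mul_sum, ← Finset.sum_mul]

theorem alg_aux (b U V P Q S T X PU QU SV TV a1 a2 a3 a4 : ℂ) (hb : b ≠ 0) (hU : U ≠ 0) (hV : V ≠ 0) :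
    b ^ 7 *
      (U / b * (V / b * (P / b * (Q / b * (S / b * (T / b))))) *
        (a1 * (a2 * (a3 * a4)) * (((U / b) ^ 2)⁻¹ * ((V / b) ^ 2)⁻¹) *
          (X / b * (PU / b * (QU / b * (SV / b * (TV / b))))))) =
    X / (U * V) * (P * PU * a1) * (Q * QU * a2) * (S * SV * a3) * (T * TV * a4) := by
  field_simp

theorem wrt_hw_eq (r : ℕ) (hr : 2 ≤ r) :
    hwTree.wrt r = ∑ u ∈ Icc 1 (r - 1), ∑ v ∈ Icc 1 (r - 1),
      ((sm r v u : ℝ) : ℂ) * (leaf r 2 u * leaf r (-2) u / (sm r 1 u : ℝ)) *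
        (leaf r 2 v * leaf r (-2) v / (sm r 1 v : ℝ)) := by
  unfold PlumbingTree.wrt
  simp only [sum_piFinset_cons, sum_piFinset_zero]
  rw [Finset.mul_sum]
  refine Finset.sum_congr rfl fun u hu => ?_
  rw [Finset.mul_sum]
  refine Finset.sum_congr rfl fun v hv => ?_
  have hb : ((bb r : ℝ) : ℂ) ≠ 0 := by exact_mod_cast (bb_pos r hr).ne'
  have hpos : ∀ n ∈ Icc 1 (r - 1), ((sm r 1 n : ℝ) : ℂ) ≠ 0 := by
    intro n hn
    rw [mem_Icc] at hn
    have h1 : (1 : ℝ) ≤ n := by exact_mod_cast hn.1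
    have h2 : (n : ℝ) < r := by
      have : n < r := by omega
      exact_mod_cast this
    have h3 : 0 < sm r 1 n := by
      unfold sm
      have hr' : (0 : ℝ) < r := by linarith
      refine mul_pos (Real.sqrt_pos.mpr (by positivity)) (Real.sin_pos_of_pos_of_lt_pi ?_ ?_)
      · push_cast; positivity
      · push_cast
        rw [one_mul]
        have : (n : ℝ) / r < 1 := by rw [div_lt_one hr']; exact h2
        nlinarith [Real.pi_pos]
    exact_mod_cast h3.ne'
  have hu0 := hpos u hu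
  have hv0 := hpos v hv
  have hterm : ∀ p q s t : ℕ,
      ((Real.sqrt (2 / r) * Real.sin (Real.pi / r) : ℝ) : ℂ) ^ (5 + 2) *
        ((∏ w, (qint r (![u, v, p, q, s, t] w) : ℂ)) *
          hwTree.colouredJones r ![u, v, p, q, s, t]) =
      ((sm r v u : ℝ) : ℂ) / ((sm r 1 u : ℝ) * (sm r 1 v : ℝ)) *
        (((sm r 1 p * sm r p u : ℝ) : ℂ) * twist r p ^ (2 : ℤ)) *
        (((sm r 1 q * sm r q u : ℝ) : ℂ) * twist r q ^ (-2 : ℤ)) *
        (((sm r 1 s * sm r s v : ℝ) : ℂ) * twist r s ^ (2 : ℤ)) *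
        (((sm r 1 t * sm r t v : ℝ) : ℂ) * twist r t ^ (-2 : ℤ)) := by
    intro p q s t
    have hbb : ((Real.sqrt (2 / r) * Real.sin (Real.pi / r) : ℝ) : ℂ) = ((bb r : ℝ) : ℂ) := rfl
    rw [hbb]
    unfold PlumbingTree.colouredJones
    simp only [Fin.prod_univ_succ, Fin.prod_univ_zero]
    have f0 : hwTree.framing 0 = 0 := rfl
    have f1 : hwTree.framing (Fin.succ 0) = 0 := rfl
    have f2 : hwTree.framing (Fin.succ (Fin.succ 0)) = 2 := rfl
    have f3 : hwTree.framing (Fin.succ (Fin.succ (Fin.succ 0))) = -2 := rfl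
    have f4 : hwTree.framing (Fin.succ (Fin.succ (Fin.succ (Fin.succ 0)))) = 2 := rfl
    have f5 : hwTree.framing (Fin.succ (Fin.succ (Fin.succ (Fin.succ (Fin.succ 0))))) = -2 := rfl
    have p0 : hwTree.parent 0 = 0 := rfl
    have p1 : hwTree.parent (Fin.succ 0) = 0 := rfl
    have p2 : hwTree.parent (Fin.succ (Fin.succ 0)) = 0 := rfl
    have p3 : hwTree.parent (Fin.succ (Fin.succ (Fin.succ 0))) = 1 := rfl
    have p4 : hwTree.parent (Fin.succ (Fin.succ (Fin.succ (Fin.succ 0)))) = 1 := rfl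
    have d0 : hwTree.degree 0 = 3 := deg0
    have d1 : hwTree.degree (Fin.succ 0) = 3 := deg1
    have d2 : hwTree.degree (Fin.succ (Fin.succ 0)) = 1 := deg2
    have d3 : hwTree.degree (Fin.succ (Fin.succ (Fin.succ 0))) = 1 := deg3
    have d4 : hwTree.degree (Fin.succ (Fin.succ (Fin.succ (Fin.succ 0)))) = 1 := deg4
    have d5 : hwTree.degree (Fin.succ (Fin.succ (Fin.succ (Fin.succ (Fin.succ 0))))) = 1 := deg5
    have k0 : (![u, v, p, q, s, t] : Fin 6 → ℕ) 0 = u := rfl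
    have k1 : (![u, v, p, q, s, t] : Fin 6 → ℕ) (Fin.succ 0) = v := rfl
    have k1' : (![u, v, p, q, s, t] : Fin 6 → ℕ) 1 = v := rfl
    have k2 : (![u, v, p, q, s, t] : Fin 6 → ℕ) (Fin.succ (Fin.succ 0)) = p := rfl
    have k3 : (![u, v, p, q, s, t] : Fin 6 → ℕ) (Fin.succ (Fin.succ (Fin.succ 0))) = q := rfl
    have k4 : (![u, v, p, q, s, t] : Fin 6 → ℕ) (Fin.succ (Fin.succ (Fin.succ (Fin.succ 0)))) = s := rfl
    have k5 : (![u, v, p, q, s, t] : Fin 6 → ℕ)
      (Fin.succ (Fin.succ (Fin.succ (Fin.succ (Fin.succ 0))))) = t := rfl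
    simp only [f0, f1, f2, f3, f4, f5, p0, p1, p2, p3, p4, d0, d1, d2, d3, d4, d5, k0, k1, k1', k2, k3,
      k4, k5, qint_mul_eq r _ _ hr]
    simp only [qint_eq r _ hr]
    have hz1 : (1 : ℤ) - ((3 : ℕ) : ℤ) = -2 := by norm_num
    have hz2 : (1 : ℤ) - ((1 : ℕ) : ℤ) = 0 := by norm_num
    rw [hz1, hz2]
    simp only [zpow_zero, mul_one, one_mul]
    have hz3 : ∀ x : ℂ, x ^ (-2 : ℤ) = (x ^ 2)⁻¹ := fun x => by
      rw [zpow_neg]; norm_cast
    rw [hz3 (((sm r 1 u / bb r : ℝ) : ℂ)), hz3 (((sm r 1 v / bb r : ℝ) : ℂ))]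
    push_cast
    exact alg_aux _ _ _ _ _ _ _ _ _ _ _ _ _ _ _ _ hb hu0 hv0
  simp only [Finset.mul_sum]
  refine (Finset.sum_congr rfl fun p _ => Finset.sum_congr rfl fun q _ => Finset.sum_congr rfl
    fun s _ => Finset.sum_congr rfl fun t _ => hterm p q s t).trans ?_
  rw [sum_four]
  unfold leaf
  field_simp

/-- The vector of the twisted I-bundle over the Klein bottle. -/
noncomputable def wv (r u : ℕ) : ℝ :=
  if Odd (u + r) then Real.sqrt (2 / r) * Real.tan (Real.pi * (u / (2 * r))) else 0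

theorem leaf_div (r u : ℕ) (hu : 0 < u) (hur : u < r) :
    leaf r 2 u * leaf r (-2) u / (sm r 1 u : ℝ) = (wv r u : ℂ) := by
  have hr : 0 < r := by omega
  have hr' : (0 : ℝ) < r := by exact_mod_cast hr
  have hu' : (0 : ℝ) < u := by exact_mod_cast hu
  have hur' : (u : ℝ) < r := by exact_mod_cast hur
  rw [leaf_mul_leaf r u hr]
  unfold wv
  by_cases h : Odd (u + r)
  · rw [if_pos h, if_pos h, ← Complex.ofReal_div]
    congr 1
    unfold sm
    set φ : ℝ := Real.pi * (u / (2 * r)) with hφ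
    have h1 : Real.pi * (((1 : ℕ) : ℝ) * u / r) = 2 * φ := by rw [hφ]; push_cast; field_simp
    have hq : (u : ℝ) / (2 * r) < 1 / 2 := by
      rw [div_lt_div_iff₀ (by positivity) (by norm_num)]; linarith
    have hq0 : 0 < (u : ℝ) / (2 * r) := by positivity
    have hsin : 0 < Real.sin φ := Real.sin_pos_of_pos_of_lt_pi (by rw [hφ]; positivity)
      (by rw [hφ]; nlinarith [Real.pi_pos])
    have hcos : 0 < Real.cos φ := Real.cos_pos_of_mem_Ioo ⟨by rw [hφ]; nlinarith [Real.pi_pos],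
      by rw [hφ]; nlinarith [Real.pi_pos]⟩
    have hsq : Real.sqrt (2 / r) * Real.sqrt (2 / r) = 2 / r := Real.mul_self_sqrt (by positivity)
    have hsp : 0 < Real.sqrt (2 / (r : ℝ)) := Real.sqrt_pos.mpr (by positivity)
    rw [h1, Real.sin_two_mul, Real.tan_eq_sin_div_cos, div_eq_iff (by positivity)]
    have h3 : (4 : ℝ) / r = 2 * (Real.sqrt (2 / r) * Real.sqrt (2 / r)) := by rw [hsq]; ring
    rw [h3]
    field_simp
  · rw [if_neg h, if_neg h]; simp

theorem sum_sm_nu (r a : ℕ) (ha : 0 < a) (har : a < r) :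
    ∑ b ∈ range r, sm r a b * (-1 : ℝ) ^ (b + 1) = wv r a := by
  have h := sum_alt_sin r a ha har
  have h1 : ∀ b ∈ range r, sm r a b * (-1 : ℝ) ^ (b + 1) =
      -Real.sqrt (2 / r) * ((-1 : ℝ) ^ b * Real.sin (Real.pi * (a * b / r))) := by
    intro b _; unfold sm; ring
  rw [Finset.sum_congr rfl h1, ← Finset.mul_sum, h]
  unfold wv
  split_ifs <;> ring

theorem sum_sm_wv (r u : ℕ) (hu : 0 < u) (hur : u < r) :
    ∑ v ∈ Icc 1 (r - 1), sm r v u * wv r v = (-1 : ℝ) ^ (u + 1) := by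
  have hr : 0 < r := by omega
  have hr' : (r : ℝ) ≠ 0 := by exact_mod_cast hr.ne'
  have h1 : ∀ v ∈ Icc 1 (r - 1), sm r v u * wv r v =
      ∑ b ∈ range r, (-1 : ℝ) ^ (b + 1) * (sm r v u * sm r v b) := by
    intro v hv
    rw [mem_Icc] at hv
    rw [← sum_sm_nu r v (by omega) (by omega), Finset.mul_sum]
    refine Finset.sum_congr rfl fun b _ => by ring
  rw [Finset.sum_congr rfl h1, Finset.sum_comm]
  have h2 : ∀ b ∈ range r, ∑ v ∈ Icc 1 (r - 1), (-1 : ℝ) ^ (b + 1) * (sm r v u * sm r v b) =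
      if b = u then (-1 : ℝ) ^ (u + 1) else 0 := by
    intro b hb
    rw [Finset.mem_range] at hb
    rw [← Finset.mul_sum, sum_Icc_eq_range (fun v => sm r v u * sm r v b) r hr (by simp [sm])]
    have h3 : ∀ v ∈ range r, sm r v u * sm r v b =
        2 / r * (Real.sin (Real.pi * (u * v / r)) * Real.sin (Real.pi * (v * b / r))) := by
      intro v _
      unfold sm
      have : Real.sqrt (2 / r) * Real.sqrt (2 / r) = 2 / r := Real.mul_self_sqrt (by positivity)
      rw [mul_comm (v : ℝ) u]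
      linear_combination (Real.sin (Real.pi * (u * v / r)) * Real.sin (Real.pi * (v * b / r))) * this
    rw [Finset.sum_congr rfl h3, ← Finset.mul_sum]
    rcases Nat.eq_zero_or_pos b with h0 | h0
    · subst h0
      rw [if_neg (by omega)]
      simp
    · rw [sum_sin_sin r u b hu hur h0 hb]
      by_cases hub : u = b
      · subst hub
        rw [if_pos rfl, if_pos rfl]; field_simp
      · rw [if_neg hub, if_neg (fun h => hub h.symm)]; ring
  rw [Finset.sum_congr rfl h2, Finset.sum_ite_eq' (range r) u, if_pos (Finset.mem_range.mpr hur)]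

/-- The closed formula. -/
theorem wrt_hw (r : ℕ) (hr : 2 ≤ r) :
    hwTree.wrt r = (((-1 : ℝ) ^ r * (Real.sqrt (2 / r) *
      ∑ u ∈ (Icc 1 (r - 1)).filter (fun u => Odd (u + r)), Real.tan (Real.pi * (u / (2 * r)))) : ℝ) : ℂ) := by
  rw [wrt_hw_eq r hr]
  have h1 : ∀ u ∈ Icc 1 (r - 1), ∑ v ∈ Icc 1 (r - 1),
      ((sm r v u : ℝ) : ℂ) * (leaf r 2 u * leaf r (-2) u / (sm r 1 u : ℝ)) *
        (leaf r 2 v * leaf r (-2) v / (sm r 1 v : ℝ)) = (((-1 : ℝ) ^ (u + 1) * wv r u : ℝ) : ℂ) := by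
    intro u hu
    rw [mem_Icc] at hu
    rw [← sum_sm_wv r u (by omega) (by omega)]
    push_cast
    rw [Finset.sum_mul]
    refine Finset.sum_congr rfl fun v hv => ?_
    rw [mem_Icc] at hv
    rw [leaf_div r u (by omega) (by omega), leaf_div r v (by omega) (by omega)]
    ring
  rw [Finset.sum_congr rfl h1, ← Complex.ofReal_sum]
  congr 1
  rw [Finset.sum_filter, Finset.mul_sum, Finset.mul_sum]
  refine Finset.sum_congr rfl fun u _ => ?_
  unfold wv
  by_cases h : Odd (u + r)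
  · rw [if_pos h, if_pos h]
    have h2 : (-1 : ℝ) ^ (u + 1) = (-1) ^ r := by
      have h3 : (-1 : ℝ) ^ (u + r) = -1 := h.neg_one_pow
      rw [pow_add] at h3
      have h4 : (-1 : ℝ) ^ r * (-1) ^ r = 1 := by rw [← mul_pow]; norm_num
      rw [pow_succ]
      linear_combination (-(-1 : ℝ) ^ r) * h3 + (-1 : ℝ) ^ u * h4
    rw [h2]
  · rw [if_neg h, if_neg h]; ring

end H524R3
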