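import Mathlib

/-!
# Sequences of size between n^s and n^s log n are not finite sums of b * n^e * z^n
-/

set_option autoImplicit false

open Filter Topology Finset

namespace H524R3

/-- A trigonometric polynomial in n which tends to zero vanishes identically. -/
theorem expSum_eq_zero {ι : Type*} (s : Finset ι) (z : ι → ℂ) (hz : ∀ i ∈ s, ‖z i‖ = 1) :
    ∀ β : ι → ℂ, Tendsto (fun n : ℕ => ∑ i ∈ s, β i * z i ^ n) atTop (𝓝 0) →
      ∀ n : ℕ, ∑ i ∈ s, β i * z i ^ n = 0 := by
  classical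
  induction s using Finset.induction_on with
  | empty => intro β _ n; simp
  | insert a s ha ih =>
    intro β h
    have hz' : ∀ i ∈ s, ‖z i‖ = 1 := fun i hi => hz i (Finset.mem_insert_of_mem hi)
    have hza : ‖z a‖ = 1 := hz a (Finset.mem_insert_self a s)
    set P : ℕ → ℂ := fun n => ∑ i ∈ insert a s, β i * z i ^ n with hP
    have hQ : Tendsto (fun n : ℕ => P (n + 1) - z a * P n) atTop (𝓝 0) := by
      have h1 : Tendsto (fun n : ℕ => P (n + 1)) atTop (𝓝 0) := h.comp (tendsto_add_atTop_nat 1)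
      have h2 : Tendsto (fun n : ℕ => z a * P n) atTop (𝓝 (z a * 0)) := h.const_mul _
      simpa using h1.sub h2
    have hQ' : ∀ n : ℕ, P (n + 1) - z a * P n = ∑ i ∈ s, (β i * (z i - z a)) * z i ^ n := by
      intro n
      simp only [hP, Finset.sum_insert ha, mul_add, Finset.mul_sum]
      rw [add_sub_add_comm, ← Finset.sum_sub_distrib]
      have : β a * z a ^ (n + 1) - z a * (β a * z a ^ n) = 0 := by ring
      rw [this, zero_add]
      refine Finset.sum_congr rfl fun i _ => ?_
      ring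
    have hQ0 := ih hz' (fun i => β i * (z i - z a)) (by
      refine hQ.congr fun n => ?_
      exact hQ' n)
    have hstep : ∀ n : ℕ, P (n + 1) = z a * P n := by
      intro n
      have := hQ' n
      rw [hQ0 n] at this
      exact sub_eq_zero.mp this
    have hnorm : ∀ n : ℕ, ‖P n‖ = ‖P 0‖ := by
      intro n
      induction n with
      | zero => rfl
      | succ n ihn => rw [hstep, norm_mul, hza, one_mul, ihn]
    have h0 : ‖P 0‖ = 0 := by
      have h1 : Tendsto (fun n : ℕ => ‖P n‖) atTop (𝓝 ‖(0 : ℂ)‖) := h.norm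
      have h2 : Tendsto (fun n : ℕ => ‖P n‖) atTop (𝓝 ‖P 0‖) := by
        simp only [hnorm]; exact tendsto_const_nhds
      have := tendsto_nhds_unique h1 h2
      simpa using this.symm
    intro n
    have : ‖P n‖ = 0 := by rw [hnorm, h0]
    exact norm_eq_zero.mp this

/-- If n^e P(n) is bounded by finitely many functions which are o(n^e), P tends to zero. -/
theorem log_bound_little_o (s e : ℝ) (h : s < e) :
    Tendsto (fun n : ℕ => (n : ℝ) ^ s * (1 + Real.log n) / (n : ℝ) ^ e) atTop (𝓝 0) := by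
  have hpos : 0 < e - s := by linarith
  have h1 : Tendsto (fun n : ℕ => ((n : ℝ) ^ (e - s))⁻¹) atTop (𝓝 0) := by
    have : Tendsto (fun x : ℝ => (x ^ (e - s))⁻¹) atTop (𝓝 0) :=
      (tendsto_rpow_atTop hpos).inv_tendsto_atTop
    exact this.comp tendsto_natCast_atTop_atTop
  have h2 : Tendsto (fun n : ℕ => Real.log n / (n : ℝ) ^ (e - s)) atTop (𝓝 0) := by
    have : Tendsto (fun x : ℝ => Real.log x / x ^ (e - s)) atTop (𝓝 0) :=
      (isLittleO_log_rpow_atTop hpos).tendsto_div_nhds_zero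
    exact this.comp tendsto_natCast_atTop_atTop
  have h3 := h1.add h2
  rw [add_zero] at h3
  refine h3.congr' ?_
  filter_upwards [eventually_ge_atTop 1] with n hn
  have hn' : (0 : ℝ) < n := by exact_mod_cast hn
  rw [Real.rpow_sub hn']
  have := (Real.rpow_pos_of_pos hn' e).ne'
  have := (Real.rpow_pos_of_pos hn' s).ne'
  field_simp

theorem rpow_little_o (s e : ℝ) (h : s < e) :
    Tendsto (fun n : ℕ => (n : ℝ) ^ s / (n : ℝ) ^ e) atTop (𝓝 0) := by
  have hpos : 0 < e - s := by linarith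
  have h1 : Tendsto (fun n : ℕ => ((n : ℝ) ^ (e - s))⁻¹) atTop (𝓝 0) := by
    have : Tendsto (fun x : ℝ => (x ^ (e - s))⁻¹) atTop (𝓝 0) :=
      (tendsto_rpow_atTop hpos).inv_tendsto_atTop
    exact this.comp tendsto_natCast_atTop_atTop
  refine h1.congr' ?_
  filter_upwards [eventually_ge_atTop 1] with n hn
  have hn' : (0 : ℝ) < n := by exact_mod_cast hn
  rw [Real.rpow_sub hn']
  have := (Real.rpow_pos_of_pos hn' e).ne'
  have := (Real.rpow_pos_of_pos hn' s).ne'
  field_simp

/-- A sequence which is O(n^s log n) and differs by O(n^s) from a finite sum of terms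
b * n^e * z^n (with |z| = 1 and arbitrary real exponents e) is O(n^s). -/
theorem bounded_of_expansion (s : ℝ) (F : ℕ → ℂ) (C : ℝ)
    (hF : ∀ᶠ n : ℕ in atTop, ‖F n‖ ≤ C * ((n : ℝ) ^ s * (1 + Real.log n)))
    {ι : Type*} (β z : ι → ℂ) (e : ι → ℝ) (hz : ∀ i, ‖z i‖ = 1) :
    ∀ (N : ℕ) (T : Finset ι), T.card ≤ N →
      (∃ C' : ℝ, ∀ᶠ n : ℕ in atTop,
        ‖F n - ∑ i ∈ T, β i * (((n : ℝ) ^ e i : ℝ) : ℂ) * z i ^ n‖ ≤ C' * (n : ℝ) ^ s) →
      ∃ C'' : ℝ, ∀ᶠ n : ℕ in atTop, ‖F n‖ ≤ C'' * (n : ℝ) ^ s := by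
  classical
  intro N
  induction N with
  | zero =>
    intro T hT h
    have hT' : T = ∅ := Finset.card_eq_zero.mp (Nat.le_zero.mp hT)
    subst hT'
    simpa using h
  | succ N ih =>
    intro T hT h
    by_cases hall : ∀ i ∈ T, e i ≤ s
    · obtain ⟨C', hC'⟩ := h
      refine ⟨C' + ∑ i ∈ T, ‖β i‖, ?_⟩
      filter_upwards [hC', eventually_ge_atTop 1] with n hn hn1
      have hn' : (1 : ℝ) ≤ n := by exact_mod_cast hn1
      have h1 : ‖F n‖ ≤ ‖F n - ∑ i ∈ T, β i * (((n : ℝ) ^ e i : ℝ) : ℂ) * z i ^ n‖ +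
          ‖∑ i ∈ T, β i * (((n : ℝ) ^ e i : ℝ) : ℂ) * z i ^ n‖ := by
        have := norm_add_le (F n - ∑ i ∈ T, β i * (((n : ℝ) ^ e i : ℝ) : ℂ) * z i ^ n)
          (∑ i ∈ T, β i * (((n : ℝ) ^ e i : ℝ) : ℂ) * z i ^ n)
        simpa using this
      have h2 : ‖∑ i ∈ T, β i * (((n : ℝ) ^ e i : ℝ) : ℂ) * z i ^ n‖ ≤
          (∑ i ∈ T, ‖β i‖) * (n : ℝ) ^ s := by
        rw [Finset.sum_mul]
        refine (norm_sum_le _ _).trans (Finset.sum_le_sum fun i hi => ?_)
        rw [norm_mul, norm_mul, norm_pow, hz, one_pow, mul_one, Complex.norm_real, Real.norm_eq_abs,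
          abs_of_nonneg (Real.rpow_nonneg (by linarith) _)]
        exact mul_le_mul_of_nonneg_left
          (Real.rpow_le_rpow_of_exponent_le hn' (hall i hi)) (norm_nonneg _)
      linarith [h1, h2, hn, add_mul C' (∑ i ∈ T, ‖β i‖) ((n : ℝ) ^ s)]
    · push Not at hall
      obtain ⟨i0, hi0, hi0s⟩ := hall
      obtain ⟨i1, hi1, hmax⟩ := Finset.exists_max_image T e ⟨i0, hi0⟩
      have he : s < e i1 := lt_of_lt_of_le hi0s (hmax i0 hi0)
      set T1 := T.filter (fun i => e i = e i1) with hT1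
      set T2 := T.filter (fun i => ¬ e i = e i1) with hT2
      have hsplit : ∀ n : ℕ, ∑ i ∈ T, β i * (((n : ℝ) ^ e i : ℝ) : ℂ) * z i ^ n =
          (((n : ℝ) ^ e i1 : ℝ) : ℂ) * ∑ i ∈ T1, β i * z i ^ n +
            ∑ i ∈ T2, β i * (((n : ℝ) ^ e i : ℝ) : ℂ) * z i ^ n := by
        intro n
        rw [← Finset.sum_filter_add_sum_filter_not T (fun i => e i = e i1), Finset.mul_sum]
        congr 1
        refine Finset.sum_congr rfl fun i hi => ?_
        rw [(Finset.mem_filter.mp hi).2]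
        ring
      obtain ⟨C', hC'⟩ := h
      have hlim : Tendsto (fun n : ℕ => ∑ i ∈ T1, β i * z i ^ n) atTop (𝓝 0) := by
        have hb1 := (log_bound_little_o s (e i1) he).const_mul C
        have hb2 := (rpow_little_o s (e i1) he).const_mul C'
        have hb3 : Tendsto (fun n : ℕ => ∑ i ∈ T2, ‖β i‖ * ((n : ℝ) ^ e i / (n : ℝ) ^ e i1)) atTop
            (𝓝 (∑ i ∈ T2, ‖β i‖ * 0)) := by
          refine tendsto_finsetSum T2 fun i hi => ?_
          have hi' := Finset.mem_filter.mp hi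
          exact (rpow_little_o (e i) (e i1) (lt_of_le_of_ne (hmax i hi'.1) hi'.2)).const_mul _
        have hb := (hb1.add hb2).add hb3
        simp only [mul_zero, Finset.sum_const_zero, add_zero] at hb
        refine squeeze_zero_norm' ?_ hb
        filter_upwards [hF, hC', eventually_ge_atTop 1] with n h1 h2 hn1
        have hn' : (0 : ℝ) < n := by exact_mod_cast hn1
        have hp := Real.rpow_pos_of_pos hn' (e i1)
        have h3 : ‖(((n : ℝ) ^ e i1 : ℝ) : ℂ) * ∑ i ∈ T1, β i * z i ^ n‖ ≤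
            C * ((n : ℝ) ^ s * (1 + Real.log n)) + C' * (n : ℝ) ^ s +
              ∑ i ∈ T2, ‖β i‖ * (n : ℝ) ^ e i := by
          have h4 : (((n : ℝ) ^ e i1 : ℝ) : ℂ) * ∑ i ∈ T1, β i * z i ^ n =
              F n - (F n - ∑ i ∈ T, β i * (((n : ℝ) ^ e i : ℝ) : ℂ) * z i ^ n) -
                ∑ i ∈ T2, β i * (((n : ℝ) ^ e i : ℝ) : ℂ) * z i ^ n := by
            rw [hsplit n]; ring
          rw [h4]
          refine (norm_sub_le _ _).trans ?_
          refine add_le_add ((norm_sub_le _ _).trans (add_le_add h1 h2)) ?_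
          refine (norm_sum_le _ _).trans (Finset.sum_le_sum fun i _ => ?_)
          rw [norm_mul, norm_mul, norm_pow, hz, one_pow, mul_one, Complex.norm_real,
            Real.norm_eq_abs, abs_of_nonneg (Real.rpow_nonneg hn'.le _)]
        rw [norm_mul, Complex.norm_real, Real.norm_eq_abs, abs_of_pos hp, mul_comm] at h3
        have h5 := (le_div_iff₀ hp).mpr h3
        refine h5.trans (le_of_eq ?_)
        rw [add_div, add_div, Finset.sum_div]
        congr 1
        · congr 1
          · rw [mul_div_assoc]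
          · rw [mul_div_assoc]
        · refine Finset.sum_congr rfl fun i _ => ?_
          rw [mul_div_assoc]
      have hzero := expSum_eq_zero T1 z (fun i _ => hz i) β hlim
      have hcard : T2.card ≤ N := by
        have h1 : T2 ⊂ T := by
          refine Finset.filter_ssubset.mpr ⟨i1, hi1, by simp⟩
        have := Finset.card_lt_card h1
        omega
      refine ih T2 hcard ⟨C', ?_⟩
      filter_upwards [hC'] with n hn
      rw [hsplit n, hzero n, mul_zero, zero_add] at hn
      exact hn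

end H524R3
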