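import Mathlib
import Pool.Agent.H524R3.Closed
import Pool.Agent.H524R3.NoExp

/-!
# Growth of the SU(2) invariants of the Hantzsche-Wendt manifold
-/

set_option autoImplicit false

open Finset Filter Topology

namespace H524R3

/-- The sum of tangents. -/
noncomputable def tsum' (r : ℕ) : ℝ :=
  ∑ u ∈ (Icc 1 (r - 1)).filter (fun u => Odd (u + r)), Real.tan (Real.pi * (u / (2 * r)))

theorem tsum_eq (r : ℕ) (hr : 2 ≤ r) :
    tsum' r = ∑ j ∈ range (r / 2), (Real.tan (Real.pi * ((2 * j + 1) / (2 * r))))⁻¹ := by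
  unfold tsum'
  symm
  refine Finset.sum_nbij' (fun j => r - (2 * j + 1)) (fun u => (r - u) / 2) ?_ ?_ ?_ ?_ ?_
  · intro j hj
    rw [Finset.mem_range] at hj
    rw [Finset.mem_filter, Finset.mem_Icc]
    refine ⟨⟨by omega, by omega⟩, ⟨r - j - 1, by omega⟩⟩
  · intro u hu
    rw [Finset.mem_filter, Finset.mem_Icc] at hu
    rw [Finset.mem_range]
    obtain ⟨⟨h1, h2⟩, ⟨k, hk⟩⟩ := hu
    omega
  · intro j hj
    rw [Finset.mem_range] at hj
    show (r - (r - (2 * j + 1))) / 2 = j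
    omega
  · intro u hu
    rw [Finset.mem_filter, Finset.mem_Icc] at hu
    obtain ⟨⟨h1, h2⟩, ⟨k, hk⟩⟩ := hu
    show r - (2 * ((r - u) / 2) + 1) = u
    omega
  · intro j hj
    rw [Finset.mem_range] at hj
    have hle : 2 * j + 1 ≤ r := by omega
    have hr' : (r : ℝ) ≠ 0 := by
      have : 0 < r := by omega
      exact_mod_cast this.ne'
    rw [← Real.tan_pi_div_two_sub]
    congr 1
    rw [Nat.cast_sub hle]
    push_cast
    field_simp

theorem inv_tan_le (x : ℝ) (h0 : 0 < x) (h1 : x < Real.pi / 2) : (Real.tan x)⁻¹ ≤ 1 / x := by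
  rw [one_div]
  exact inv_anti₀ h0 (Real.lt_tan h0 h1).le

theorem le_inv_tan (x : ℝ) (h0 : 0 < x) (h1 : x < Real.pi / 2) : 1 / x - x / 2 ≤ (Real.tan x)⁻¹ := by
  have hs : 0 < Real.sin x := Real.sin_pos_of_pos_of_lt_pi h0 (by linarith [Real.pi_pos])
  have hc : 0 < Real.cos x := Real.cos_pos_of_mem_Ioo ⟨by linarith, h1⟩
  rw [Real.tan_eq_sin_div_cos, inv_div]
  have h2 : Real.cos x / x ≤ Real.cos x / Real.sin x :=
    div_le_div_of_nonneg_left hc.le hs (Real.sin_le h0.le)
  have h3 : 1 - x ^ 2 / 2 ≤ Real.cos x := Real.one_sub_sq_div_two_le_cos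
  have h4 : (1 - x ^ 2 / 2) / x ≤ Real.cos x / x := div_le_div_of_nonneg_right h3 h0.le
  have h5 : (1 - x ^ 2 / 2) / x = 1 / x - x / 2 := by field_simp
  linarith

theorem sum_odd_ge (n : ℕ) : Real.log (n + 1) / 2 ≤ ∑ j ∈ range n, 1 / (2 * (j : ℝ) + 1) := by
  have h1 := log_add_one_le_harmonic n
  have h2 : ((harmonic n : ℚ) : ℝ) = ∑ j ∈ range n, 1 / ((j : ℝ) + 1) := by
    unfold harmonic; push_cast; simp
  rw [h2] at h1
  have h3 : (∑ j ∈ range n, 1 / ((j : ℝ) + 1)) / 2 ≤ ∑ j ∈ range n, 1 / (2 * (j : ℝ) + 1) := by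
    rw [Finset.sum_div]
    refine Finset.sum_le_sum fun j _ => ?_
    rw [div_div]
    apply div_le_div_of_nonneg_left (by norm_num) (by positivity)
    linarith
  have h4 : Real.log (n + 1) = Real.log (((n + 1 : ℕ) : ℝ)) := by push_cast; rfl
  rw [h4]
  linarith

theorem sum_odd_le (n : ℕ) : ∑ j ∈ range n, 1 / (2 * (j : ℝ) + 1) ≤ 1 + Real.log n := by
  have h1 := harmonic_le_one_add_log n
  have h2 : ((harmonic n : ℚ) : ℝ) = ∑ j ∈ range n, 1 / ((j : ℝ) + 1) := by
    unfold harmonic; push_cast; simp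
  rw [h2] at h1
  refine le_trans (Finset.sum_le_sum fun j _ => ?_) h1
  apply div_le_div_of_nonneg_left (by norm_num) (by positivity)
  have : (0 : ℝ) ≤ j := Nat.cast_nonneg j
  linarith

theorem tsum_bounds (r : ℕ) (hr : 2 ≤ r) :
    r / Real.pi * Real.log (r / 2) - r ≤ tsum' r ∧ tsum' r ≤ r * (1 + Real.log r) := by
  have hr' : (2 : ℝ) ≤ r := by exact_mod_cast hr
  have hpi := Real.pi_pos
  have hx : ∀ j ∈ range (r / 2), 0 < Real.pi * ((2 * (j : ℝ) + 1) / (2 * r)) ∧
      Real.pi * ((2 * (j : ℝ) + 1) / (2 * r)) < Real.pi / 2 := by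
    intro j hj
    rw [Finset.mem_range] at hj
    have h1 : 2 * j + 1 < r := by omega
    have h2 : 2 * (j : ℝ) + 1 < r := by exact_mod_cast h1
    constructor
    · positivity
    · have : (2 * (j : ℝ) + 1) / (2 * r) < 1 / 2 := by
        rw [div_lt_div_iff₀ (by positivity) (by norm_num)]; linarith
      nlinarith
  rw [tsum_eq r hr]
  constructor
  · have h1 : ∑ j ∈ range (r / 2), (2 * r / Real.pi * (1 / (2 * (j : ℝ) + 1)) - 1) ≤
        ∑ j ∈ range (r / 2), (Real.tan (Real.pi * ((2 * j + 1) / (2 * r))))⁻¹ := by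
      refine Finset.sum_le_sum fun j hj => ?_
      obtain ⟨h1, h2⟩ := hx j hj
      refine le_trans ?_ (le_inv_tan _ h1 h2)
      have h3 : 1 / (Real.pi * ((2 * (j : ℝ) + 1) / (2 * r))) =
          2 * r / Real.pi * (1 / (2 * (j : ℝ) + 1)) := by
        field_simp
      rw [h3]
      have h4 : Real.pi * ((2 * (j : ℝ) + 1) / (2 * r)) / 2 ≤ 1 := by
        linarith [Real.pi_lt_four]
      linarith
    refine le_trans ?_ h1
    rw [Finset.sum_sub_distrib, ← Finset.mul_sum]
    simp only [Finset.sum_const, Finset.card_range, nsmul_eq_mul, mul_one]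
    have h2 := sum_odd_ge (r / 2)
    have h3 : ((r / 2 : ℕ) : ℝ) ≤ r := by
      have : r / 2 ≤ r := Nat.div_le_self r 2
      exact_mod_cast this
    have h4 : Real.log (r / 2) ≤ Real.log (((r / 2 : ℕ) : ℝ) + 1) := by
      apply Real.log_le_log (by linarith)
      have : r < 2 * (r / 2 + 1) := by omega
      have h5 : (r : ℝ) < 2 * (((r / 2 : ℕ) : ℝ) + 1) := by exact_mod_cast this
      linarith
    have h5 : r / Real.pi * Real.log (r / 2) ≤
        2 * r / Real.pi * ∑ j ∈ range (r / 2), 1 / (2 * (j : ℝ) + 1) := by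
      have h6 : r / Real.pi * Real.log (r / 2) = 2 * r / Real.pi * (Real.log (r / 2) / 2) := by ring
      rw [h6]
      apply mul_le_mul_of_nonneg_left _ (by positivity)
      linarith
    linarith
  · have h1 : ∑ j ∈ range (r / 2), (Real.tan (Real.pi * ((2 * j + 1) / (2 * r))))⁻¹ ≤
        ∑ j ∈ range (r / 2), 2 * r / Real.pi * (1 / (2 * (j : ℝ) + 1)) := by
      refine Finset.sum_le_sum fun j hj => ?_
      obtain ⟨h1, h2⟩ := hx j hj
      refine (inv_tan_le _ h1 h2).trans (le_of_eq ?_)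
      field_simp
    refine h1.trans ?_
    rw [← Finset.mul_sum]
    have h2 := sum_odd_le (r / 2)
    have h3 : Real.log ((r / 2 : ℕ) : ℝ) ≤ Real.log r := by
      apply Real.log_le_log
      · have : 0 < r / 2 := by omega
        exact_mod_cast this
      · have : r / 2 ≤ r := Nat.div_le_self r 2
        exact_mod_cast this
    have h4 : 0 ≤ Real.log r := Real.log_nonneg (by linarith)
    have h5 : 2 * r / Real.pi ≤ (r : ℝ) := by
      rw [div_le_iff₀ hpi]
      nlinarith [Real.pi_gt_three]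
    calc 2 * r / Real.pi * ∑ j ∈ range (r / 2), 1 / (2 * (j : ℝ) + 1)
        ≤ 2 * r / Real.pi * (1 + Real.log r) := by
          apply mul_le_mul_of_nonneg_left _ (by positivity); linarith
      _ ≤ r * (1 + Real.log r) := by
          apply mul_le_mul_of_nonneg_right h5; linarith

theorem norm_wrt (r : ℕ) (hr : 2 ≤ r) : ‖hwTree.wrt r‖ = Real.sqrt (2 / r) * tsum' r := by
  rw [wrt_hw r hr, Complex.norm_real, Real.norm_eq_abs, abs_mul, abs_pow, abs_neg, abs_one, one_pow,
    one_mul, abs_of_nonneg]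
  · rfl
  · refine mul_nonneg (Real.sqrt_nonneg _) (Finset.sum_nonneg fun u hu => ?_)
    rw [Finset.mem_filter, Finset.mem_Icc] at hu
    have h1 : (u : ℝ) < r := by
      have : u < r := by omega
      exact_mod_cast this
    have h0 : (0 : ℝ) ≤ u := Nat.cast_nonneg u
    have hr' : (0 : ℝ) < r := by linarith
    have hpi := Real.pi_pos
    apply Real.tan_nonneg_of_nonneg_of_le_pi_div_two
    · positivity
    · have : (u : ℝ) / (2 * r) ≤ 1 / 2 := by
        rw [div_le_div_iff₀ (by positivity) (by norm_num)]; linarith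
      nlinarith

/-- |Z| = O(√r log r). -/
theorem norm_wrt_le (r : ℕ) (hr : 2 ≤ r) :
    ‖hwTree.wrt r‖ ≤ Real.sqrt 2 * ((r : ℝ) ^ (1 / 2 : ℝ) * (1 + Real.log r)) := by
  have hr' : (2 : ℝ) ≤ r := by exact_mod_cast hr
  rw [norm_wrt r hr, ← Real.sqrt_eq_rpow]
  have h1 := (tsum_bounds r hr).2
  have h2 : Real.sqrt (2 / r) * (r * (1 + Real.log r)) =
      Real.sqrt 2 * (Real.sqrt r * (1 + Real.log r)) := by
    rw [Real.sqrt_div (by norm_num)]
    have h3 : Real.sqrt r * Real.sqrt r = r := Real.mul_self_sqrt (by linarith)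
    have h4 : 0 < Real.sqrt r := Real.sqrt_pos.mpr (by linarith)
    rw [div_mul_eq_mul_div, div_eq_iff h4.ne']
    linear_combination (-(Real.sqrt 2 * (1 + Real.log r))) * h3
  calc Real.sqrt (2 / r) * tsum' r ≤ Real.sqrt (2 / r) * (r * (1 + Real.log r)) :=
        mul_le_mul_of_nonneg_left h1 (Real.sqrt_nonneg _)
    _ = _ := h2

/-- |Z| / √r → ∞. -/
theorem norm_wrt_tendsto :
    Tendsto (fun r : ℕ => ‖hwTree.wrt r‖ / (r : ℝ) ^ (1 / 2 : ℝ)) atTop atTop := by
  have h1 : Tendsto (fun r : ℕ => Real.sqrt 2 / Real.pi * Real.log ((r : ℝ) / 2) - Real.sqrt 2)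
      atTop atTop := by
    have h2 : Tendsto (fun r : ℕ => (r : ℝ) / 2) atTop atTop :=
      tendsto_natCast_atTop_atTop.atTop_div_const (by norm_num)
    have h3 := Real.tendsto_log_atTop.comp h2
    have h4 : 0 < Real.sqrt 2 / Real.pi := by positivity
    exact tendsto_atTop_add_const_right _ _ (h3.const_mul_atTop h4)
  refine tendsto_atTop_mono' _ ?_ h1
  filter_upwards [eventually_ge_atTop 2] with r hr
  have hr' : (2 : ℝ) ≤ r := by exact_mod_cast hr
  have hs : 0 < Real.sqrt r := Real.sqrt_pos.mpr (by linarith)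
  rw [norm_wrt r hr, ← Real.sqrt_eq_rpow, le_div_iff₀ hs]
  have h2 := (tsum_bounds r hr).1
  have h3 : Real.sqrt (2 / r) * (r / Real.pi * Real.log (r / 2) - r) =
      (Real.sqrt 2 / Real.pi * Real.log ((r : ℝ) / 2) - Real.sqrt 2) * Real.sqrt r := by
    rw [Real.sqrt_div (by norm_num)]
    have h3 : Real.sqrt r * Real.sqrt r = r := Real.mul_self_sqrt (by linarith)
    have hpi := Real.pi_pos
    field_simp
    linear_combination (-(Real.log (r / 2) - Real.pi)) * h3
  rw [← h3]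
  exact mul_le_mul_of_nonneg_left h2 (Real.sqrt_nonneg _)

end H524R3
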