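import Mathlib

/-!
# Asymptotic expansions in powers of r^(1/2) with oscillating phases
-/

set_option autoImplicit false

open Finset

namespace H524R3

/-- The sequence Z k (k = 0, 1, 2, ...) has an asymptotic expansion, with r = k + h, of the form
Z k = ∑_j exp (2 π i r c_j) r^(d_j) b_j (1 + ∑_{l=1}^L a_{j,l} r^(-l/2)) + O (r^(d - (L+1)/2)) for
every L ≥ 0, where j runs over 0, ..., m, the phases c_j and the exponents d_j are real, b_j and a_{j,l}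
are complex and d is the maximum of the d_j. -/
def HasExpansion (h : ℕ) (Z : ℕ → ℂ) : Prop :=
  ∃ (m : ℕ) (c d : Fin (m + 1) → ℝ) (b : Fin (m + 1) → ℂ) (a : Fin (m + 1) → ℕ → ℂ),
    ∀ L : ℕ, ∃ (C : ℝ) (k₀ : ℕ), ∀ k : ℕ, k₀ ≤ k →
      ‖Z k - ∑ j, Complex.exp (2 * Real.pi * Complex.I * ((k + h : ℕ) * (c j : ℂ))) *
          ((((k + h : ℕ) : ℝ) ^ d j : ℝ) : ℂ) * b j *
            (1 + ∑ l ∈ Icc 1 L, a j l * ((((k + h : ℕ) : ℝ) ^ (-(l : ℝ) / 2) : ℝ) : ℂ))‖ ≤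
        C * ((k + h : ℕ) : ℝ) ^ (univ.sup' univ_nonempty d - ((L : ℝ) + 1) / 2)

end H524R3
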