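import Mathlib
import Pool.Agent.H524R3.Defs

/-!
# Flat SU(2)-connections on plumbed 3-manifolds and their cohomology
-/

set_option autoImplicit false

open Matrix

namespace H524R3

namespace PlumbingTree

variable {m : ℕ} (Γ : PlumbingTree m)

/-- The vertices v and w are joined by an edge. -/
def Adj (v w : Fin (m + 1)) : Prop :=
  ∃ i : Fin m, (i.succ = v ∧ Γ.parent i = w) ∨ (i.succ = w ∧ Γ.parent i = v)

instance (v w : Fin (m + 1)) : Decidable (Γ.Adj v w) := by unfold Adj; infer_instance

/-- The relations of the fundamental group of the 3-manifold obtained by surgery on the plumbing link of Γ, on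
the meridians of the components: the meridians of adjacent vertices commute, and the surgery curve of v,
(meridian of v)^(framing v) times the product of the meridians of the neighbours of v (the longitude of the
component v), is trivial. -/
def relations : Set (FreeGroup (Fin (m + 1))) :=
  {x | ∃ v w, Γ.Adj v w ∧ x = FreeGroup.of v * FreeGroup.of w * (FreeGroup.of v)⁻¹ * (FreeGroup.of w)⁻¹} ∪
  {x | ∃ v, x = FreeGroup.of v ^ Γ.framing v *
    (((List.finRange (m + 1)).filter fun w => Γ.Adj v w).map FreeGroup.of).prod}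

/-- The fundamental group of the closed 3-manifold obtained by surgery on the plumbing link of Γ. -/
abbrev PiOne : Type := PresentedGroup Γ.relations

end PlumbingTree

/-- The group SU(2). -/
abbrev SUtwo : Type := Matrix.specialUnitaryGroup (Fin 2) ℂ

/-- The Lie algebra su(2): the traceless skew-Hermitian 2 x 2 matrices, a real vector space. -/
def suLie : Submodule ℝ (Matrix (Fin 2) (Fin 2) ℂ) where
  carrier := {X | X.conjTranspose = -X ∧ X.trace = 0}
  add_mem' := by
    rintro X Y ⟨h1, h2⟩ ⟨h3, h4⟩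
    refine ⟨?_, ?_⟩
    · rw [Matrix.conjTranspose_add, h1, h3, neg_add]
    · rw [Matrix.trace_add, h2, h4, add_zero]
  zero_mem' := by simp
  smul_mem' := by
    rintro c X ⟨h1, h2⟩
    refine ⟨?_, ?_⟩
    · rw [Matrix.conjTranspose_smul, h1, smul_neg]; simp
    · rw [Matrix.trace_smul, h2, smul_zero]

/-- The adjoint action Ad(g) X = g X g⁻¹. -/
def adj (g : SUtwo) (X : Matrix (Fin 2) (Fin 2) ℂ) : Matrix (Fin 2) (Fin 2) ℂ := g.1 * X * (g⁻¹).1

theorem adj_add (g : SUtwo) (X Y : Matrix (Fin 2) (Fin 2) ℂ) : adj g (X + Y) = adj g X + adj g Y := by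
  unfold adj; rw [mul_add, add_mul]

theorem adj_smul (g : SUtwo) (c : ℝ) (X : Matrix (Fin 2) (Fin 2) ℂ) : adj g (c • X) = c • adj g X := by
  unfold adj; rw [Matrix.mul_smul, Matrix.smul_mul]

variable {π : Type*} [Group π]

/-- H^0(M; d_A) for the flat connection A with holonomy ρ: the elements of su(2) fixed by the adjoint
action of the fundamental group. -/
def spaceH0 (ρ : π →* SUtwo) : Submodule ℝ (Matrix (Fin 2) (Fin 2) ℂ) where
  carrier := {X | X ∈ suLie ∧ ∀ g, adj (ρ g) X = X}
  add_mem' := by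
    rintro X Y ⟨h1, h2⟩ ⟨h3, h4⟩
    exact ⟨suLie.add_mem h1 h3, fun g => by rw [adj_add, h2, h4]⟩
  zero_mem' := ⟨suLie.zero_mem, fun g => by simp [adj]⟩
  smul_mem' := by
    rintro c X ⟨h1, h2⟩
    exact ⟨suLie.smul_mem c h1, fun g => by rw [adj_smul, h2]⟩

/-- The 1-cocycles of the fundamental group with values in su(2), for the adjoint action. -/
def spaceZ1 (ρ : π →* SUtwo) : Submodule ℝ (π → Matrix (Fin 2) (Fin 2) ℂ) where
  carrier := {f | (∀ g, f g ∈ suLie) ∧ ∀ g h, f (g * h) = f g + adj (ρ g) (f h)}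
  add_mem' := by
    rintro f f' ⟨h1, h2⟩ ⟨h3, h4⟩
    refine ⟨fun g => suLie.add_mem (h1 g) (h3 g), fun g h => ?_⟩
    simp only [Pi.add_apply, h2 g h, h4 g h, adj_add]
    abel
  zero_mem' := ⟨fun g => suLie.zero_mem, fun g h => by simp [adj]⟩
  smul_mem' := by
    rintro c f ⟨h1, h2⟩
    refine ⟨fun g => suLie.smul_mem c (h1 g), fun g h => ?_⟩
    simp only [Pi.smul_apply, h2 g h, adj_smul, smul_add]

/-- The 1-coboundaries g ↦ Ad(ρ g) X - X. -/
def spaceB1 (ρ : π →* SUtwo) : Submodule ℝ (π → Matrix (Fin 2) (Fin 2) ℂ) where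
  carrier := {f | ∃ X ∈ suLie, ∀ g, f g = adj (ρ g) X - X}
  add_mem' := by
    rintro f f' ⟨X, h1, h2⟩ ⟨Y, h3, h4⟩
    refine ⟨X + Y, suLie.add_mem h1 h3, fun g => ?_⟩
    simp only [Pi.add_apply, h2 g, h4 g, adj_add]
    abel
  zero_mem' := ⟨0, suLie.zero_mem, fun g => by simp [adj]⟩
  smul_mem' := by
    rintro c f ⟨X, h1, h2⟩
    refine ⟨c • X, suLie.smul_mem c h1, fun g => ?_⟩
    simp only [Pi.smul_apply, h2 g, adj_smul, smul_sub]

/-- h^0 = dim H^0(M; d_A), the real dimension. -/
noncomputable def h0 (ρ : π →* SUtwo) : ℤ := Module.finrank ℝ (spaceH0 ρ)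

/-- h^1 = dim H^1(M; d_A), where H^1 is the first cohomology of the fundamental group with values in su(2):
the real dimension of the space of 1-cocycles minus that of the space of 1-coboundaries. -/
noncomputable def h1 (ρ : π →* SUtwo) : ℤ :=
  (Module.finrank ℝ (spaceZ1 ρ) : ℤ) - Module.finrank ℝ (spaceB1 ρ)

end H524R3
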