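import Mathlib
import Pool.Agent.H524R3.FlatDefs

/-!
# Linear algebra of su(2): h^1 - h^0 = dim Z^1 - 3
-/

set_option autoImplicit false

open Matrix

namespace H524R3

theorem suLie_entries {X : Matrix (Fin 2) (Fin 2) ℂ} (h : X ∈ suLie) :
    (X 0 0).re = 0 ∧ X 1 1 = -X 0 0 ∧ X 1 0 = -(starRingEnd ℂ) (X 0 1) := by
  obtain ⟨h1, h2⟩ := h
  have e00 := congrFun (congrFun h1 0) 0
  have e10 := congrFun (congrFun h1 1) 0
  rw [Matrix.conjTranspose_apply, Matrix.neg_apply] at e00 e10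
  rw [Matrix.trace_fin_two] at h2
  refine ⟨?_, ?_, ?_⟩
  · have := congrArg Complex.re e00
    simp at this
    linarith
  · linear_combination h2
  · have : star (X 0 1) = -X 1 0 := e10
    rw [← Complex.star_def, this]; simp

/-- su(2) is three dimensional. -/
noncomputable def suEquiv : suLie ≃ₗ[ℝ] ℝ × ℝ × ℝ where
  toFun X := ((X.1 0 0).im, (X.1 0 1).re, (X.1 0 1).im)
  map_add' X Y := by simp
  map_smul' c X := by simp
  invFun p := ⟨!![(p.1 : ℂ) * Complex.I, (p.2.1 : ℂ) + p.2.2 * Complex.I;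
      -(p.2.1 : ℂ) + p.2.2 * Complex.I, -((p.1 : ℂ) * Complex.I)], by
    constructor
    · ext i j
      fin_cases i <;> fin_cases j <;> simp <;> ring
    · simp [Matrix.trace_fin_two]⟩
  left_inv X := by
    obtain ⟨h1, h2, h3⟩ := suLie_entries X.2
    apply Subtype.ext
    ext i j
    fin_cases i <;> fin_cases j
    · show ((X.1 0 0).im : ℂ) * Complex.I = X.1 0 0
      apply Complex.ext <;> simp [h1]
    · show ((X.1 0 1).re : ℂ) + (X.1 0 1).im * Complex.I = X.1 0 1
      apply Complex.ext <;> simp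
    · show -((X.1 0 1).re : ℂ) + (X.1 0 1).im * Complex.I = X.1 1 0
      rw [h3]
      apply Complex.ext <;> simp
    · show -(((X.1 0 0).im : ℂ) * Complex.I) = X.1 1 1
      rw [h2]
      apply Complex.ext <;> simp [h1]
  right_inv p := by simp

theorem finrank_suLie : Module.finrank ℝ suLie = 3 := by
  rw [LinearEquiv.finrank_eq suEquiv]; simp

variable {π : Type*} [Group π]

/-- X ↦ (g ↦ Ad(ρ g) X - X) -/
noncomputable def cobd (ρ : π →* SUtwo) : suLie →ₗ[ℝ] (π → Matrix (Fin 2) (Fin 2) ℂ) where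
  toFun X := fun g => adj (ρ g) X.1 - X.1
  map_add' X Y := by
    funext g
    show adj (ρ g) (X.1 + Y.1) - (X.1 + Y.1) = (adj (ρ g) X.1 - X.1) + (adj (ρ g) Y.1 - Y.1)
    rw [adj_add]; abel
  map_smul' c X := by
    funext g
    show adj (ρ g) (c • X.1) - c • X.1 = c • (adj (ρ g) X.1 - X.1)
    rw [adj_smul, smul_sub]

theorem range_cobd (ρ : π →* SUtwo) : LinearMap.range (cobd ρ) = spaceB1 ρ := by
  ext f
  constructor
  · rintro ⟨X, rfl⟩
    exact ⟨X.1, X.2, fun g => rfl⟩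
  · rintro ⟨X, hX, h⟩
    exact ⟨⟨X, hX⟩, by funext g; exact (h g).symm⟩

theorem map_ker_cobd (ρ : π →* SUtwo) :
    (LinearMap.ker (cobd ρ)).map suLie.subtype = spaceH0 ρ := by
  ext X
  constructor
  · rintro ⟨Y, hY, rfl⟩
    refine ⟨Y.2, fun g => ?_⟩
    have := congrFun (LinearMap.mem_ker.mp hY) g
    exact sub_eq_zero.mp this
  · rintro ⟨h1, h2⟩
    refine ⟨⟨X, h1⟩, ?_, rfl⟩
    rw [SetLike.mem_coe, LinearMap.mem_ker]
    funext g
    show adj (ρ g) X - X = 0
    rw [h2 g, sub_self]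

instance : FiniteDimensional ℝ suLie := Module.Finite.equiv suEquiv.symm

theorem finrank_B1_add_H0 (ρ : π →* SUtwo) :
    Module.finrank ℝ (spaceB1 ρ) + Module.finrank ℝ (spaceH0 ρ) = 3 := by
  have h := LinearMap.finrank_range_add_finrank_ker (cobd ρ)
  rw [range_cobd, finrank_suLie] at h
  have h2 : Module.finrank ℝ ((LinearMap.ker (cobd ρ)).map suLie.subtype) =
      Module.finrank ℝ (LinearMap.ker (cobd ρ)) :=
    (LinearEquiv.finrank_eq (Submodule.equivMapOfInjective suLie.subtype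
      (Submodule.injective_subtype _) (LinearMap.ker (cobd ρ)))).symm
  rw [← map_ker_cobd, h2]
  exact h

theorem h1_sub_h0 (ρ : π →* SUtwo) : h1 ρ - h0 ρ = (Module.finrank ℝ (spaceZ1 ρ) : ℤ) - 3 := by
  have := finrank_B1_add_H0 ρ
  unfold h1 h0
  omega

end H524R3
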