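import Mathlib
import Pool.Agent.H524R3.FlatDefs
import Pool.Agent.H524R3.FlatLin

/-!
# The fundamental group of the Hantzsche-Wendt manifold
-/

set_option autoImplicit false

namespace H524R3

theorem nb0 : ((List.finRange 6).filter fun w => hwTree.Adj 0 w) = [1, 2, 3] := by decide
theorem nb1 : ((List.finRange 6).filter fun w => hwTree.Adj 1 w) = [0, 4, 5] := by decide
theorem nb2 : ((List.finRange 6).filter fun w => hwTree.Adj 2 w) = [0] := by decide
theorem nb3 : ((List.finRange 6).filter fun w => hwTree.Adj 3 w) = [0] := by decide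
theorem nb4 : ((List.finRange 6).filter fun w => hwTree.Adj 4 w) = [1] := by decide
theorem nb5 : ((List.finRange 6).filter fun w => hwTree.Adj 5 w) = [1] := by decide

/-- The generators of the fundamental group. -/
def gn (i : Fin 6) : hwTree.PiOne := PresentedGroup.of i

theorem rel_vertex (v : Fin 6) : gn v ^ hwTree.framing v *
    (((List.finRange 6).filter fun w => hwTree.Adj v w).map gn).prod = 1 := by
  have h : (FreeGroup.of v ^ hwTree.framing v *
      (((List.finRange 6).filter fun w => hwTree.Adj v w).map FreeGroup.of).prod) ∈ hwTree.relations :=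
    Or.inr ⟨v, rfl⟩
  have h2 := PresentedGroup.one_of_mem h
  rw [map_mul, map_zpow, map_list_prod, List.map_map] at h2
  exact h2

theorem rel0 : gn 1 * gn 2 * gn 3 = 1 := by
  have := rel_vertex 0
  rw [nb0] at this
  have h : hwTree.framing 0 = 0 := rfl
  rw [h, zpow_zero, one_mul] at this
  simp only [List.map_cons, List.map_nil, List.prod_cons, List.prod_nil, mul_one] at this
  rw [mul_assoc]; exact this

theorem rel1 : gn 0 * gn 4 * gn 5 = 1 := by
  have := rel_vertex 1
  rw [nb1] at this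
  have h : hwTree.framing 1 = 0 := rfl
  rw [h, zpow_zero, one_mul] at this
  simp only [List.map_cons, List.map_nil, List.prod_cons, List.prod_nil, mul_one] at this
  rw [mul_assoc]; exact this

theorem rel2 : gn 2 ^ 2 * gn 0 = 1 := by
  have := rel_vertex 2
  rw [nb2] at this
  have h : hwTree.framing 2 = 2 := rfl
  rw [h] at this
  simpa using this

theorem rel3 : gn 0 = gn 3 ^ 2 := by
  have := rel_vertex 3
  rw [nb3] at this
  have h : hwTree.framing 3 = -2 := rfl
  rw [h, _root_.zpow_neg] at this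
  have h2 : (gn 3 ^ (2 : ℤ))⁻¹ * gn 0 = 1 := by simpa using this
  have h3 := (inv_mul_eq_one.mp h2).symm
  rw [h3]; norm_cast

theorem rel4 : gn 4 ^ 2 * gn 1 = 1 := by
  have := rel_vertex 4
  rw [nb4] at this
  have h : hwTree.framing 4 = 2 := rfl
  rw [h] at this
  simpa using this

theorem rel5 : gn 1 = gn 5 ^ 2 := by
  have := rel_vertex 5
  rw [nb5] at this
  have h : hwTree.framing 5 = -2 := rfl
  rw [h, _root_.zpow_neg] at this
  have h2 : (gn 5 ^ (2 : ℤ))⁻¹ * gn 1 = 1 := by simpa using this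
  have h3 := (inv_mul_eq_one.mp h2).symm
  rw [h3]; norm_cast

/-- With q = gn 3 and t = gn 5: t² q t² = q. -/
theorem relA : gn 5 * gn 5 * gn 3 * gn 5 * gn 5 = gn 3 := by
  -- gn 2 = (gn 3 * gn 1)⁻¹ , (gn 2)² * gn 0 = 1
  have h1 : gn 2 = (gn 1)⁻¹ * (gn 3)⁻¹ := by
    have := rel0
    rw [mul_assoc] at this
    have h := eq_inv_of_mul_eq_one_right this
    calc gn 2 = gn 2 * gn 3 * (gn 3)⁻¹ := by group
      _ = (gn 1)⁻¹ * (gn 3)⁻¹ := by rw [h]
  have h2 := rel2
  rw [rel3, h1, pow_two, pow_two] at h2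
  have h3 : (gn 1)⁻¹ * (gn 3)⁻¹ * ((gn 1)⁻¹ * (gn 3)⁻¹) * (gn 3 * gn 3) =
      (gn 1)⁻¹ * (gn 3)⁻¹ * (gn 1)⁻¹ * gn 3 := by group
  rw [h3] at h2
  -- (gn 1)⁻¹ (gn 3)⁻¹ (gn 1)⁻¹ gn 3 = 1
  have h4 : gn 1 * gn 3 * gn 1 = gn 3 := by
    have h5 : gn 3 = gn 1 * gn 3 * gn 1 * ((gn 1)⁻¹ * (gn 3)⁻¹ * (gn 1)⁻¹ * gn 3) := by group
    rw [h2, mul_one] at h5
    exact h5.symm
  rw [rel5, pow_two] at h4
  calc gn 5 * gn 5 * gn 3 * gn 5 * gn 5 = gn 5 * gn 5 * gn 3 * (gn 5 * gn 5) := by group
    _ = gn 3 := h4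

theorem relB : gn 3 * gn 3 * gn 5 * gn 3 * gn 3 = gn 5 := by
  have h1 : gn 4 = (gn 0)⁻¹ * (gn 5)⁻¹ := by
    have := rel1
    rw [mul_assoc] at this
    have h := eq_inv_of_mul_eq_one_right this
    calc gn 4 = gn 4 * gn 5 * (gn 5)⁻¹ := by group
      _ = (gn 0)⁻¹ * (gn 5)⁻¹ := by rw [h]
  have h2 := rel4
  rw [rel5, h1, pow_two, pow_two] at h2
  have h3 : (gn 0)⁻¹ * (gn 5)⁻¹ * ((gn 0)⁻¹ * (gn 5)⁻¹) * (gn 5 * gn 5) =
      (gn 0)⁻¹ * (gn 5)⁻¹ * (gn 0)⁻¹ * gn 5 := by group
  rw [h3] at h2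
  have h4 : gn 0 * gn 5 * gn 0 = gn 5 := by
    have h5 : gn 5 = gn 0 * gn 5 * gn 0 * ((gn 0)⁻¹ * (gn 5)⁻¹ * (gn 0)⁻¹ * gn 5) := by group
    rw [h2, mul_one] at h5
    exact h5.symm
  rw [rel3, pow_two] at h4
  calc gn 3 * gn 3 * gn 5 * gn 3 * gn 3 = gn 3 * gn 3 * gn 5 * (gn 3 * gn 3) := by group
    _ = gn 5 := h4

/-- q = gn 3 and t = gn 5 generate the group. -/
theorem closure_qt (K : Subgroup hwTree.PiOne) (hq : gn 3 ∈ K) (ht : gn 5 ∈ K) : K = ⊤ := by
  have h0 : gn 0 ∈ K := by rw [rel3]; exact K.pow_mem hq 2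
  have h1 : gn 1 ∈ K := by rw [rel5]; exact K.pow_mem ht 2
  have h2 : gn 2 ∈ K := by
    have : gn 2 = (gn 1)⁻¹ * (gn 3)⁻¹ := by
      have := rel0
      rw [mul_assoc] at this
      have h := eq_inv_of_mul_eq_one_right this
      calc gn 2 = gn 2 * gn 3 * (gn 3)⁻¹ := by group
        _ = (gn 1)⁻¹ * (gn 3)⁻¹ := by rw [h]
    rw [this]; exact K.mul_mem (K.inv_mem h1) (K.inv_mem hq)
  have h4 : gn 4 ∈ K := by
    have : gn 4 = (gn 0)⁻¹ * (gn 5)⁻¹ := by
      have := rel1
      rw [mul_assoc] at this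
      have h := eq_inv_of_mul_eq_one_right this
      calc gn 4 = gn 4 * gn 5 * (gn 5)⁻¹ := by group
        _ = (gn 0)⁻¹ * (gn 5)⁻¹ := by rw [h]
    rw [this]; exact K.mul_mem (K.inv_mem h0) (K.inv_mem ht)
  rw [eq_top_iff, ← PresentedGroup.closure_range_of hwTree.relations, Subgroup.closure_le]
  rintro x ⟨i, rfl⟩
  show gn i ∈ K
  fin_cases i
  · exact h0
  · exact h1
  · exact h2
  · exact hq
  · exact h4
  · exact ht

/-- The homomorphism of the fundamental group to SU(2) given by q ↦ Q, t ↦ T with Q² = T² = -1. -/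
theorem exists_hom (Q T : SUtwo) (hQ : Q.1 * Q.1 = -1) (hT : T.1 * T.1 = -1) :
    ∃ ρ : hwTree.PiOne →* SUtwo, ρ (gn 3) = Q ∧ ρ (gn 5) = T ∧
      ρ (gn 0) = Q * Q ∧ ρ (gn 1) = T * T ∧ ρ (gn 2) = Q ∧ ρ (gn 4) = T := by
  have hQT : Q * Q = T * T := Subtype.ext (by
    show Q.1 * Q.1 = T.1 * T.1
    rw [hQ, hT])
  have hcen : ∀ x : SUtwo, Q * Q * x = x * (Q * Q) := by
    intro x
    apply Subtype.ext
    show Q.1 * Q.1 * x.1 = x.1 * (Q.1 * Q.1)
    rw [hQ]; simp
  have hQ4 : Q * Q * (Q * Q) = 1 := Subtype.ext (by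
    show Q.1 * Q.1 * (Q.1 * Q.1) = 1
    rw [hQ]; simp)
  have hT4 : T * T * (T * T) = 1 := by rw [← hQT]; exact hQ4
  let F : Fin 6 → SUtwo := ![Q * Q, T * T, Q, Q, T, T]
  have hF0 : F 0 = Q * Q := rfl
  have hF1 : F 1 = T * T := rfl
  have hF2 : F 2 = Q := rfl
  have hF3 : F 3 = Q := rfl
  have hF4 : F 4 = T := rfl
  have hF5 : F 5 = T := rfl
  have hrel : ∀ x ∈ hwTree.relations, FreeGroup.lift F x = 1 := by
    rintro x (⟨v, w, hvw, rfl⟩ | ⟨v, rfl⟩)
    · simp only [map_mul, map_inv, FreeGroup.lift_apply_of]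
      have hcomm : F v * F w = F w * F v := by
        obtain ⟨i, hi⟩ := hvw
        fin_cases i
        · rcases hi with ⟨h1, h2⟩ | ⟨h1, h2⟩
          · have h1' : v = 1 := h1.symm
            have h2' : w = 0 := h2.symm
            rw [h1', h2', hF0, hF1, hQT]
          · have h1' : w = 1 := h1.symm
            have h2' : v = 0 := h2.symm
            rw [h1', h2', hF0, hF1, hQT]
        · rcases hi with ⟨h1, h2⟩ | ⟨h1, h2⟩
          · have h1' : v = 2 := h1.symm
            have h2' : w = 0 := h2.symm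
            rw [h1', h2', hF0, hcen]
          · have h1' : w = 2 := h1.symm
            have h2' : v = 0 := h2.symm
            rw [h1', h2', hF0, hcen]
        · rcases hi with ⟨h1, h2⟩ | ⟨h1, h2⟩
          · have h1' : v = 3 := h1.symm
            have h2' : w = 0 := h2.symm
            rw [h1', h2', hF0, hcen]
          · have h1' : w = 3 := h1.symm
            have h2' : v = 0 := h2.symm
            rw [h1', h2', hF0, hcen]
        · rcases hi with ⟨h1, h2⟩ | ⟨h1, h2⟩
          · have h1' : v = 4 := h1.symm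
            have h2' : w = 1 := h2.symm
            rw [h1', h2', hF1, ← hQT, hcen]
          · have h1' : w = 4 := h1.symm
            have h2' : v = 1 := h2.symm
            rw [h1', h2', hF1, ← hQT, hcen]
        · rcases hi with ⟨h1, h2⟩ | ⟨h1, h2⟩
          · have h1' : v = 5 := h1.symm
            have h2' : w = 1 := h2.symm
            rw [h1', h2', hF1, ← hQT, hcen]
          · have h1' : w = 5 := h1.symm
            have h2' : v = 1 := h2.symm
            rw [h1', h2', hF1, ← hQT, hcen]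
      rw [hcomm]; group
    · simp only [map_mul, map_zpow, FreeGroup.lift_apply_of, map_list_prod, List.map_map]
      have hcomp : ∀ l : List (Fin 6), (List.map (⇑(FreeGroup.lift F) ∘ FreeGroup.of) l) = l.map F := by
        intro l
        refine List.map_congr_left fun a _ => ?_
        simp
      rw [hcomp]
      have hneg : ∀ x : SUtwo, x ^ (-2 : ℤ) = (x * x)⁻¹ := fun x => by
        rw [_root_.zpow_neg]; norm_cast; rw [pow_two]
      have hpos : ∀ x : SUtwo, x ^ (2 : ℤ) = x * x := fun x => by norm_cast; rw [pow_two]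
      fin_cases v
      · show F 0 ^ (0 : ℤ) * (List.map F ((List.finRange 6).filter fun w => hwTree.Adj 0 w)).prod = 1
        rw [nb0]
        simp only [List.map_cons, List.map_nil, List.prod_cons, List.prod_nil, zpow_zero, one_mul,
          mul_one, hF1, hF2, hF3]
        rw [← hQT]; exact hQ4
      · show F 1 ^ (0 : ℤ) * (List.map F ((List.finRange 6).filter fun w => hwTree.Adj 1 w)).prod = 1
        rw [nb1]
        simp only [List.map_cons, List.map_nil, List.prod_cons, List.prod_nil, zpow_zero, one_mul,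
          mul_one, hF0, hF4, hF5]
        rw [hQT]; exact hT4
      · show F 2 ^ (2 : ℤ) * (List.map F ((List.finRange 6).filter fun w => hwTree.Adj 2 w)).prod = 1
        rw [nb2, hpos]
        simp only [List.map_cons, List.map_nil, List.prod_cons, List.prod_nil, mul_one, hF0, hF2]
        exact hQ4
      · show F 3 ^ (-2 : ℤ) * (List.map F ((List.finRange 6).filter fun w => hwTree.Adj 3 w)).prod = 1
        rw [nb3, hneg]
        simp only [List.map_cons, List.map_nil, List.prod_cons, List.prod_nil, mul_one, hF0, hF3]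
        group
      · show F 4 ^ (2 : ℤ) * (List.map F ((List.finRange 6).filter fun w => hwTree.Adj 4 w)).prod = 1
        rw [nb4, hpos]
        simp only [List.map_cons, List.map_nil, List.prod_cons, List.prod_nil, mul_one, hF1, hF4]
        exact hT4
      · show F 5 ^ (-2 : ℤ) * (List.map F ((List.finRange 6).filter fun w => hwTree.Adj 5 w)).prod = 1
        rw [nb5, hneg]
        simp only [List.map_cons, List.map_nil, List.prod_cons, List.prod_nil, mul_one, hF1, hF5]
        group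
  refine ⟨PresentedGroup.toGroup hrel, ?_, ?_, ?_, ?_, ?_, ?_⟩ <;>
    exact PresentedGroup.toGroup.of hrel

end H524R3
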