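import Mathlib
import Pool.Agent.H524R3.FlatHW

/-!
# Generic bound for h^1 - h^0 on the Hantzsche-Wendt manifold
-/

set_option autoImplicit false

open Filter Topology

namespace H524R3

abbrev M2 : Type := Matrix (Fin 2) (Fin 2) ℂ

theorem anticomm (X Y : M2) (hX : X.trace = 0) (hY : Y.trace = 0) :
    X * Y + Y * X = (X * Y).trace • (1 : M2) := by
  have h1 : X 1 1 = -X 0 0 := by
    rw [Matrix.trace_fin_two] at hX; linear_combination hX
  have h2 : Y 1 1 = -Y 0 0 := by
    rw [Matrix.trace_fin_two] at hY; linear_combination hY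
  ext i j
  fin_cases i <;> fin_cases j <;>
    simp [Matrix.mul_apply, Fin.sum_univ_two, Matrix.trace_fin_two, h1, h2] <;> ring

theorem cayley (g : M2) (hdet : g.det = 1) : g * g = g.trace • g - 1 := by
  rw [Matrix.det_fin_two] at hdet
  ext i j
  fin_cases i <;> fin_cases j
  · simp [Matrix.mul_apply, Fin.sum_univ_two, Matrix.trace_fin_two]; linear_combination -hdet
  · simp [Matrix.mul_apply, Fin.sum_univ_two, Matrix.trace_fin_two]; ring
  · simp [Matrix.mul_apply, Fin.sum_univ_two, Matrix.trace_fin_two]; ring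
  · simp [Matrix.mul_apply, Fin.sum_univ_two, Matrix.trace_fin_two]; linear_combination -hdet

theorem det_su (g : SUtwo) : g.1.det = 1 := (Matrix.mem_specialUnitaryGroup_iff.mp g.2).2

theorem mul_inv_su (g : SUtwo) : g.1 * (g⁻¹).1 = 1 := by
  have : g * g⁻¹ = 1 := mul_inv_cancel g
  exact congrArg Subtype.val this

theorem inv_mul_su (g : SUtwo) : (g⁻¹).1 * g.1 = 1 := by
  have : g⁻¹ * g = 1 := inv_mul_cancel g
  exact congrArg Subtype.val this

theorem inv_val (g : SUtwo) : (g⁻¹).1 = g.1.conjTranspose := rfl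

theorem adj_mul (g h : SUtwo) (X : M2) : adj (g * h) X = adj g (adj h X) := by
  unfold adj
  rw [mul_inv_rev]
  show g.1 * h.1 * X * ((h⁻¹).1 * (g⁻¹).1) = g.1 * (h.1 * X * (h⁻¹).1) * (g⁻¹).1
  simp only [mul_assoc]

theorem adj_one (X : M2) : adj 1 X = X := by
  unfold adj
  rw [inv_one]
  show (1 : M2) * X * (1 : M2) = X
  rw [one_mul, mul_one]

theorem adj_zero (g : SUtwo) : adj g 0 = 0 := by
  unfold adj; rw [mul_zero, zero_mul]

/-- Elements of order 4. -/
theorem inv_of_sq_neg (g : SUtwo) (h : g.1 * g.1 = -1) : (g⁻¹).1 = -g.1 := by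
  have h1 := mul_inv_su g
  calc (g⁻¹).1 = -(g.1 * g.1) * (g⁻¹).1 := by rw [h]; simp
    _ = -(g.1 * (g.1 * (g⁻¹).1)) := by simp only [neg_mul, mul_assoc]
    _ = -g.1 := by rw [h1, mul_one]

theorem ne_zero_su (g : SUtwo) : g.1 ≠ 0 := by
  intro h
  have := mul_inv_su g
  rw [h, zero_mul] at this
  exact zero_ne_one this

theorem mem_suLie_of_sq_neg (g : SUtwo) (h : g.1 * g.1 = -1) : g.1 ∈ suLie := by
  constructor
  · rw [← inv_val, inv_of_sq_neg g h]
  · have h1 := cayley g.1 (det_su g)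
    rw [h] at h1
    have h2 : g.1.trace • g.1 = 0 := by
      have : g.1.trace • g.1 - 1 = (-1 : M2) := h1.symm
      have h3 : g.1.trace • g.1 = (g.1.trace • g.1 - 1) + 1 := by abel
      rw [h3, this]; simp
    rcases smul_eq_zero.mp h2 with h3 | h3
    · exact h3
    · exact absurd h3 (ne_zero_su g)

theorem add_adj_of_sq_neg (g : SUtwo) (h : g.1 * g.1 = -1) (X : M2) (hX : X.trace = 0) :
    X + adj g X = -((g.1 * X).trace • g.1) := by
  have h1 := anticomm g.1 X (mem_suLie_of_sq_neg g h).2 hX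
  have h2 : g.1 * X = (g.1 * X).trace • (1 : M2) - X * g.1 := by rw [← h1]; abel
  unfold adj
  rw [inv_of_sq_neg g h, h2, mul_neg, sub_mul, Matrix.smul_mul, one_mul, mul_assoc, h]
  rw [← h2]
  simp

theorem adj_of_sq_one (g : SUtwo) (h : g.1 * g.1 = 1) (X : M2) : adj g X = X := by
  have h1 := cayley g.1 (det_su g)
  rw [h] at h1
  have h2 : g.1.trace • g.1 = (2 : ℂ) • (1 : M2) := by
    have : g.1.trace • g.1 = (g.1.trace • g.1 - 1) + 1 := by abel
    rw [this, ← h1, two_smul]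
  have h3 : g.1.trace ≠ 0 := by
    intro h3
    rw [h3, zero_smul] at h2
    have := congrFun (congrFun h2 0) 0
    simp at this
  have h4 : g.1 = (g.1.trace⁻¹ * 2) • (1 : M2) := by
    rw [mul_smul, ← h2, smul_smul, inv_mul_cancel₀ h3, one_smul]
  have h5 : g.1 * X = X * g.1 := by
    rw [h4, Matrix.smul_mul, Matrix.mul_smul, one_mul, mul_one]
  unfold adj
  rw [h5, mul_assoc, mul_inv_su, mul_one]

/-- The trace of a product of two elements of su(2) is real. -/
theorem trace_real (X Y : M2) (hX : X ∈ suLie) (hY : Y ∈ suLie) (h : (X * Y).trace.re = 0) :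
    (X * Y).trace = 0 := by
  have h1 : (starRingEnd ℂ) (X * Y).trace = (X * Y).trace := by
    have h2 : (X * Y).conjTranspose.trace = (starRingEnd ℂ) (X * Y).trace :=
      Matrix.trace_conjTranspose _
    rw [← h2, Matrix.conjTranspose_mul, hX.1, hY.1, neg_mul_neg, Matrix.trace_mul_comm]
  have h3 := Complex.conj_eq_iff_im.mp h1
  exact Complex.ext h h3

open scoped ComplexOrder in
/-- A nonzero element of su(2) has nonzero square. -/
theorem trace_sq_ne (X : M2) (hX : X ∈ suLie) (h0 : X ≠ 0) : (X * X).trace.re ≠ 0 := by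
  intro h
  apply h0
  have h1 : (X * X).trace = -(X.conjTranspose * X).trace := by
    rw [hX.1, neg_mul, Matrix.trace_neg, neg_neg]
  have h2 := trace_real X X hX hX h
  rw [h1, neg_eq_zero, Matrix.trace_conjTranspose_mul_self_eq_zero_iff] at h2
  exact h2

/-- The hyperplane orthogonal to A in su(2). -/
def perp (A : M2) : Submodule ℝ suLie where
  carrier := {X | (A * X.1).trace.re = 0}
  add_mem' := by
    intro X Y hX hY
    show (A * (X.1 + Y.1)).trace.re = 0
    rw [mul_add, Matrix.trace_add, Complex.add_re]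
    have h1 : (A * X.1).trace.re = 0 := hX
    have h2 : (A * Y.1).trace.re = 0 := hY
    rw [h1, h2, add_zero]
  zero_mem' := by
    show (A * (0 : M2)).trace.re = 0
    simp
  smul_mem' := by
    intro c X hX
    show (A * (c • X.1)).trace.re = 0
    have h1 : (A * X.1).trace.re = 0 := hX
    rw [Matrix.mul_smul, Matrix.trace_smul, Complex.real_smul, Complex.re_ofReal_mul, h1, mul_zero]

/-- The functional X ↦ tr (A X). -/
noncomputable def trf (A : M2) : suLie →ₗ[ℝ] ℝ where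
  toFun X := (A * X.1).trace.re
  map_add' X Y := by
    show (A * (X.1 + Y.1)).trace.re = _
    rw [mul_add, Matrix.trace_add, Complex.add_re]
  map_smul' c X := by
    show (A * (c • X.1)).trace.re = _
    rw [Matrix.mul_smul, Matrix.trace_smul, Complex.real_smul, Complex.re_ofReal_mul]
    rfl

theorem ker_trf (A : M2) : LinearMap.ker (trf A) = perp A := by
  ext X; rfl

theorem finrank_perp (A : M2) (hA : A ∈ suLie) (h0 : A ≠ 0) : Module.finrank ℝ (perp A) = 2 := by
  have h := LinearMap.finrank_range_add_finrank_ker (trf A)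
  have h1 : LinearMap.range (trf A) = ⊤ := by
    rw [LinearMap.range_eq_top]
    intro c
    have hne : trf A ⟨A, hA⟩ ≠ 0 := trace_sq_ne A hA h0
    refine ⟨(c / trf A ⟨A, hA⟩) • ⟨A, hA⟩, ?_⟩
    rw [map_smul, smul_eq_mul, div_mul_cancel₀ _ hne]
  rw [h1, finrank_top, Module.finrank_self, finrank_suLie, ker_trf] at h
  omega

variable (ρ : hwTree.PiOne →* SUtwo)

/-- Evaluation of a cocycle. -/
def evz (g : hwTree.PiOne) : spaceZ1 ρ →ₗ[ℝ] suLie where
  toFun f := ⟨f.1 g, f.2.1 g⟩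
  map_add' _ _ := rfl
  map_smul' _ _ := rfl

theorem cocycle_one (f : spaceZ1 ρ) : f.1 1 = 0 := by
  have h := f.2.2 1 1
  rw [mul_one, map_one, adj_one] at h
  simpa using h

theorem cocycle_inj (f : spaceZ1 ρ) (ht : f.1 (gn 5) = 0) (hq : f.1 (gn 3) = 0) : f = 0 := by
  let K : Subgroup hwTree.PiOne :=
    { carrier := {g | f.1 g = 0}
      mul_mem' := by
        intro a b ha hb
        show f.1 (a * b) = 0
        have ha' : f.1 a = 0 := ha
        have hb' : f.1 b = 0 := hb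
        rw [f.2.2 a b, ha', hb', adj_zero, add_zero]
      one_mem' := cocycle_one ρ f
      inv_mem' := by
        intro a ha
        have ha' : f.1 a = 0 := ha
        show f.1 a⁻¹ = 0
        have h1 := f.2.2 a a⁻¹
        rw [mul_inv_cancel, cocycle_one, ha', zero_add] at h1
        have h2 : adj (ρ a)⁻¹ (adj (ρ a) (f.1 a⁻¹)) = 0 := by rw [← h1, adj_zero]
        rw [← adj_mul, inv_mul_cancel, adj_one] at h2
        exact h2 }
  have hK := closure_qt K hq ht
  apply Subtype.ext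
  funext g
  have : g ∈ K := by rw [hK]; trivial
  exact this

/-- The linearised relation t² q t² = q. -/
theorem cocycle_relA (f : spaceZ1 ρ) :
    f.1 (gn 5) + adj (ρ (gn 5)) (f.1 (gn 5)) + adj (ρ (gn 5) * ρ (gn 5)) (f.1 (gn 3)) +
      adj (ρ (gn 5) * ρ (gn 5) * ρ (gn 3)) (f.1 (gn 5)) +
      adj (ρ (gn 5) * ρ (gn 5) * ρ (gn 3) * ρ (gn 5)) (f.1 (gn 5)) = f.1 (gn 3) := by
  have h := congrArg f.1 relA
  rw [f.2.2, f.2.2, f.2.2, f.2.2] at h
  simp only [map_mul] at h
  exact h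

theorem cocycle_relB (f : spaceZ1 ρ) :
    f.1 (gn 3) + adj (ρ (gn 3)) (f.1 (gn 3)) + adj (ρ (gn 3) * ρ (gn 3)) (f.1 (gn 5)) +
      adj (ρ (gn 3) * ρ (gn 3) * ρ (gn 5)) (f.1 (gn 3)) +
      adj (ρ (gn 3) * ρ (gn 3) * ρ (gn 5) * ρ (gn 3)) (f.1 (gn 3)) = f.1 (gn 5) := by
  have h := congrArg f.1 relB
  rw [f.2.2, f.2.2, f.2.2, f.2.2] at h
  simp only [map_mul] at h
  exact h

/-- General form: X = value at a, Y = value at b, T, Q the matrices of a and b. -/
theorem key_central (T Q : SUtwo) (X Y : M2) (hX : X.trace = 0)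
    (h : X + adj T X + adj (T * T) Y + adj (T * T * Q) X + adj (T * T * Q * T) X = Y)
    (hT : ∀ Z, adj (T * T) Z = Z) : (X + adj T X) + adj Q (X + adj T X) = 0 := by
  rw [adj_mul (T * T * Q) T, adj_mul (T * T) Q, adj_mul (T * T) Q, hT, hT, hT] at h
  rw [adj_add]
  have h2 : X + adj T X + (adj Q X + adj Q (adj T X)) =
      (X + adj T X + Y + adj Q X + adj Q (adj T X)) - Y := by abel
  rw [h2, h, sub_self]

theorem adj_sq_of_neg (T : SUtwo) (h : T.1 * T.1 = -1) (Z : M2) : adj (T * T) Z = Z := by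
  have h1 : (T * T).1 * (T * T).1 = 1 := by
    show T.1 * T.1 * (T.1 * T.1) = 1
    rw [h]; simp
  exact adj_of_sq_one _ h1 Z

theorem adj_sq_of_one (T : SUtwo) (h : T.1 * T.1 = 1) (Z : M2) : adj (T * T) Z = Z := by
  have h1 : (T * T).1 * (T * T).1 = 1 := by
    show T.1 * T.1 * (T.1 * T.1) = 1
    rw [h]; simp
  exact adj_of_sq_one _ h1 Z

theorem adj_smulC (g : SUtwo) (c : ℂ) (X : M2) : adj g (c • X) = c • adj g X := by
  unfold adj; rw [Matrix.mul_smul, Matrix.smul_mul]

theorem adj_neg (g : SUtwo) (X : M2) : adj g (-X) = -adj g X := by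
  unfold adj; rw [mul_neg, neg_mul]

/-- T² = Q² = -1 and tr (Q T) ≠ 0: the value at a is orthogonal to T. -/
theorem case_neg_neg (T Q : SUtwo) (X : M2) (hX : X.trace = 0) (hT : T.1 * T.1 = -1)
    (hQ : Q.1 * Q.1 = -1) (hne : (Q.1 * T.1).trace ≠ 0)
    (h : (X + adj T X) + adj Q (X + adj T X) = 0) : (T.1 * X).trace = 0 := by
  rw [add_adj_of_sq_neg T hT X hX, adj_neg, adj_smulC, ← neg_add, neg_eq_zero, ← smul_add,
    add_adj_of_sq_neg Q hQ T.1 (mem_suLie_of_sq_neg T hT).2, smul_neg, neg_eq_zero, smul_smul] at h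
  rcases smul_eq_zero.mp h with h1 | h1
  · rcases mul_eq_zero.mp h1 with h2 | h2
    · exact h2
    · exact absurd h2 hne
  · exact absurd h1 (ne_zero_su Q)

/-- T² = -1, Q² = 1. -/
theorem case_neg_one (T Q : SUtwo) (X : M2) (hX : X.trace = 0) (hT : T.1 * T.1 = -1)
    (hQ : Q.1 * Q.1 = 1) (h : (X + adj T X) + adj Q (X + adj T X) = 0) : (T.1 * X).trace = 0 := by
  rw [adj_of_sq_one Q hQ, add_adj_of_sq_neg T hT X hX, ← two_smul ℂ, smul_neg, neg_eq_zero,
    smul_smul] at h
  rcases smul_eq_zero.mp h with h1 | h1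
  · rcases mul_eq_zero.mp h1 with h2 | h2
    · norm_num at h2
    · exact h2
  · exact absurd h1 (ne_zero_su T)

/-- T² = 1, Q² = -1. -/
theorem case_one_neg (T Q : SUtwo) (X : M2) (hX : X.trace = 0) (hT : T.1 * T.1 = 1)
    (hQ : Q.1 * Q.1 = -1) (h : (X + adj T X) + adj Q (X + adj T X) = 0) : (Q.1 * X).trace = 0 := by
  have h0 : (X + X).trace = 0 := by rw [Matrix.trace_add, hX, add_zero]
  rw [adj_of_sq_one T hT, add_adj_of_sq_neg Q hQ (X + X) h0, neg_eq_zero] at h
  rcases smul_eq_zero.mp h with h1 | h1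
  · rw [mul_add, Matrix.trace_add, ← two_mul] at h1
    rcases mul_eq_zero.mp h1 with h2 | h2
    · norm_num at h2
    · exact h2
  · exact absurd h1 (ne_zero_su Q)

/-- T² = Q² = 1. -/
theorem case_one_one (T Q : SUtwo) (X : M2) (hT : T.1 * T.1 = 1)
    (hQ : Q.1 * Q.1 = 1) (h : (X + adj T X) + adj Q (X + adj T X) = 0) : X = 0 := by
  rw [adj_of_sq_one T hT, adj_of_sq_one Q hQ] at h
  have h1 : (4 : ℂ) • X = 0 := by
    rw [← h]
    have : (4 : ℂ) = 1 + 1 + (1 + 1) := by norm_num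
    rw [this, add_smul, add_smul, one_smul]
  rcases smul_eq_zero.mp h1 with h2 | h2
  · norm_num at h2
  · exact h2

theorem finrank_le_aux {V W : Type*} [AddCommGroup V] [Module ℝ V] [FiniteDimensional ℝ V]
    [AddCommGroup W] [Module ℝ W] (P Q : Submodule ℝ V) (Φ : W →ₗ[ℝ] (P × Q))
    (hΦ : Function.Injective Φ) (hP : Module.finrank ℝ P = 2) (hQ : Module.finrank ℝ Q = 2) :
    Module.finrank ℝ W ≤ 4 := by
  have h := LinearMap.finrank_le_finrank_of_injective hΦ
  rw [Module.finrank_prod, hP, hQ] at h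
  exact h

/-- If the values at t and q lie in hyperplanes, dim Z^1 ≤ 4. -/
theorem finrank_le_of_perp (A B : M2) (hA : A ∈ suLie) (hA0 : A ≠ 0) (hB : B ∈ suLie) (hB0 : B ≠ 0)
    (h1 : ∀ f : spaceZ1 ρ, (A * f.1 (gn 5)).trace = 0)
    (h2 : ∀ f : spaceZ1 ρ, (B * f.1 (gn 3)).trace = 0) :
    Module.finrank ℝ (spaceZ1 ρ) ≤ 4 := by
  let Φ : spaceZ1 ρ →ₗ[ℝ] (perp A × perp B) :=
    LinearMap.prod (LinearMap.codRestrict (perp A) (evz ρ (gn 5)) (fun f => by
        show (A * f.1 (gn 5)).trace.re = 0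
        rw [h1 f]; rfl))
      (LinearMap.codRestrict (perp B) (evz ρ (gn 3)) (fun f => by
        show (B * f.1 (gn 3)).trace.re = 0
        rw [h2 f]; rfl))
  have hΦ : Function.Injective Φ := by
    rw [injective_iff_map_eq_zero]
    intro f hf
    have e1 : (Φ f).1 = 0 := by rw [hf]; rfl
    have e2 : (Φ f).2 = 0 := by rw [hf]; rfl
    have e3 : f.1 (gn 5) = 0 := congrArg (fun x : perp A => x.1.1) e1
    have e4 : f.1 (gn 3) = 0 := congrArg (fun x : perp B => x.1.1) e2
    exact cocycle_inj ρ f e3 e4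
  exact finrank_le_aux (perp A) (perp B) Φ hΦ (finrank_perp A hA hA0) (finrank_perp B hB hB0)

/-- If Z^1 injects in su(2) × ℝ, dim Z^1 ≤ 4. -/
theorem finrank_le_of_inj (a b : hwTree.PiOne) (N : M2)
    (h : ∀ f : spaceZ1 ρ, f.1 a = 0 → (N * f.1 b).trace.re = 0 → f = 0) :
    Module.finrank ℝ (spaceZ1 ρ) ≤ 4 := by
  let Φ : spaceZ1 ρ →ₗ[ℝ] (suLie × ℝ) := LinearMap.prod (evz ρ a) ((trf N).comp (evz ρ b))
  have hΦ : Function.Injective Φ := by
    rw [injective_iff_map_eq_zero]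
    intro f hf
    have e1 : (Φ f).1 = 0 := by rw [hf]; rfl
    have e2 : (Φ f).2 = 0 := by rw [hf]; rfl
    exact h f (congrArg Subtype.val e1) e2
  have h := LinearMap.finrank_le_finrank_of_injective hΦ
  rw [Module.finrank_prod, finrank_suLie, Module.finrank_self] at h
  exact h

end H524R3
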