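import Mathlib
import Pool.Agent.H524R3.FlatBound

/-!
# h^1 - h^0 ≤ 1 on a dense set of flat SU(2)-connections on the Hantzsche-Wendt manifold
-/

set_option autoImplicit false

open Filter Topology

namespace H524R3

/-- The traceless part. -/
noncomputable def Npart (v : M2) : M2 := v - (v.trace / 2) • 1

theorem Npart_trace (v : M2) : (Npart v).trace = 0 := by
  unfold Npart
  rw [Matrix.trace_sub, Matrix.trace_smul, Matrix.trace_one]
  simp

theorem su_add_inv (v : SUtwo) : v.1 + (v⁻¹).1 = v.1.trace • (1 : M2) := by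
  have h1 := cayley v.1 (det_su v)
  have h2 : v.1 * v.1 * (v⁻¹).1 = (v.1.trace • v.1 - 1) * (v⁻¹).1 := by rw [h1]
  rw [mul_assoc, mul_inv_su, mul_one, sub_mul, Matrix.smul_mul, mul_inv_su, one_mul] at h2
  exact eq_sub_iff_add_eq.mp h2

theorem Npart_mem (v : SUtwo) : Npart v.1 ∈ suLie := by
  refine ⟨?_, Npart_trace v.1⟩
  have h1 : v.1.conjTranspose = v.1.trace • (1 : M2) - v.1 := by
    rw [← inv_val, ← su_add_inv]; abel
  have h2 : (starRingEnd ℂ) v.1.trace = v.1.trace := by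
    have h3 : v.1.conjTranspose.trace = (starRingEnd ℂ) v.1.trace := Matrix.trace_conjTranspose _
    rw [← h3, h1, Matrix.trace_sub, Matrix.trace_smul, Matrix.trace_one]
    simp; ring
  unfold Npart
  rw [Matrix.conjTranspose_sub, Matrix.conjTranspose_smul, Matrix.conjTranspose_one, h1]
  have h4 : star (v.1.trace / 2) = v.1.trace / 2 := by
    have : star (v.1.trace / 2) = (starRingEnd ℂ) v.1.trace / 2 := by
      rw [← Complex.star_def]; simp
    rw [this, h2]
  rw [h4]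
  have h5 : v.1.trace • (1 : M2) = (v.1.trace / 2) • (1 : M2) + (v.1.trace / 2) • (1 : M2) := by
    rw [← add_smul]; congr 1; ring
  rw [h5]; abel

theorem Npart_ne_zero (v : SUtwo) (h1 : v.1 ≠ 1) (h2 : v.1 ≠ -1) : Npart v.1 ≠ 0 := by
  intro h
  have h3 : v.1 = (v.1.trace / 2) • (1 : M2) := by
    unfold Npart at h; exact sub_eq_zero.mp h
  set c := v.1.trace / 2 with hc
  have h4 := det_su v
  rw [h3, Matrix.det_smul, Matrix.det_one, mul_one, Fintype.card_fin] at h4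
  have h5 : (c - 1) * (c + 1) = 0 := by linear_combination h4
  rcases mul_eq_zero.mp h5 with h6 | h6
  · have h7 : c = 1 := by linear_combination h6
    rw [h7, one_smul] at h3; exact h1 h3
  · have h7 : c = -1 := by linear_combination h6
    rw [h7, neg_smul, one_smul] at h3; exact h2 h3

theorem comm_zero (v : SUtwo) (h1 : v.1 ≠ 1) (h2 : v.1 ≠ -1) (X : M2) (hX : X ∈ suLie)
    (h : adj v X = X) (htr : (Npart v.1 * X).trace.re = 0) : X = 0 := by
  have hc : v.1 * X = X * v.1 := by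
    have : v.1 * X * (v⁻¹).1 * v.1 = X * v.1 := by
      have h3 : v.1 * X * (v⁻¹).1 = X := h
      rw [h3]
    rw [mul_assoc, inv_mul_su, mul_one] at this
    exact this
  have hN : Npart v.1 * X = X * Npart v.1 := by
    unfold Npart
    rw [sub_mul, mul_sub, hc, Matrix.smul_mul, Matrix.mul_smul, one_mul, mul_one]
  have hmem := Npart_mem v
  have ht := trace_real _ _ hmem hX htr
  have hac := anticomm (Npart v.1) X hmem.2 hX.2
  rw [← hN, ht, zero_smul, ← two_smul ℂ] at hac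
  have hNX : Npart v.1 * X = 0 := by
    rcases smul_eq_zero.mp hac with h3 | h3
    · norm_num at h3
    · exact h3
  have hNN := anticomm (Npart v.1) (Npart v.1) hmem.2 hmem.2
  have h4 : (Npart v.1 * Npart v.1).trace • X = 0 := by
    have h5 : (Npart v.1 * Npart v.1 + Npart v.1 * Npart v.1) * X = 0 := by
      rw [add_mul, mul_assoc, hNX, mul_zero, add_zero]
    rw [hNN, Matrix.smul_mul, one_mul] at h5
    exact h5
  rcases smul_eq_zero.mp h4 with h5 | h5
  · exact absurd (by rw [h5]; rfl) (trace_sq_ne _ hmem (Npart_ne_zero v h1 h2))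
  · exact h5

variable (ρ : hwTree.PiOne →* SUtwo)

theorem bound_noncentral_t (h1 : (ρ (gn 5) * ρ (gn 5)).1 ≠ 1) (h2 : (ρ (gn 5) * ρ (gn 5)).1 ≠ -1) :
    Module.finrank ℝ (spaceZ1 ρ) ≤ 4 := by
  refine finrank_le_of_inj ρ (gn 5) (gn 3) (Npart (ρ (gn 5) * ρ (gn 5)).1) fun f hf htr => ?_
  refine cocycle_inj ρ f hf ?_
  have h := cocycle_relA ρ f
  simp only [hf, adj_zero, add_zero, zero_add] at h
  exact comm_zero _ h1 h2 _ (f.2.1 _) h htr

theorem bound_noncentral_q (h1 : (ρ (gn 3) * ρ (gn 3)).1 ≠ 1) (h2 : (ρ (gn 3) * ρ (gn 3)).1 ≠ -1) :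
    Module.finrank ℝ (spaceZ1 ρ) ≤ 4 := by
  refine finrank_le_of_inj ρ (gn 3) (gn 5) (Npart (ρ (gn 3) * ρ (gn 3)).1) fun f hf htr => ?_
  refine cocycle_inj ρ f ?_ hf
  have h := cocycle_relB ρ f
  simp only [hf, adj_zero, add_zero, zero_add] at h
  exact comm_zero _ h1 h2 _ (f.2.1 _) h htr

/-- Away from the quaternion representations, dim Z^1 ≤ 4. -/
theorem finrank_Z1_le (h : ¬ ((ρ (gn 3)).1 * (ρ (gn 3)).1 = -1 ∧ (ρ (gn 5)).1 * (ρ (gn 5)).1 = -1 ∧
    ((ρ (gn 3)).1 * (ρ (gn 5)).1).trace = 0)) : Module.finrank ℝ (spaceZ1 ρ) ≤ 4 := by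
  by_cases hT1 : (ρ (gn 5)).1 * (ρ (gn 5)).1 = 1
  · by_cases hQ1 : (ρ (gn 3)).1 * (ρ (gn 3)).1 = 1
    · -- both central
      refine finrank_le_of_inj ρ (gn 5) (gn 3) 0 fun f hf _ => ?_
      refine cocycle_inj ρ f hf ?_
      have hk := key_central _ _ _ _ (f.2.1 _).2 (cocycle_relB ρ f) (adj_sq_of_one _ hQ1)
      exact case_one_one _ _ _ hQ1 hT1 hk
    · by_cases hQ2 : (ρ (gn 3)).1 * (ρ (gn 3)).1 = -1
      · -- T² = 1, Q² = -1
        refine finrank_le_of_perp ρ (ρ (gn 3)).1 (ρ (gn 3)).1 (mem_suLie_of_sq_neg _ hQ2)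
          (ne_zero_su _) (mem_suLie_of_sq_neg _ hQ2) (ne_zero_su _) (fun f => ?_) (fun f => ?_)
        · exact case_one_neg _ _ _ (f.2.1 _).2 hT1 hQ2
            (key_central _ _ _ _ (f.2.1 _).2 (cocycle_relA ρ f) (adj_sq_of_one _ hT1))
        · exact case_neg_one _ _ _ (f.2.1 _).2 hQ2 hT1
            (key_central _ _ _ _ (f.2.1 _).2 (cocycle_relB ρ f) (adj_sq_of_neg _ hQ2))
      · exact bound_noncentral_q ρ hQ1 hQ2
  · by_cases hT2 : (ρ (gn 5)).1 * (ρ (gn 5)).1 = -1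
    · by_cases hQ1 : (ρ (gn 3)).1 * (ρ (gn 3)).1 = 1
      · refine finrank_le_of_perp ρ (ρ (gn 5)).1 (ρ (gn 5)).1 (mem_suLie_of_sq_neg _ hT2)
          (ne_zero_su _) (mem_suLie_of_sq_neg _ hT2) (ne_zero_su _) (fun f => ?_) (fun f => ?_)
        · exact case_neg_one _ _ _ (f.2.1 _).2 hT2 hQ1
            (key_central _ _ _ _ (f.2.1 _).2 (cocycle_relA ρ f) (adj_sq_of_neg _ hT2))
        · exact case_one_neg _ _ _ (f.2.1 _).2 hQ1 hT2
            (key_central _ _ _ _ (f.2.1 _).2 (cocycle_relB ρ f) (adj_sq_of_one _ hQ1))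
      · by_cases hQ2 : (ρ (gn 3)).1 * (ρ (gn 3)).1 = -1
        · have hne : ((ρ (gn 3)).1 * (ρ (gn 5)).1).trace ≠ 0 := fun h0 => h ⟨hQ2, hT2, h0⟩
          have hne' : ((ρ (gn 5)).1 * (ρ (gn 3)).1).trace ≠ 0 := by
            rw [Matrix.trace_mul_comm]; exact hne
          refine finrank_le_of_perp ρ (ρ (gn 5)).1 (ρ (gn 3)).1 (mem_suLie_of_sq_neg _ hT2)
            (ne_zero_su _) (mem_suLie_of_sq_neg _ hQ2) (ne_zero_su _) (fun f => ?_) (fun f => ?_)
          · exact case_neg_neg _ _ _ (f.2.1 _).2 hT2 hQ2 hne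
              (key_central _ _ _ _ (f.2.1 _).2 (cocycle_relA ρ f) (adj_sq_of_neg _ hT2))
          · exact case_neg_neg _ _ _ (f.2.1 _).2 hQ2 hT2 hne'
              (key_central _ _ _ _ (f.2.1 _).2 (cocycle_relB ρ f) (adj_sq_of_neg _ hQ2))
        · exact bound_noncentral_q ρ hQ1 hQ2
    · exact bound_noncentral_t ρ hT1 hT2

/-- The rotated element cos θ T + sin θ Q. -/
theorem rot_mem (Q T : SUtwo) (hQ : Q.1 * Q.1 = -1) (hT : T.1 * T.1 = -1)
    (hQT : (Q.1 * T.1).trace = 0) (θ : ℝ) :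
    ((Real.cos θ : ℂ) • T.1 + (Real.sin θ : ℂ) • Q.1) ∈ Matrix.specialUnitaryGroup (Fin 2) ℂ ∧
    ((Real.cos θ : ℂ) • T.1 + (Real.sin θ : ℂ) • Q.1) *
      ((Real.cos θ : ℂ) • T.1 + (Real.sin θ : ℂ) • Q.1) = -1 := by
  have hQm := mem_suLie_of_sq_neg Q hQ
  have hTm := mem_suLie_of_sq_neg T hT
  set R : M2 := (Real.cos θ : ℂ) • T.1 + (Real.sin θ : ℂ) • Q.1 with hR
  have hanti : Q.1 * T.1 + T.1 * Q.1 = 0 := by
    rw [anticomm _ _ hQm.2 hTm.2, hQT, zero_smul]
  have hcs : (Real.cos θ : ℂ) * Real.cos θ + (Real.sin θ : ℂ) * Real.sin θ = 1 := by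
    have := Real.cos_sq_add_sin_sq θ
    have h2 : Real.cos θ * Real.cos θ + Real.sin θ * Real.sin θ = 1 := by nlinarith
    exact_mod_cast h2
  have hsq : R * R = -1 := by
    have h1 : R * R = ((Real.cos θ : ℂ) * Real.cos θ) • (T.1 * T.1) +
        ((Real.sin θ : ℂ) * Real.sin θ) • (Q.1 * Q.1) +
        ((Real.cos θ : ℂ) * Real.sin θ) • (Q.1 * T.1 + T.1 * Q.1) := by
      rw [hR]
      simp only [add_mul, mul_add, Matrix.smul_mul, Matrix.mul_smul, smul_smul, smul_add]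
      rw [mul_comm (Real.sin θ : ℂ) (Real.cos θ : ℂ)]
      abel
    rw [h1, hanti, hT, hQ, smul_zero, add_zero, ← add_smul, hcs, one_smul]
  have hherm : R.conjTranspose = -R := by
    rw [hR, Matrix.conjTranspose_add, Matrix.conjTranspose_smul, Matrix.conjTranspose_smul, hTm.1,
      hQm.1]
    have e1 : star ((Real.cos θ : ℝ) : ℂ) = ((Real.cos θ : ℝ) : ℂ) := Complex.conj_ofReal _
    have e2 : star ((Real.sin θ : ℝ) : ℂ) = ((Real.sin θ : ℝ) : ℂ) := Complex.conj_ofReal _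
    rw [e1, e2, smul_neg, smul_neg]
    abel
  have htr : R.trace = 0 := by
    rw [hR, Matrix.trace_add, Matrix.trace_smul, Matrix.trace_smul, hTm.2, hQm.2]
    simp
  refine ⟨?_, hsq⟩
  rw [Matrix.mem_specialUnitaryGroup_iff]
  constructor
  · rw [Matrix.mem_unitaryGroup_iff]
    show R * R.conjTranspose = 1
    rw [hherm, mul_neg, hsq, neg_neg]
  · have h1 : R 1 1 = -R 0 0 := by
      rw [Matrix.trace_fin_two] at htr; linear_combination htr
    have h2 := congrFun (congrFun hsq 0) 0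
    rw [Matrix.mul_apply, Fin.sum_univ_two] at h2
    rw [Matrix.det_fin_two, h1]
    have h3 : R 0 0 * R 0 0 + R 0 1 * R 1 0 = -1 := by rw [h2]; simp
    linear_combination -h3

theorem continuous_inv_su : Continuous (fun g : SUtwo => g⁻¹) := by
  refine Continuous.subtype_mk ?_ _
  exact continuous_subtype_val.star

/-- The flat connections with h^1 - h^0 ≤ 1 are dense. -/
theorem dense_small (V : Set (hwTree.PiOne → SUtwo)) (hV : IsOpen V) (hρ : (ρ : hwTree.PiOne → SUtwo) ∈ V) :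
    ∃ ρ' : hwTree.PiOne →* SUtwo, (ρ' : hwTree.PiOne → SUtwo) ∈ V ∧ h1 ρ' - h0 ρ' ≤ 1 := by
  by_cases h : ((ρ (gn 3)).1 * (ρ (gn 3)).1 = -1 ∧ (ρ (gn 5)).1 * (ρ (gn 5)).1 = -1 ∧
    ((ρ (gn 3)).1 * (ρ (gn 5)).1).trace = 0)
  swap
  · refine ⟨ρ, hρ, ?_⟩
    rw [h1_sub_h0]
    have := finrank_Z1_le ρ h
    omega
  obtain ⟨hQ, hT, hQT⟩ := h
  set Q := ρ (gn 3) with hQdef
  set T := ρ (gn 5) with hTdef
  let Tθ : ℝ → SUtwo := fun θ => ⟨_, (rot_mem Q T hQ hT hQT θ).1⟩
  have hTθ : ∀ θ, (Tθ θ).1 * (Tθ θ).1 = -1 := fun θ => (rot_mem Q T hQ hT hQT θ).2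
  choose R hR3 hR5 _ _ _ _ using fun θ : ℝ => exists_hom Q (Tθ θ) hQ (hTθ θ)
  have hcont : ∀ g, Continuous (fun θ => R θ g) := by
    let K : Subgroup hwTree.PiOne :=
      { carrier := {g | Continuous (fun θ => R θ g)}
        mul_mem' := by
          intro a b ha hb
          show Continuous (fun θ => R θ (a * b))
          have ha' : Continuous (fun θ => R θ a) := ha
          have hb' : Continuous (fun θ => R θ b) := hb
          simp only [map_mul]
          exact ha'.mul hb'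
        one_mem' := by
          show Continuous (fun θ => R θ 1)
          simp only [map_one]; exact continuous_const
        inv_mem' := by
          intro a ha
          show Continuous (fun θ => R θ a⁻¹)
          have ha' : Continuous (fun θ => R θ a) := ha
          simp only [map_inv]
          exact continuous_inv_su.comp ha' }
    have hK : K = ⊤ := by
      refine closure_qt K ?_ ?_
      · show Continuous (fun θ => R θ (gn 3))
        simp only [hR3]; exact continuous_const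
      · show Continuous (fun θ => R θ (gn 5))
        simp only [hR5]
        refine Continuous.subtype_mk ?_ _
        refine Continuous.add ?_ ?_
        · exact (Complex.continuous_ofReal.comp Real.continuous_cos).smul continuous_const
        · exact (Complex.continuous_ofReal.comp Real.continuous_sin).smul continuous_const
    intro g
    have : g ∈ K := by rw [hK]; trivial
    exact this
  have hR0 : R 0 = ρ := by
    have hK : MonoidHom.eqLocus (R 0) ρ = ⊤ := by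
      refine closure_qt _ ?_ ?_
      · show R 0 (gn 3) = ρ (gn 3)
        rw [hR3]
      · show R 0 (gn 5) = ρ (gn 5)
        rw [hR5]
        apply Subtype.ext
        show ((Real.cos 0 : ℝ) : ℂ) • T.1 + ((Real.sin 0 : ℝ) : ℂ) • Q.1 = T.1
        simp
    refine MonoidHom.ext fun g => ?_
    have : g ∈ MonoidHom.eqLocus (R 0) ρ := by rw [hK]; trivial
    exact this
  have hcont' : Continuous (fun θ => (R θ : hwTree.PiOne → SUtwo)) := continuous_pi hcont
  have hopen : IsOpen ((fun θ => (R θ : hwTree.PiOne → SUtwo)) ⁻¹' V) := hV.preimage hcont'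
  have hmem : (0 : ℝ) ∈ ((fun θ => (R θ : hwTree.PiOne → SUtwo)) ⁻¹' V) := by
    show (R 0 : hwTree.PiOne → SUtwo) ∈ V
    rw [hR0]; exact hρ
  have hev : ∀ᶠ θ in 𝓝[>] (0 : ℝ), (R θ : hwTree.PiOne → SUtwo) ∈ V :=
    nhdsWithin_le_nhds (hopen.mem_nhds hmem)
  have hev2 : ∀ᶠ θ in 𝓝[>] (0 : ℝ), θ ∈ Set.Ioo (0 : ℝ) 1 :=
    Ioo_mem_nhdsGT (by norm_num)
  obtain ⟨θ, hθ1, hθ2⟩ := (hev.and hev2).exists
  refine ⟨R θ, hθ1, ?_⟩
  rw [h1_sub_h0]
  have hsin : Real.sin θ ≠ 0 :=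
    (Real.sin_pos_of_pos_of_lt_pi hθ2.1 (by linarith [hθ2.2, Real.pi_gt_three])).ne'
  have := finrank_Z1_le (R θ) (by
    rintro ⟨_, _, h3⟩
    rw [hR3, hR5] at h3
    have h4 : (Q.1 * ((Real.cos θ : ℂ) • T.1 + (Real.sin θ : ℂ) • Q.1)).trace = 0 := h3
    rw [mul_add, Matrix.mul_smul, Matrix.mul_smul, hQ, Matrix.trace_add, Matrix.trace_smul, hQT,
      Matrix.trace_smul, Matrix.trace_neg, Matrix.trace_one] at h4
    apply hsin
    simp at h4
    exact_mod_cast h4)
  omega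

end H524R3
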