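import Mathlib
import Pool.Agent.H524R3.Defs

/-!
# Quantum invariants of links in plumbed 3-manifolds and their asymptotic expansions
-/

set_option autoImplicit false

open Finset

namespace H524R3

namespace PlumbingTree

variable {m : ℕ} (Γ : PlumbingTree m)

/-- The SU(2) Witten-Reshetikhin-Turaev invariant at level r - 2 of the pair (X, L), where X is the closed
oriented 3-manifold obtained by surgery on the plumbing link of Γ and L is the unknot of framing 0 in a ball
in X, coloured by the n-dimensional module (i.e. labelled by the weight n - 1), with Witten's normalisation,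
up to a factor of absolute value 1 depending on the signature of the plumbing link and on the 2-framing:
the Kirby-Melvin formula b * b^(m+1) * ∑ over colourings 1 ≤ k v ≤ r - 1 of ∏ [k v] * J, with
b = sqrt (2 / r) sin (π / r) and J the coloured Jones polynomial of the union of the plumbing link, whose
component v is coloured by k v, and of the distant unknot L, which is colouredJones r k * [n]. -/
noncomputable def wrtUnknot (r n : ℕ) : ℂ :=
  ((Real.sqrt (2 / r) * Real.sin (Real.pi / r) : ℝ) : ℂ) ^ (m + 2) *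
    ∑ k ∈ Fintype.piFinset (fun _ : Fin (m + 1) => Icc 1 (r - 1)),
      (∏ v, (qint r (k v) : ℂ)) * (Γ.colouredJones r k * (qint r n : ℂ))

theorem wrtUnknot_eq (r n : ℕ) : Γ.wrtUnknot r n = Γ.wrt r * (qint r n : ℂ) := by
  unfold wrtUnknot wrt
  rw [mul_assoc, Finset.sum_mul]
  congr 1
  exact Finset.sum_congr rfl fun k _ => by ring

end PlumbingTree

/-- The sequence Z s (s = 1, 2, 3, ...) of the invariants at the levels k = s k₀ has an asymptotic
expansion, in K = k + h (h the dual Coxeter number), of the form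
∑_{j} exp (2 π i K q_j) ∑_{i} K^(d_{j,i}) b_{j,i} (1 + ∑_{p=1}^P a_{j,i,p} K^(-p/2)) with an error of at most
C_P K^(d - (P+1)/2) for all s ≥ 1, for every P ≥ 0. Here j runs over 0, ..., v and i over 0, ..., u j, the
phases q_j and the exponents d_{j,i} are real, b_{j,i} and a_{j,i,p} are complex and d is the maximum of
the exponents d_{j,i}. -/
def HasLinkExpansion (h k₀ : ℕ) (Z : ℕ → ℂ) : Prop :=
  ∃ (v : ℕ) (q : Fin (v + 1) → ℝ) (u : Fin (v + 1) → ℕ) (d : (Σ j : Fin (v + 1), Fin (u j + 1)) → ℝ)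
    (b : (Σ j : Fin (v + 1), Fin (u j + 1)) → ℂ) (a : (Σ j : Fin (v + 1), Fin (u j + 1)) → ℕ → ℂ),
    ∀ P : ℕ, ∃ C : ℝ, ∀ s : ℕ, 1 ≤ s →
      ‖Z s - ∑ j, Complex.exp (2 * Real.pi * Complex.I * ((s * k₀ + h : ℕ) * (q j : ℂ))) *
          ∑ i : Fin (u j + 1), ((((s * k₀ + h : ℕ) : ℝ) ^ d ⟨j, i⟩ : ℝ) : ℂ) * b ⟨j, i⟩ *
            (1 + ∑ p ∈ Icc 1 P, a ⟨j, i⟩ p * ((((s * k₀ + h : ℕ) : ℝ) ^ (-(p : ℝ) / 2) : ℝ) : ℂ))‖ ≤
        C * ((s * k₀ + h : ℕ) : ℝ) ^ (univ.sup' univ_nonempty d - ((P : ℝ) + 1) / 2)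

end H524R3
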