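import Mathlib
import Pool.Agent.H524R3.NoExp

/-!
# Sequences of size between x^s and x^s log x are not finite sums of b * x^e * z^n, for x = x(n) → ∞
-/

set_option autoImplicit false

open Filter Topology Finset

namespace H524R3

theorem log_bound_little_o_gen (x : ℕ → ℝ) (hx : Tendsto x atTop atTop) (s e : ℝ) (h : s < e) :
    Tendsto (fun n : ℕ => (x n) ^ s * (1 + Real.log (x n)) / (x n) ^ e) atTop (𝓝 0) := by
  have hpos : 0 < e - s := by linarith
  have h1 : Tendsto (fun n : ℕ => ((x n) ^ (e - s))⁻¹) atTop (𝓝 0) := by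
    have : Tendsto (fun x : ℝ => (x ^ (e - s))⁻¹) atTop (𝓝 0) :=
      (tendsto_rpow_atTop hpos).inv_tendsto_atTop
    exact this.comp hx
  have h2 : Tendsto (fun n : ℕ => Real.log (x n) / (x n) ^ (e - s)) atTop (𝓝 0) := by
    have : Tendsto (fun x : ℝ => Real.log x / x ^ (e - s)) atTop (𝓝 0) :=
      (isLittleO_log_rpow_atTop hpos).tendsto_div_nhds_zero
    exact this.comp hx
  have h3 := h1.add h2
  rw [add_zero] at h3
  refine h3.congr' ?_
  filter_upwards [hx.eventually (eventually_gt_atTop 0)] with n hn'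
  rw [Real.rpow_sub hn']
  have := (Real.rpow_pos_of_pos hn' e).ne'
  have := (Real.rpow_pos_of_pos hn' s).ne'
  field_simp

theorem rpow_little_o_gen (x : ℕ → ℝ) (hx : Tendsto x atTop atTop) (s e : ℝ) (h : s < e) :
    Tendsto (fun n : ℕ => (x n) ^ s / (x n) ^ e) atTop (𝓝 0) := by
  have hpos : 0 < e - s := by linarith
  have h1 : Tendsto (fun n : ℕ => ((x n) ^ (e - s))⁻¹) atTop (𝓝 0) := by
    have : Tendsto (fun x : ℝ => (x ^ (e - s))⁻¹) atTop (𝓝 0) :=
      (tendsto_rpow_atTop hpos).inv_tendsto_atTop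
    exact this.comp hx
  refine h1.congr' ?_
  filter_upwards [hx.eventually (eventually_gt_atTop 0)] with n hn'
  rw [Real.rpow_sub hn']
  have := (Real.rpow_pos_of_pos hn' e).ne'
  have := (Real.rpow_pos_of_pos hn' s).ne'
  field_simp

/-- A sequence which is O(x^s log x) and differs by O(x^s) from a finite sum of terms
b * x^e * z^n (with |z| = 1 and arbitrary real exponents e), where x = x(n) → ∞, is O(x^s). -/
theorem bounded_of_expansion_gen (x : ℕ → ℝ) (hx : Tendsto x atTop atTop) (s : ℝ) (F : ℕ → ℂ) (C : ℝ)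
    (hF : ∀ᶠ n : ℕ in atTop, ‖F n‖ ≤ C * ((x n) ^ s * (1 + Real.log (x n))))
    {ι : Type*} (β z : ι → ℂ) (e : ι → ℝ) (hz : ∀ i, ‖z i‖ = 1) :
    ∀ (N : ℕ) (T : Finset ι), T.card ≤ N →
      (∃ C' : ℝ, ∀ᶠ n : ℕ in atTop,
        ‖F n - ∑ i ∈ T, β i * (((x n) ^ e i : ℝ) : ℂ) * z i ^ n‖ ≤ C' * (x n) ^ s) →
      ∃ C'' : ℝ, ∀ᶠ n : ℕ in atTop, ‖F n‖ ≤ C'' * (x n) ^ s := by
  classical
  intro N
  induction N with
  | zero =>
    intro T hT h
    have hT' : T = ∅ := Finset.card_eq_zero.mp (Nat.le_zero.mp hT)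
    subst hT'
    simpa using h
  | succ N ih =>
    intro T hT h
    by_cases hall : ∀ i ∈ T, e i ≤ s
    · obtain ⟨C', hC'⟩ := h
      refine ⟨C' + ∑ i ∈ T, ‖β i‖, ?_⟩
      filter_upwards [hC', hx.eventually (eventually_ge_atTop 1)] with n hn hn'
      have h1 : ‖F n‖ ≤ ‖F n - ∑ i ∈ T, β i * (((x n) ^ e i : ℝ) : ℂ) * z i ^ n‖ +
          ‖∑ i ∈ T, β i * (((x n) ^ e i : ℝ) : ℂ) * z i ^ n‖ := by
        have := norm_add_le (F n - ∑ i ∈ T, β i * (((x n) ^ e i : ℝ) : ℂ) * z i ^ n)
          (∑ i ∈ T, β i * (((x n) ^ e i : ℝ) : ℂ) * z i ^ n)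
        simpa using this
      have h2 : ‖∑ i ∈ T, β i * (((x n) ^ e i : ℝ) : ℂ) * z i ^ n‖ ≤
          (∑ i ∈ T, ‖β i‖) * (x n) ^ s := by
        rw [Finset.sum_mul]
        refine (norm_sum_le _ _).trans (Finset.sum_le_sum fun i hi => ?_)
        rw [norm_mul, norm_mul, norm_pow, hz, one_pow, mul_one, Complex.norm_real, Real.norm_eq_abs,
          abs_of_nonneg (Real.rpow_nonneg (by linarith) _)]
        exact mul_le_mul_of_nonneg_left
          (Real.rpow_le_rpow_of_exponent_le hn' (hall i hi)) (norm_nonneg _)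
      linarith [h1, h2, hn, add_mul C' (∑ i ∈ T, ‖β i‖) ((x n) ^ s)]
    · push Not at hall
      obtain ⟨i0, hi0, hi0s⟩ := hall
      obtain ⟨i1, hi1, hmax⟩ := Finset.exists_max_image T e ⟨i0, hi0⟩
      have he : s < e i1 := lt_of_lt_of_le hi0s (hmax i0 hi0)
      set T1 := T.filter (fun i => e i = e i1) with hT1
      set T2 := T.filter (fun i => ¬ e i = e i1) with hT2
      have hsplit : ∀ n : ℕ, ∑ i ∈ T, β i * (((x n) ^ e i : ℝ) : ℂ) * z i ^ n =
          (((x n) ^ e i1 : ℝ) : ℂ) * ∑ i ∈ T1, β i * z i ^ n +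
            ∑ i ∈ T2, β i * (((x n) ^ e i : ℝ) : ℂ) * z i ^ n := by
        intro n
        rw [← Finset.sum_filter_add_sum_filter_not T (fun i => e i = e i1), Finset.mul_sum]
        congr 1
        refine Finset.sum_congr rfl fun i hi => ?_
        rw [(Finset.mem_filter.mp hi).2]
        ring
      obtain ⟨C', hC'⟩ := h
      have hlim : Tendsto (fun n : ℕ => ∑ i ∈ T1, β i * z i ^ n) atTop (𝓝 0) := by
        have hb1 := (log_bound_little_o_gen x hx s (e i1) he).const_mul C
        have hb2 := (rpow_little_o_gen x hx s (e i1) he).const_mul C'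
        have hb3 : Tendsto (fun n : ℕ => ∑ i ∈ T2, ‖β i‖ * ((x n) ^ e i / (x n) ^ e i1)) atTop
            (𝓝 (∑ i ∈ T2, ‖β i‖ * 0)) := by
          refine tendsto_finsetSum T2 fun i hi => ?_
          have hi' := Finset.mem_filter.mp hi
          exact (rpow_little_o_gen x hx (e i) (e i1)
            (lt_of_le_of_ne (hmax i hi'.1) hi'.2)).const_mul _
        have hb := (hb1.add hb2).add hb3
        simp only [mul_zero, Finset.sum_const_zero, add_zero] at hb
        refine squeeze_zero_norm' ?_ hb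
        filter_upwards [hF, hC', hx.eventually (eventually_gt_atTop 0)] with n h1 h2 hn'
        have hp := Real.rpow_pos_of_pos hn' (e i1)
        have h3 : ‖(((x n) ^ e i1 : ℝ) : ℂ) * ∑ i ∈ T1, β i * z i ^ n‖ ≤
            C * ((x n) ^ s * (1 + Real.log (x n))) + C' * (x n) ^ s +
              ∑ i ∈ T2, ‖β i‖ * (x n) ^ e i := by
          have h4 : (((x n) ^ e i1 : ℝ) : ℂ) * ∑ i ∈ T1, β i * z i ^ n =
              F n - (F n - ∑ i ∈ T, β i * (((x n) ^ e i : ℝ) : ℂ) * z i ^ n) -
                ∑ i ∈ T2, β i * (((x n) ^ e i : ℝ) : ℂ) * z i ^ n := by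
            rw [hsplit n]; ring
          rw [h4]
          refine (norm_sub_le _ _).trans ?_
          refine add_le_add ((norm_sub_le _ _).trans (add_le_add h1 h2)) ?_
          refine (norm_sum_le _ _).trans (Finset.sum_le_sum fun i _ => ?_)
          rw [norm_mul, norm_mul, norm_pow, hz, one_pow, mul_one, Complex.norm_real,
            Real.norm_eq_abs, abs_of_nonneg (Real.rpow_nonneg hn'.le _)]
        rw [norm_mul, Complex.norm_real, Real.norm_eq_abs, abs_of_pos hp, mul_comm] at h3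
        have h5 := (le_div_iff₀ hp).mpr h3
        refine h5.trans (le_of_eq ?_)
        rw [add_div, add_div, Finset.sum_div]
        congr 1
        · congr 1
          · rw [mul_div_assoc]
          · rw [mul_div_assoc]
        · refine Finset.sum_congr rfl fun i _ => ?_
          rw [mul_div_assoc]
      have hzero := expSum_eq_zero T1 z (fun i _ => hz i) β hlim
      have hcard : T2.card ≤ N := by
        have h1 : T2 ⊂ T := by
          refine Finset.filter_ssubset.mpr ⟨i1, hi1, by simp⟩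
        have := Finset.card_lt_card h1
        omega
      refine ih T2 hcard ⟨C', ?_⟩
      filter_upwards [hC'] with n hn
      rw [hsplit n, hzero n, mul_zero, zero_add] at hn
      exact hn

end H524R3
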