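import Mathlib
import Pool.Agent.H524R3.NoExpGen
import Pool.Agent.H524R3.LinkDefs

/-!
# No expansion along k = s k₀ for sequences of size K^t log K
-/

set_option autoImplicit false

open Finset Filter Topology

namespace H524R3

theorem level_tendsto (h k₀ : ℕ) (hk : 1 ≤ k₀) :
    Tendsto (fun s : ℕ => ((s * k₀ + h : ℕ) : ℝ)) atTop atTop := by
  refine tendsto_natCast_atTop_atTop.comp ?_
  refine tendsto_atTop_mono (fun s => ?_) tendsto_id
  show s ≤ s * k₀ + h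
  nlinarith

theorem not_hasLinkExpansion (h k₀ : ℕ) (hk : 1 ≤ k₀) (t : ℝ) (F : ℕ → ℂ) (C : ℝ)
    (hF : ∀ᶠ s : ℕ in atTop, ‖F s‖ ≤ C * (((s * k₀ + h : ℕ) : ℝ) ^ t *
      (1 + Real.log ((s * k₀ + h : ℕ) : ℝ))))
    (hlim : Tendsto (fun s : ℕ => ‖F s‖ / ((s * k₀ + h : ℕ) : ℝ) ^ t) atTop atTop) :
    ¬ HasLinkExpansion h k₀ F := by
  rintro ⟨v, q, u, d, b, a, hexp⟩
  set D : ℝ := univ.sup' univ_nonempty d with hD
  obtain ⟨L, hL⟩ : ∃ L : ℕ, D - ((L : ℝ) + 1) / 2 ≤ t := by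
    obtain ⟨L, hL⟩ := exists_nat_ge (2 * (D - t))
    exact ⟨L, by linarith⟩
  obtain ⟨C₁, hC₁⟩ := hexp L
  have hx := level_tendsto h k₀ hk
  let ι := (Σ j : Fin (v + 1), Fin (u j + 1)) × ℕ
  let β : ι → ℂ := fun i => b i.1 * (if i.2 = 0 then 1 else a i.1 i.2) *
    Complex.exp (2 * Real.pi * Complex.I * (h * (q i.1.1 : ℂ)))
  let z : ι → ℂ := fun i => Complex.exp (2 * Real.pi * Complex.I * (k₀ * (q i.1.1 : ℂ)))
  let e : ι → ℝ := fun i => d i.1 - (i.2 : ℝ) / 2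
  have hz : ∀ i, ‖z i‖ = 1 := by
    intro i
    show ‖Complex.exp (2 * Real.pi * Complex.I * (k₀ * (q i.1.1 : ℂ)))‖ = 1
    rw [show 2 * (Real.pi : ℂ) * Complex.I * (k₀ * (q i.1.1 : ℂ)) =
        ((2 * Real.pi * (k₀ * q i.1.1) : ℝ) : ℂ) * Complex.I by
      push_cast; ring]
    exact Complex.norm_exp_ofReal_mul_I _
  have key := bounded_of_expansion_gen (fun s : ℕ => ((s * k₀ + h : ℕ) : ℝ)) hx t F C hF β z e hz _
    ((univ : Finset (Σ j : Fin (v + 1), Fin (u j + 1))) ×ˢ range (L + 1)) le_rfl ⟨|C₁|, ?_⟩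
  · obtain ⟨C'', hC''⟩ := key
    have h1 := hlim.eventually (eventually_gt_atTop C'')
    obtain ⟨n, hn1, hn2, hn3⟩ := (h1.and (hC''.and (hx.eventually (eventually_gt_atTop 0)))).exists
    have hp := Real.rpow_pos_of_pos hn3 t
    rw [lt_div_iff₀ hp] at hn1
    linarith
  · filter_upwards [eventually_ge_atTop 1, hx.eventually (eventually_ge_atTop 1)] with s hs hs1
    have h1 := hC₁ s hs
    have hsum : ∑ i ∈ (univ : Finset (Σ j : Fin (v + 1), Fin (u j + 1))) ×ˢ range (L + 1),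
          β i * ((((s * k₀ + h : ℕ) : ℝ) ^ e i : ℝ) : ℂ) * z i ^ s =
        ∑ j, Complex.exp (2 * Real.pi * Complex.I * ((s * k₀ + h : ℕ) * (q j : ℂ))) *
          ∑ i : Fin (u j + 1), ((((s * k₀ + h : ℕ) : ℝ) ^ d ⟨j, i⟩ : ℝ) : ℂ) * b ⟨j, i⟩ *
            (1 + ∑ p ∈ Icc 1 L, a ⟨j, i⟩ p * ((((s * k₀ + h : ℕ) : ℝ) ^ (-(p : ℝ) / 2) : ℝ) : ℂ)) := by
      rw [Finset.sum_product, Fintype.sum_sigma]
      refine Finset.sum_congr rfl fun j _ => ?_
      rw [Finset.mul_sum]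
      refine Finset.sum_congr rfl fun i _ => ?_
      have hzn : Complex.exp (2 * Real.pi * Complex.I * ((s * k₀ + h : ℕ) * (q j : ℂ))) =
          Complex.exp (2 * Real.pi * Complex.I * (h * (q j : ℂ))) *
            Complex.exp (2 * Real.pi * Complex.I * (k₀ * (q j : ℂ))) ^ s := by
        rw [← Complex.exp_nat_mul, ← Complex.exp_add]; congr 1; push_cast; ring
      have hr1 : range (L + 1) = insert 0 (Icc 1 L) := by
        ext x; simp only [mem_range, mem_insert, mem_Icc]; omega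
      rw [hr1, Finset.sum_insert (by simp), hzn, mul_add, mul_one, mul_add, Finset.mul_sum,
        Finset.mul_sum]
      congr 1
      · simp only [β, e, z]
        simp only [if_true, Nat.cast_zero, zero_div, sub_zero, mul_one]
        ring
      · refine Finset.sum_congr rfl fun l hl => ?_
        have hl0 : l ≠ 0 := by rw [mem_Icc] at hl; omega
        simp only [β, e, z, if_neg hl0]
        have hp : ((s * k₀ + h : ℕ) : ℝ) ^ (d ⟨j, i⟩ - (l : ℝ) / 2) =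
            ((s * k₀ + h : ℕ) : ℝ) ^ d ⟨j, i⟩ * ((s * k₀ + h : ℕ) : ℝ) ^ (-(l : ℝ) / 2) := by
          rw [← Real.rpow_add (by linarith)]; congr 1; ring
        rw [hp]
        generalize ((s * k₀ + h : ℕ) : ℝ) ^ d ⟨j, i⟩ = A
        generalize ((s * k₀ + h : ℕ) : ℝ) ^ (-(l : ℝ) / 2) = B
        push_cast
        ring
    rw [hsum]
    refine h1.trans ?_
    calc C₁ * ((s * k₀ + h : ℕ) : ℝ) ^ (D - ((L : ℝ) + 1) / 2)
        ≤ |C₁| * ((s * k₀ + h : ℕ) : ℝ) ^ (D - ((L : ℝ) + 1) / 2) :=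
          mul_le_mul_of_nonneg_right (le_abs_self _) (Real.rpow_nonneg (by linarith) _)
      _ ≤ |C₁| * ((s * k₀ + h : ℕ) : ℝ) ^ t :=
          mul_le_mul_of_nonneg_left (Real.rpow_le_rpow_of_exponent_le hs1 hL) (abs_nonneg _)

end H524R3
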