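import Mathlib
import Pool.Agent.H524R3.Asym
import Pool.Agent.H524R3.LinkDefs
import Pool.Agent.H524R3.LinkNoExp

/-!
# Growth of the invariant of the unknot in the Hantzsche-Wendt manifold
-/

set_option autoImplicit false

open Finset Filter Topology

namespace H524R3

theorem sin_pi_div_pos (r : ℕ) (hr : 2 ≤ r) : 0 < Real.sin (Real.pi / r) := by
  have hr' : (2 : ℝ) ≤ r := by exact_mod_cast hr
  apply Real.sin_pos_of_pos_of_lt_pi
  · have := Real.pi_pos; positivity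
  · rw [div_lt_iff₀ (by linarith)]; nlinarith [Real.pi_pos]

theorem qint_one (r : ℕ) (hr : 2 ≤ r) : qint r 1 = 1 := by
  unfold qint
  rw [Nat.cast_one, mul_one]
  exact div_self (sin_pi_div_pos r hr).ne'

theorem qint_top (r : ℕ) (hr : 2 ≤ r) : qint r (r - 1) = 1 := by
  unfold qint
  have hr' : (2 : ℝ) ≤ r := by exact_mod_cast hr
  have h1 : ((r - 1 : ℕ) : ℝ) = (r : ℝ) - 1 := by
    rw [Nat.cast_sub (by omega)]; simp
  have h2 : Real.pi * ((r - 1 : ℕ) : ℝ) / r = Real.pi - Real.pi / r := by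
    rw [h1]; field_simp
  rw [h2, Real.sin_pi_sub]
  exact div_self (sin_pi_div_pos r hr).ne'

theorem abs_qint_le (r n : ℕ) (hr : 2 ≤ r) : |qint r n| ≤ r := by
  have hr' : (2 : ℝ) ≤ r := by exact_mod_cast hr
  have hpos := sin_pi_div_pos r hr
  unfold qint
  rw [abs_div, abs_of_pos hpos, div_le_iff₀ hpos]
  have h1 := Real.abs_sin_le_one (Real.pi * n / r)
  have h2 : 2 / Real.pi * (Real.pi / r) ≤ Real.sin (Real.pi / r) := by
    apply Real.mul_le_sin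
    · have := Real.pi_pos; positivity
    · rw [div_le_div_iff₀ (by linarith) (by norm_num)]; nlinarith [Real.pi_pos]
  have h3 : 2 / Real.pi * (Real.pi / r) = 2 / r := by
    have := Real.pi_pos.ne'; field_simp
  rw [h3] at h2
  have h4 : (r : ℝ) * (2 / r) ≤ r * Real.sin (Real.pi / r) :=
    mul_le_mul_of_nonneg_left h2 (by linarith)
  have h5 : (r : ℝ) * (2 / r) = 2 := by field_simp
  linarith

variable (k₀ lam : ℕ)

theorem frac_tendsto (hk : 1 ≤ k₀) :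
    Tendsto (fun s : ℕ => ((s * lam + 1 : ℕ) : ℝ) / ((s * k₀ + 2 : ℕ) : ℝ)) atTop
      (𝓝 ((lam : ℝ) / k₀)) := by
  have hk' : (0 : ℝ) < k₀ := by exact_mod_cast hk
  have h1 : Tendsto (fun s : ℕ => (1 : ℝ) / (s : ℝ)) atTop (𝓝 0) := tendsto_one_div_atTop_nhds_zero_nat
  have h2 : Tendsto (fun s : ℕ => ((lam : ℝ) + 1 / (s : ℝ)) / ((k₀ : ℝ) + 2 * (1 / (s : ℝ)))) atTop
      (𝓝 (((lam : ℝ) + 0) / ((k₀ : ℝ) + 2 * 0))) := by
    refine Tendsto.div (h1.const_add _) ((h1.const_mul 2).const_add _) ?_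
    simpa using hk'.ne'
  rw [add_zero, mul_zero, add_zero] at h2
  refine h2.congr' ?_
  filter_upwards [eventually_ge_atTop 1] with s hs
  have hs' : (0 : ℝ) < s := by exact_mod_cast hs
  push_cast
  field_simp

theorem qint_lower (hk : 1 ≤ k₀) (h1 : 0 < lam) (h2 : lam < k₀) :
    ∃ c : ℝ, 0 < c ∧ ∀ᶠ s : ℕ in atTop,
      c * ((s * k₀ + 2 : ℕ) : ℝ) ≤ |qint (s * k₀ + 2) (s * lam + 1)| := by
  have hk' : (0 : ℝ) < k₀ := by exact_mod_cast hk
  have hpi := Real.pi_pos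
  have hsin : 0 < Real.sin (Real.pi * ((lam : ℝ) / k₀)) := by
    apply Real.sin_pos_of_pos_of_lt_pi
    · have : (0 : ℝ) < lam := by exact_mod_cast h1
      positivity
    · have h3 : (lam : ℝ) / k₀ < 1 := by
        rw [div_lt_one hk']; exact_mod_cast h2
      nlinarith
  have hlim : Tendsto (fun s : ℕ => Real.sin (Real.pi * (((s * lam + 1 : ℕ) : ℝ) /
      ((s * k₀ + 2 : ℕ) : ℝ)))) atTop (𝓝 (Real.sin (Real.pi * ((lam : ℝ) / k₀)))) :=
    (Real.continuous_sin.tendsto _).comp ((frac_tendsto k₀ lam hk).const_mul Real.pi)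
  have hev := hlim.eventually (lt_mem_nhds (half_lt_self hsin))
  refine ⟨Real.sin (Real.pi * ((lam : ℝ) / k₀)) / 2 / Real.pi, by positivity, ?_⟩
  filter_upwards [hev] with s hs
  have hr : 2 ≤ s * k₀ + 2 := by omega
  have hpos := sin_pi_div_pos (s * k₀ + 2) hr
  have hr0 : (0 : ℝ) < ((s * k₀ + 2 : ℕ) : ℝ) := by
    have : 0 < s * k₀ + 2 := by omega
    exact_mod_cast this
  unfold qint
  rw [abs_div, abs_of_pos hpos, le_div_iff₀ hpos]
  have h3 : Real.sin (Real.pi / ((s * k₀ + 2 : ℕ) : ℝ)) ≤ Real.pi / ((s * k₀ + 2 : ℕ) : ℝ) :=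
    Real.sin_le (by positivity)
  have h4 : Real.pi * ((s * lam + 1 : ℕ) : ℝ) / ((s * k₀ + 2 : ℕ) : ℝ) =
      Real.pi * (((s * lam + 1 : ℕ) : ℝ) / ((s * k₀ + 2 : ℕ) : ℝ)) := by ring
  rw [h4]
  calc Real.sin (Real.pi * ((lam : ℝ) / k₀)) / 2 / Real.pi * ((s * k₀ + 2 : ℕ) : ℝ) *
        Real.sin (Real.pi / ((s * k₀ + 2 : ℕ) : ℝ))
      ≤ Real.sin (Real.pi * ((lam : ℝ) / k₀)) / 2 / Real.pi * ((s * k₀ + 2 : ℕ) : ℝ) *
          (Real.pi / ((s * k₀ + 2 : ℕ) : ℝ)) := mul_le_mul_of_nonneg_left h3 (by positivity)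
    _ = Real.sin (Real.pi * ((lam : ℝ) / k₀)) / 2 := by field_simp
    _ ≤ Real.sin (Real.pi * (((s * lam + 1 : ℕ) : ℝ) / ((s * k₀ + 2 : ℕ) : ℝ))) := hs.le
    _ ≤ _ := le_abs_self _

/-- The growth of the invariants of (Hantzsche-Wendt manifold, unknot). -/
theorem link_growth (hk : 1 ≤ k₀) (hl : lam ≤ k₀) :
    ∃ t C : ℝ, (∀ᶠ s : ℕ in atTop, ‖hwTree.wrtUnknot (s * k₀ + 2) (s * lam + 1)‖ ≤
        C * (((s * k₀ + 2 : ℕ) : ℝ) ^ t * (1 + Real.log ((s * k₀ + 2 : ℕ) : ℝ)))) ∧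
      Tendsto (fun s : ℕ => ‖hwTree.wrtUnknot (s * k₀ + 2) (s * lam + 1)‖ /
        ((s * k₀ + 2 : ℕ) : ℝ) ^ t) atTop atTop := by
  have hx : Tendsto (fun s : ℕ => s * k₀ + 2) atTop atTop := by
    refine tendsto_atTop_mono (fun s => ?_) tendsto_id
    show s ≤ s * k₀ + 2
    nlinarith
  have hnorm : ∀ s : ℕ, ‖hwTree.wrtUnknot (s * k₀ + 2) (s * lam + 1)‖ =
      ‖hwTree.wrt (s * k₀ + 2)‖ * |qint (s * k₀ + 2) (s * lam + 1)| := by
    intro s
    rw [PlumbingTree.wrtUnknot_eq, norm_mul, Complex.norm_real, Real.norm_eq_abs]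
  have hbase : Tendsto (fun s : ℕ => ‖hwTree.wrt (s * k₀ + 2)‖ / ((s * k₀ + 2 : ℕ) : ℝ) ^ (1 / 2 : ℝ))
      atTop atTop := norm_wrt_tendsto.comp hx
  by_cases hmid : 0 < lam ∧ lam < k₀
  · obtain ⟨c, hc, hlow⟩ := qint_lower k₀ lam hk hmid.1 hmid.2
    refine ⟨3 / 2, Real.sqrt 2, ?_, ?_⟩
    · filter_upwards with s
      rw [hnorm]
      have hr : 2 ≤ s * k₀ + 2 := by omega
      have hr0 : (0 : ℝ) < ((s * k₀ + 2 : ℕ) : ℝ) := by
        have : 0 < s * k₀ + 2 := by omega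
        exact_mod_cast this
      have h1 := norm_wrt_le (s * k₀ + 2) hr
      have h2 := abs_qint_le (s * k₀ + 2) (s * lam + 1) hr
      have h3 : ((s * k₀ + 2 : ℕ) : ℝ) ^ (3 / 2 : ℝ) =
          ((s * k₀ + 2 : ℕ) : ℝ) ^ (1 / 2 : ℝ) * ((s * k₀ + 2 : ℕ) : ℝ) := by
        rw [show (3 / 2 : ℝ) = 1 / 2 + 1 by norm_num, Real.rpow_add hr0, Real.rpow_one]
      rw [h3]
      calc _ ≤ Real.sqrt 2 * (((s * k₀ + 2 : ℕ) : ℝ) ^ (1 / 2 : ℝ) *
            (1 + Real.log ((s * k₀ + 2 : ℕ) : ℝ))) * ((s * k₀ + 2 : ℕ) : ℝ) :=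
            mul_le_mul h1 h2 (abs_nonneg _) ((norm_nonneg _).trans h1)
        _ = _ := by ring
    · refine tendsto_atTop_mono' _ ?_ (hbase.atTop_mul_const hc)
      filter_upwards [hlow] with s hs
      have hr0 : (0 : ℝ) < ((s * k₀ + 2 : ℕ) : ℝ) := by
        have : 0 < s * k₀ + 2 := by omega
        exact_mod_cast this
      have h3 : ((s * k₀ + 2 : ℕ) : ℝ) ^ (3 / 2 : ℝ) =
          ((s * k₀ + 2 : ℕ) : ℝ) ^ (1 / 2 : ℝ) * ((s * k₀ + 2 : ℕ) : ℝ) := by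
        rw [show (3 / 2 : ℝ) = 1 / 2 + 1 by norm_num, Real.rpow_add hr0, Real.rpow_one]
      rw [hnorm, h3, mul_div_mul_comm]
      apply mul_le_mul_of_nonneg_left _ (by positivity)
      rw [le_div_iff₀ hr0]
      exact hs
  · have hq : ∀ s : ℕ, |qint (s * k₀ + 2) (s * lam + 1)| = 1 := by
      intro s
      have hr : 2 ≤ s * k₀ + 2 := by omega
      have hcase : lam = 0 ∨ lam = k₀ := by omega
      rcases hcase with h0 | h0
      · rw [h0, mul_zero, zero_add, qint_one _ hr, abs_one]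
      · have h1 : s * lam + 1 = s * k₀ + 2 - 1 := by rw [h0]; omega
        rw [h1, qint_top _ hr, abs_one]
    refine ⟨1 / 2, Real.sqrt 2, ?_, ?_⟩
    · filter_upwards with s
      rw [hnorm, hq, mul_one]
      exact norm_wrt_le (s * k₀ + 2) (by omega)
    · simp only [hnorm, hq, mul_one]
      exact hbase

end H524R3
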