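import Mathlib

/-!
# Nilsequences and approximate nilsequences in two variables
-/

set_option autoImplicit false

open MeasureTheory Filter Topology ENNReal

namespace H524R3

/-- The sequence a : ℕ² → ℂ (only the values at m, n ≥ 1 matter) is an s-step nilsequence in 2 variables:
a (m, n) = Ψ (τ₁^m τ₂^n e_Y) with Y = G / Γ compact, G a topological group which is nilpotent of class at
most s, Ψ continuous on Y, τ₁ and τ₂ commuting elements of G and e_Y the image of the identity. (G need not be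
a Lie group and Γ need not be discrete, so this class contains the s-step nilsequences.) -/
def IsNilseq (s : ℕ) (a : ℕ → ℕ → ℂ) : Prop :=
  ∃ (G : Type) (_ : Group G) (_ : TopologicalSpace G) (_ : IsTopologicalGroup G) (_ : Group.IsNilpotent G)
    (Γ : Subgroup G) (_ : CompactSpace (G ⧸ Γ)) (Ψ : C(G ⧸ Γ, ℂ)) (τ₁ τ₂ : G),
    Group.nilpotencyClass G ≤ s ∧ Commute τ₁ τ₂ ∧
      ∀ m n : ℕ, 1 ≤ m → 1 ≤ n → a m n = Ψ ((τ₁ ^ m * τ₂ ^ n : G) : G ⧸ Γ)

/-- The translate I + k in ℤ² of the finite subset I of ℕ². -/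
def translate (I : Finset (ℕ × ℕ)) (k : ℤ × ℤ) : Finset (ℤ × ℤ) :=
  I.image fun v => ((v.1 : ℤ) + k.1, (v.2 : ℤ) + k.2)

/-- Følner sequences in {1, 2, 3, ...}². -/
def IsFolner (I : ℕ → Finset (ℕ × ℕ)) : Prop :=
  (∀ j, (I j).Nonempty) ∧ (∀ j, ∀ v ∈ I j, 1 ≤ v.1 ∧ 1 ≤ v.2) ∧
    ∀ k : ℤ × ℤ, Tendsto (fun j => ((symmDiff (translate (I j) k) (translate (I j) 0)).card : ℝ) /
      ((I j).card : ℝ)) atTop (𝓝 0)

/-- The seminorm ‖a‖₂: the square root of the supremum over all Følner sequences (I_j) of the upper limit of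
the averages of |a|² over I_j. -/
noncomputable def seminormTwo (a : ℕ → ℕ → ℂ) : ℝ≥0∞ :=
  (⨆ I : {I : ℕ → Finset (ℕ × ℕ) // IsFolner I},
    limsup (fun j => (∑ v ∈ I.1 j, ‖a v.1 v.2‖ₑ ^ 2) / ((I.1 j).card : ℝ≥0∞)) atTop) ^ (1 / 2 : ℝ)

/-- The bounded sequence a is an approximate s-step nilsequence in 2 variables: for every ε > 0 one can write
a = a_st + a_er with a_st an s-step nilsequence in 2 variables with ‖a_st‖_∞ ≤ ‖a‖_∞ and ‖a_er‖₂ ≤ ε. -/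
def IsApproxNilseq (s : ℕ) (a : ℕ → ℕ → ℂ) : Prop :=
  ∀ ε : ℝ, 0 < ε → ∃ ast aer : ℕ → ℕ → ℂ,
    (∀ m n, 1 ≤ m → 1 ≤ n → a m n = ast m n + aer m n) ∧ IsNilseq s ast ∧
      (∀ C : ℝ, (∀ m n, 1 ≤ m → 1 ≤ n → ‖a m n‖ ≤ C) → ∀ m n, 1 ≤ m → 1 ≤ n → ‖ast m n‖ ≤ C) ∧
        seminormTwo aer ≤ ENNReal.ofReal ε

end H524R3
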