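import Mathlib
import Pool.Agent.H524R3.NilDefs

/-!
# Squares form Følner sequences; consequences of a bound on the seminorm
-/

set_option autoImplicit false

open MeasureTheory Filter Topology ENNReal

namespace H524R3

/-- The square [1 + c, N + 1 + c] × [1, N + 1]. -/
def sq (c N : ℕ) : Finset (ℕ × ℕ) := Finset.Icc (1 + c) (N + 1 + c) ×ˢ Finset.Icc 1 (N + 1)

theorem sq_card (c N : ℕ) : (sq c N).card = (N + 1) * (N + 1) := by
  unfold sq
  rw [Finset.card_product, Nat.card_Icc, Nat.card_Icc]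
  congr 1 <;> omega

theorem translate_sq (c N : ℕ) (k : ℤ × ℤ) :
    translate (sq c N) k = Finset.Icc (1 + (c : ℤ) + k.1) ((N : ℤ) + 1 + c + k.1) ×ˢ
      Finset.Icc (1 + k.2) ((N : ℤ) + 1 + k.2) := by
  ext ⟨x, y⟩
  simp only [translate, sq, Finset.mem_image, Finset.mem_product, Finset.mem_Icc, Prod.exists,
    Prod.mk.injEq]
  constructor
  · rintro ⟨a, b, ⟨⟨h1, h2⟩, h3, h4⟩, h5, h6⟩
    omega
  · rintro ⟨⟨h1, h2⟩, h3, h4⟩
    refine ⟨(x - k.1).toNat, (y - k.2).toNat, ⟨⟨?_, ?_⟩, ?_, ?_⟩, ?_, ?_⟩ <;> omega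

theorem card_symm_le (c N : ℕ) (k : ℤ × ℤ) :
    ((symmDiff (translate (sq c N) k) (translate (sq c N) 0)).card : ℝ) ≤
      2 * (|(k.1 : ℝ)| + |(k.2 : ℝ)|) * ((N : ℝ) + 1) := by
  rw [translate_sq, translate_sq]
  set s := Finset.Icc (1 + (c : ℤ) + k.1) ((N : ℤ) + 1 + c + k.1) ×ˢ
      Finset.Icc (1 + k.2) ((N : ℤ) + 1 + k.2) with hs
  set t := Finset.Icc (1 + (c : ℤ) + (0 : ℤ × ℤ).1) ((N : ℤ) + 1 + c + (0 : ℤ × ℤ).1) ×ˢ
      Finset.Icc (1 + (0 : ℤ × ℤ).2) ((N : ℤ) + 1 + (0 : ℤ × ℤ).2) with ht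
  have hsc : s.card = (N + 1) * (N + 1) := by
    rw [hs, Finset.card_product, Int.card_Icc, Int.card_Icc]
    congr 1 <;> omega
  have htc : t.card = (N + 1) * (N + 1) := by
    rw [ht, Finset.card_product, Int.card_Icc, Int.card_Icc]
    simp only [Prod.fst_zero, Prod.snd_zero]
    congr 1 <;> omega
  have hic : (s ∩ t).card = (N + 1 - k.1.natAbs) * (N + 1 - k.2.natAbs) := by
    have hinter : s ∩ t = Finset.Icc (max (1 + (c : ℤ) + k.1) (1 + c)) (min ((N : ℤ) + 1 + c + k.1)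
        (N + 1 + c)) ×ˢ Finset.Icc (max (1 + k.2) 1) (min ((N : ℤ) + 1 + k.2) (N + 1)) := by
      rw [hs, ht]
      ext ⟨x, y⟩
      simp only [Finset.mem_inter, Finset.mem_product, Finset.mem_Icc, Prod.fst_zero, Prod.snd_zero]
      omega
    rw [hinter, Finset.card_product, Int.card_Icc, Int.card_Icc]
    congr 1 <;> omega
  have h1 := Finset.card_sdiff_add_card_inter s t
  have h2 := Finset.card_sdiff_add_card_inter t s
  rw [Finset.inter_comm t s] at h2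
  have h3 : (symmDiff s t).card ≤ (s \ t).card + (t \ s).card := by
    show ((s \ t) ∪ (t \ s)).card ≤ _
    exact Finset.card_union_le _ _
  have h3' : ((symmDiff s t).card : ℝ) ≤ ((s \ t).card : ℝ) + ((t \ s).card : ℝ) := by
    exact_mod_cast h3
  have h1' : ((s \ t).card : ℝ) + ((s ∩ t).card : ℝ) = ((N : ℝ) + 1) * (N + 1) := by
    have : (s \ t).card + (s ∩ t).card = (N + 1) * (N + 1) := by rw [h1, hsc]
    exact_mod_cast this
  have h2' : ((t \ s).card : ℝ) + ((s ∩ t).card : ℝ) = ((N : ℝ) + 1) * (N + 1) := by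
    have : (t \ s).card + (s ∩ t).card = (N + 1) * (N + 1) := by rw [h2, htc]
    exact_mod_cast this
  have hk1 : |(k.1 : ℝ)| = (k.1.natAbs : ℝ) := by
    rw [← Int.cast_abs, Int.abs_eq_natAbs]; simp
  have hk2 : |(k.2 : ℝ)| = (k.2.natAbs : ℝ) := by
    rw [← Int.cast_abs, Int.abs_eq_natAbs]; simp
  have h4 : ((N : ℝ) + 1) * (N + 1) - ((k.1.natAbs : ℝ) + k.2.natAbs) * (N + 1) ≤
      ((s ∩ t).card : ℝ) := by
    rw [hic]
    have hN : (0 : ℝ) ≤ N := Nat.cast_nonneg N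
    have ha : (0 : ℝ) ≤ (k.1.natAbs : ℝ) := Nat.cast_nonneg _
    have hb : (0 : ℝ) ≤ (k.2.natAbs : ℝ) := Nat.cast_nonneg _
    by_cases hA : k.1.natAbs ≤ N + 1
    · by_cases hB : k.2.natAbs ≤ N + 1
      · push_cast [Nat.cast_sub hA, Nat.cast_sub hB]
        nlinarith
      · have hB' : (N : ℝ) + 1 ≤ (k.2.natAbs : ℝ) := by
          have : N + 1 ≤ k.2.natAbs := by omega
          exact_mod_cast this
        have h0 : (0 : ℝ) ≤ (((N + 1 - k.1.natAbs) * (N + 1 - k.2.natAbs) : ℕ) : ℝ) :=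
          Nat.cast_nonneg _
        nlinarith
    · have hA' : (N : ℝ) + 1 ≤ (k.1.natAbs : ℝ) := by
        have : N + 1 ≤ k.1.natAbs := by omega
        exact_mod_cast this
      have h0 : (0 : ℝ) ≤ (((N + 1 - k.1.natAbs) * (N + 1 - k.2.natAbs) : ℕ) : ℝ) :=
        Nat.cast_nonneg _
      nlinarith
  rw [hk1, hk2]
  linarith

theorem isFolner_sq (c : ℕ) : IsFolner (sq c) := by
  refine ⟨fun j => ?_, fun j v hv => ?_, fun k => ?_⟩
  · rw [← Finset.card_pos, sq_card]; positivity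
  · simp only [sq, Finset.mem_product, Finset.mem_Icc] at hv
    omega
  · have hlim : Tendsto (fun N : ℕ => 2 * (|(k.1 : ℝ)| + |(k.2 : ℝ)|) * (1 / ((N : ℝ) + 1))) atTop
        (𝓝 (2 * (|(k.1 : ℝ)| + |(k.2 : ℝ)|) * 0)) :=
      tendsto_one_div_add_atTop_nhds_zero_nat.const_mul _
    rw [mul_zero] at hlim
    refine squeeze_zero (fun N => by positivity) (fun N => ?_) hlim
    rw [sq_card]
    have hN : (0 : ℝ) < (N : ℝ) + 1 := by positivity
    push_cast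
    rw [div_le_iff₀ (by positivity)]
    have := card_symm_le c N k
    calc _ ≤ _ := this
      _ = 2 * (|(k.1 : ℝ)| + |(k.2 : ℝ)|) * (1 / ((N : ℝ) + 1)) * (((N : ℝ) + 1) * ((N : ℝ) + 1)) := by
        field_simp

theorem eventually_sum_le (b : ℕ → ℕ → ℂ) (ε η : ℝ) (hε : 0 ≤ ε) (hη : 0 < η)
    (hb : seminormTwo b ≤ ENNReal.ofReal ε) (I : ℕ → Finset (ℕ × ℕ)) (hI : IsFolner I) :
    ∀ᶠ j in atTop, ∑ v ∈ I j, ‖b v.1 v.2‖ ^ 2 ≤ (ε ^ 2 + η) * ((I j).card : ℝ) := by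
  have h1 : limsup (fun j => (∑ v ∈ I j, ‖b v.1 v.2‖ₑ ^ 2) / ((I j).card : ℝ≥0∞)) atTop ≤
      ENNReal.ofReal (ε ^ 2) := by
    have h2 : limsup (fun j => (∑ v ∈ I j, ‖b v.1 v.2‖ₑ ^ 2) / ((I j).card : ℝ≥0∞)) atTop ≤
        ⨆ I : {I : ℕ → Finset (ℕ × ℕ) // IsFolner I},
          limsup (fun j => (∑ v ∈ I.1 j, ‖b v.1 v.2‖ₑ ^ 2) / ((I.1 j).card : ℝ≥0∞)) atTop :=
      le_iSup (fun I : {I : ℕ → Finset (ℕ × ℕ) // IsFolner I} =>
          limsup (fun j => (∑ v ∈ I.1 j, ‖b v.1 v.2‖ₑ ^ 2) / ((I.1 j).card : ℝ≥0∞)) atTop) ⟨I, hI⟩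
    refine h2.trans ?_
    unfold seminormTwo at hb
    set S := ⨆ I : {I : ℕ → Finset (ℕ × ℕ) // IsFolner I},
          limsup (fun j => (∑ v ∈ I.1 j, ‖b v.1 v.2‖ₑ ^ 2) / ((I.1 j).card : ℝ≥0∞)) atTop with hS
    have h3 : S = (S ^ (1 / 2 : ℝ)) ^ (2 : ℝ) := by
      rw [← ENNReal.rpow_mul]; norm_num
    rw [h3, ENNReal.ofReal_pow hε, ← ENNReal.rpow_natCast]
    exact ENNReal.rpow_le_rpow hb (by norm_num)
  have h4 : limsup (fun j => (∑ v ∈ I j, ‖b v.1 v.2‖ₑ ^ 2) / ((I j).card : ℝ≥0∞)) atTop <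
      ENNReal.ofReal (ε ^ 2 + η) := by
    refine lt_of_le_of_lt h1 ?_
    rw [ENNReal.ofReal_lt_ofReal_iff (by positivity)]
    linarith
  filter_upwards [Filter.eventually_lt_of_limsup_lt h4] with j hj
  have hc : (I j).card ≠ 0 := by
    have := hI.1 j
    rw [← Finset.card_pos] at this
    omega
  have hc' : (0 : ℝ) < ((I j).card : ℝ) := by
    have : 0 < (I j).card := Nat.pos_of_ne_zero hc
    exact_mod_cast this
  have h5 : (∑ v ∈ I j, ‖b v.1 v.2‖ₑ ^ 2) = ENNReal.ofReal (∑ v ∈ I j, ‖b v.1 v.2‖ ^ 2) := by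
    rw [ENNReal.ofReal_sum_of_nonneg (fun v _ => by positivity)]
    refine Finset.sum_congr rfl fun v _ => ?_
    rw [ENNReal.ofReal_pow (norm_nonneg _), ofReal_norm]
  have h6 : ((I j).card : ℝ≥0∞) = ENNReal.ofReal ((I j).card : ℝ) := by
    rw [ENNReal.ofReal_natCast]
  rw [h5, h6, ← ENNReal.ofReal_div_of_pos hc', ENNReal.ofReal_lt_ofReal_iff (by positivity)] at hj
  rw [div_lt_iff₀ hc'] at hj
  exact hj.le

end H524R3
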