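import Mathlib
import Pool.Agent.H524R3.NilDefs

/-!
# 1-step nilsequences in two variables almost return under shifts of the first variable
-/

set_option autoImplicit false

open Filter Topology

namespace H524R3

theorem nilseq_recur (ψ : ℕ → ℕ → ℂ) (h : IsNilseq 1 ψ) (δ : ℝ) (hδ : 0 < δ) :
    ∃ k l : ℕ, k < l ∧ ∀ m n, 1 ≤ m → 1 ≤ n → ‖ψ (m + l) n - ψ (m + k) n‖ ≤ δ := by
  obtain ⟨G, i1, i2, i3, i4, Γ, i5, Ψ, τ₁, τ₂, hc, -, hψ⟩ := h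
  have hcomm : ∀ a b : G, a * b = b * a :=
    fun a b => (commGroupOfNilpotencyClass hc).mul_comm a b
  let F : G × (G ⧸ Γ) → ℝ := fun p => ‖Ψ (p.1 • p.2) - Ψ p.2‖
  have hF : Continuous F := by
    refine Continuous.norm (Continuous.sub ?_ ?_)
    · exact Ψ.continuous.comp continuous_smul
    · exact Ψ.continuous.comp continuous_snd
  have hopen : IsOpen (F ⁻¹' Set.Iio (δ / 2)) := isOpen_Iio.preimage hF
  have hsub : ({1} : Set G) ×ˢ (Set.univ : Set (G ⧸ Γ)) ⊆ F ⁻¹' Set.Iio (δ / 2) := by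
    rintro ⟨u, y⟩ ⟨hu, -⟩
    have hu1 : u = 1 := hu
    show ‖Ψ (u • y) - Ψ y‖ < δ / 2
    rw [hu1, one_smul, sub_self, norm_zero]
    linarith
  obtain ⟨U, V, hU, -, h1U, hV, hUV⟩ := generalized_tube_lemma isCompact_singleton isCompact_univ hopen hsub
  have hUd : ∀ u ∈ U, ∀ y : G ⧸ Γ, ‖Ψ (u • y) - Ψ y‖ < δ / 2 := by
    intro u hu y
    exact hUV (Set.mk_mem_prod hu (hV (Set.mem_univ y)))
  obtain ⟨y, hy⟩ := exists_clusterPt_of_compactSpace (Filter.map (fun k : ℕ => ((τ₁ ^ k : G) : G ⧸ Γ)) atTop)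
  obtain ⟨g, rfl⟩ := QuotientGroup.mk_surjective y
  have hnb : (fun u : G => ((u * g : G) : G ⧸ Γ)) '' U ∈ 𝓝 ((g : G) : G ⧸ Γ) := by
    have hop : IsOpen ((fun u : G => ((u * g : G) : G ⧸ Γ)) '' U) := by
      have : (fun u : G => ((u * g : G) : G ⧸ Γ)) '' U =
          (QuotientGroup.mk : G → G ⧸ Γ) '' ((fun u : G => u * g) '' U) := by
        rw [Set.image_image]
      rw [this]
      exact QuotientGroup.isOpenMap_coe _ ((isOpenMap_mul_right g) _ hU)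
    refine hop.mem_nhds ⟨1, h1U rfl, ?_⟩
    simp
  have hfr : ∃ᶠ k : ℕ in atTop, ((τ₁ ^ k : G) : G ⧸ Γ) ∈ (fun u : G => ((u * g : G) : G ⧸ Γ)) '' U :=
    MapClusterPt.frequently (F := atTop) (u := fun k : ℕ => ((τ₁ ^ k : G) : G ⧸ Γ)) hy
      (p := fun z => z ∈ (fun u : G => ((u * g : G) : G ⧸ Γ)) '' U) hnb
  obtain ⟨k, hk⟩ := hfr.exists
  obtain ⟨l, hl, hkl⟩ := (hfr.and_eventually (eventually_gt_atTop k)).exists
  obtain ⟨u, hu, hu'⟩ := hk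
  obtain ⟨w, hw, hw'⟩ := hl
  refine ⟨k, l, hkl, fun m n hm hn => ?_⟩
  have key : ∀ (j : ℕ) (v : G), ((v * g : G) : G ⧸ Γ) = ((τ₁ ^ j : G) : G ⧸ Γ) →
      ψ (m + j) n = Ψ (v • (((τ₁ ^ m * τ₂ ^ n) * g : G) : G ⧸ Γ)) := by
    intro j v hv
    rw [hψ (m + j) n (by omega) hn]
    congr 1
    have e1 : τ₁ ^ (m + j) * τ₂ ^ n = (τ₁ ^ m * τ₂ ^ n) * τ₁ ^ j := by
      rw [pow_add, mul_assoc, mul_assoc, hcomm (τ₁ ^ j)]
    have e2 : (((τ₁ ^ m * τ₂ ^ n) * τ₁ ^ j : G) : G ⧸ Γ) = (τ₁ ^ m * τ₂ ^ n) • ((τ₁ ^ j : G) : G ⧸ Γ) := rfl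
    rw [e1, e2, ← hv]
    show (((τ₁ ^ m * τ₂ ^ n) * (v * g) : G) : G ⧸ Γ) = ((v * ((τ₁ ^ m * τ₂ ^ n) * g) : G) : G ⧸ Γ)
    congr 1
    rw [← mul_assoc, ← mul_assoc, hcomm (τ₁ ^ m * τ₂ ^ n) v]
  rw [key l w hw', key k u hu']
  set z : G ⧸ Γ := (((τ₁ ^ m * τ₂ ^ n) * g : G) : G ⧸ Γ)
  have h1 := hUd w hw z
  have h2 := hUd u hu z
  have h3 : Ψ (w • z) - Ψ (u • z) = (Ψ (w • z) - Ψ z) - (Ψ (u • z) - Ψ z) := by ring
  rw [h3]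
  have h4 := norm_sub_le (Ψ (w • z) - Ψ z) (Ψ (u • z) - Ψ z)
  linarith

end H524R3
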