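import Mathlib
import Pool.Agent.H524R3.NilFolner
import Pool.Agent.H524R3.NilRecur

/-!
# A quadratic phase in two variables is not an approximate 1-step nilsequence
-/

set_option autoImplicit false

open Filter Topology

namespace H524R3

/-- The sequence e(α ((m - n)² - (m + n))). -/
noncomputable def quadSeq (α : ℝ) (m n : ℕ) : ℂ :=
  Complex.exp (2 * Real.pi * Complex.I * (α * (((m : ℂ) - n) ^ 2 - (m + n))))

theorem norm_expI (x : ℝ) : ‖Complex.exp (2 * Real.pi * Complex.I * (x : ℂ))‖ = 1 := by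
  rw [show 2 * (Real.pi : ℂ) * Complex.I * (x : ℂ) = ((2 * Real.pi * x : ℝ) : ℂ) * Complex.I by
    push_cast; ring]
  exact Complex.norm_exp_ofReal_mul_I _

theorem norm_quadSeq (α : ℝ) (m n : ℕ) : ‖quadSeq α m n‖ = 1 := by
  have := norm_expI (α * (((m : ℝ) - n) ^ 2 - (m + n)))
  unfold quadSeq
  rw [← this]
  push_cast
  rfl

theorem geom_bound (z : ℂ) (hz : ‖z‖ = 1) (hz1 : z ≠ 1) (M : ℕ) :
    ‖∑ m ∈ Finset.Icc 1 M, z ^ m‖ ≤ 2 / ‖z - 1‖ := by
  have h1 : ∑ m ∈ Finset.Icc 1 M, z ^ m = z * ((z ^ M - 1) / (z - 1)) := by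
    rw [← geom_sum_eq hz1, Finset.mul_sum]
    have : Finset.Icc 1 M = (Finset.range M).image (· + 1) := by
      ext x; simp only [Finset.mem_Icc, Finset.mem_image, Finset.mem_range]
      constructor
      · intro h; exact ⟨x - 1, by omega, by omega⟩
      · rintro ⟨y, h1, h2⟩; omega
    rw [this, Finset.sum_image (by intro a _ b _ h; simpa using h)]
    exact Finset.sum_congr rfl fun i _ => by ring
  rw [h1, norm_mul, hz, one_mul, norm_div]
  have hpos : 0 < ‖z - 1‖ := norm_pos_iff.mpr (sub_ne_zero.mpr hz1)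
  apply div_le_div_of_nonneg_right _ hpos.le
  have := norm_sub_le (z ^ M) 1
  rw [norm_pow, hz, one_pow, norm_one] at this
  linarith

theorem zed_ne_one (α : ℝ) (hα : Irrational α) (k l : ℕ) (hkl : k < l) :
    Complex.exp (2 * Real.pi * Complex.I * ((2 * α * ((l : ℝ) - k) : ℝ) : ℂ)) ≠ 1 := by
  intro h
  rw [Complex.exp_eq_one_iff] at h
  obtain ⟨n, hn⟩ := h
  have hpi : (2 * (Real.pi : ℂ) * Complex.I) ≠ 0 := by
    simp [Real.pi_ne_zero, Complex.I_ne_zero]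
  have h1 : ((2 * α * ((l : ℝ) - k) : ℝ) : ℂ) = (n : ℂ) := by
    apply mul_left_cancel₀ hpi
    rw [hn]; ring
  have h2 : 2 * α * ((l : ℝ) - k) = (n : ℝ) := by exact_mod_cast h1
  have hlk : ((l : ℝ) - k) ≠ 0 := by
    have : (k : ℝ) < l := by exact_mod_cast hkl
    linarith
  apply hα
  refine ⟨(n : ℚ) / (2 * ((l : ℚ) - k)), ?_⟩
  push_cast
  have h3 : (2 * ((l : ℝ) - k)) ≠ 0 := mul_ne_zero two_ne_zero hlk
  rw [div_eq_iff h3]
  linarith

theorem quad_shift (α : ℝ) (k l m n : ℕ) :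
    ‖quadSeq α (m + l) n - quadSeq α (m + k) n‖ ^ 2 =
      2 - 2 * (Complex.exp (2 * Real.pi * Complex.I *
        ((α * ((l : ℝ) - k) * (l + k - 1) : ℝ) : ℂ)) *
        Complex.exp (2 * Real.pi * Complex.I * ((2 * α * ((l : ℝ) - k) : ℝ) : ℂ)) ^ m *
          (starRingEnd ℂ) (Complex.exp (2 * Real.pi * Complex.I *
            ((2 * α * ((l : ℝ) - k) : ℝ) : ℂ))) ^ n).re := by
  set c := Complex.exp (2 * Real.pi * Complex.I * ((α * ((l : ℝ) - k) * (l + k - 1) : ℝ) : ℂ)) with hc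
  set z := Complex.exp (2 * Real.pi * Complex.I * ((2 * α * ((l : ℝ) - k) : ℝ) : ℂ)) with hz
  have hcz : (starRingEnd ℂ) z = Complex.exp (-(2 * Real.pi * Complex.I *
      ((2 * α * ((l : ℝ) - k) : ℝ) : ℂ))) := by
    rw [hz, ← Complex.exp_conj]
    congr 1
    simp only [map_mul, Complex.conj_I, Complex.conj_ofReal]
    have : (starRingEnd ℂ) (2 : ℂ) = 2 := map_ofNat _ 2
    rw [this]; ring
  have h1 : quadSeq α (m + l) n = quadSeq α (m + k) n * (c * z ^ m * (starRingEnd ℂ) z ^ n) := by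
    rw [hcz, hc, hz, ← Complex.exp_nat_mul, ← Complex.exp_nat_mul]
    unfold quadSeq
    rw [← Complex.exp_add, ← Complex.exp_add, ← Complex.exp_add]
    congr 1
    push_cast
    ring
  set w := c * z ^ m * (starRingEnd ℂ) z ^ n with hw
  have hwn : ‖w‖ = 1 := by
    rw [hw, norm_mul, norm_mul, norm_pow, norm_pow, Complex.norm_conj, hc, hz, norm_expI, norm_expI]
    simp
  have h2 : quadSeq α (m + l) n - quadSeq α (m + k) n = quadSeq α (m + k) n * (w - 1) := by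
    rw [h1]; ring
  rw [h2, norm_mul, norm_quadSeq, one_mul, ← Complex.normSq_eq_norm_sq]
  have h3 : Complex.normSq w = 1 := by rw [Complex.normSq_eq_norm_sq, hwn]; norm_num
  rw [Complex.normSq_sub, h3]
  simp
  ring

theorem quad_sum_lower (α : ℝ) (hα : Irrational α) (k l : ℕ) (hkl : k < l) :
    ∃ K : ℝ, ∀ N : ℕ, 2 * (((N : ℝ) + 1) * (N + 1)) - K ≤
      ∑ v ∈ sq 0 N, ‖quadSeq α (v.1 + l) v.2 - quadSeq α (v.1 + k) v.2‖ ^ 2 := by
  set c := Complex.exp (2 * Real.pi * Complex.I * ((α * ((l : ℝ) - k) * (l + k - 1) : ℝ) : ℂ)) with hc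
  set z := Complex.exp (2 * Real.pi * Complex.I * ((2 * α * ((l : ℝ) - k) : ℝ) : ℂ)) with hz
  have hzn : ‖z‖ = 1 := norm_expI _
  have hcn : ‖c‖ = 1 := norm_expI _
  have hz1 : z ≠ 1 := zed_ne_one α hα k l hkl
  have hzc1 : (starRingEnd ℂ) z ≠ 1 := by
    intro h
    apply hz1
    have := congrArg (starRingEnd ℂ) h
    simpa using this
  have hzcn : ‖(starRingEnd ℂ) z‖ = 1 := by rw [Complex.norm_conj]; exact hzn
  refine ⟨2 * (2 / ‖z - 1‖ * (2 / ‖(starRingEnd ℂ) z - 1‖)), fun N => ?_⟩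
  have h1 : ∑ v ∈ sq 0 N, ‖quadSeq α (v.1 + l) v.2 - quadSeq α (v.1 + k) v.2‖ ^ 2 =
      2 * (((N : ℝ) + 1) * (N + 1)) - 2 * (c * (∑ m ∈ Finset.Icc 1 (N + 1), z ^ m) *
        ∑ n ∈ Finset.Icc 1 (N + 1), (starRingEnd ℂ) z ^ n).re := by
    have h2 : ∀ v : ℕ × ℕ, ‖quadSeq α (v.1 + l) v.2 - quadSeq α (v.1 + k) v.2‖ ^ 2 =
        2 - 2 * (c * z ^ v.1 * (starRingEnd ℂ) z ^ v.2).re := fun v => quad_shift α k l v.1 v.2
    simp only [h2]
    rw [Finset.sum_sub_distrib, ← Finset.mul_sum, Finset.sum_const, sq_card, nsmul_eq_mul]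
    congr 1
    · push_cast; ring
    · congr 1
      rw [← Complex.re_sum]
      congr 1
      unfold sq
      rw [Finset.sum_product, Finset.mul_sum (f := fun m => z ^ m), Finset.sum_mul_sum]
  rw [h1]
  have h3 : (c * (∑ m ∈ Finset.Icc 1 (N + 1), z ^ m) *
        ∑ n ∈ Finset.Icc 1 (N + 1), (starRingEnd ℂ) z ^ n).re ≤
      2 / ‖z - 1‖ * (2 / ‖(starRingEnd ℂ) z - 1‖) := by
    refine (Complex.re_le_norm _).trans ?_
    rw [norm_mul, norm_mul, hcn, one_mul]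
    exact mul_le_mul (geom_bound z hzn hz1 _) (geom_bound _ hzcn hzc1 _) (norm_nonneg _) (by positivity)
  linarith

/-- For irrational α the quadratic phase is not an approximate 1-step nilsequence. -/
theorem quad_not_approx (α : ℝ) (hα : Irrational α) : ¬ IsApproxNilseq 1 (quadSeq α) := by
  intro h
  obtain ⟨ast, aer, hsum, hnil, -, hsmall⟩ := h (1 / 4) (by norm_num)
  obtain ⟨k, l, hkl, hrec⟩ := nilseq_recur ast hnil (1 / 4) (by norm_num)
  obtain ⟨K, hK⟩ := quad_sum_lower α hα k l hkl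
  have hl := eventually_sum_le aer (1 / 4) (1 / 16) (by norm_num) (by norm_num) hsmall (sq l)
    (isFolner_sq l)
  have hk := eventually_sum_le aer (1 / 4) (1 / 16) (by norm_num) (by norm_num) hsmall (sq k)
    (isFolner_sq k)
  have hbig : ∀ᶠ N : ℕ in atTop, K < (N : ℝ) :=
    tendsto_natCast_atTop_atTop.eventually (eventually_gt_atTop K)
  obtain ⟨N, hl', hk', hN⟩ := (hl.and (hk.and hbig)).exists
  have hshift : ∀ c : ℕ, ∑ v ∈ sq c N, ‖aer v.1 v.2‖ ^ 2 = ∑ v ∈ sq 0 N, ‖aer (v.1 + c) v.2‖ ^ 2 := by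
    intro c
    have himg : sq c N = (sq 0 N).image (fun v => (v.1 + c, v.2)) := by
      ext ⟨x, y⟩
      simp only [sq, Finset.mem_product, Finset.mem_Icc, Finset.mem_image, Prod.exists, Prod.mk.injEq]
      constructor
      · rintro ⟨⟨h1, h2⟩, h3, h4⟩
        exact ⟨x - c, y, ⟨⟨by omega, by omega⟩, h3, h4⟩, by omega, rfl⟩
      · rintro ⟨a, b, ⟨⟨h1, h2⟩, h3, h4⟩, h5, h6⟩
        omega
    rw [himg, Finset.sum_image]
    rintro ⟨a, b⟩ _ ⟨a', b'⟩ _ h
    simp only [Prod.mk.injEq] at h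
    ext
    · show a = a'; omega
    · exact h.2
  rw [hshift l, sq_card] at hl'
  rw [hshift k, sq_card] at hk'
  have hup : ∑ v ∈ sq 0 N, ‖quadSeq α (v.1 + l) v.2 - quadSeq α (v.1 + k) v.2‖ ^ 2 ≤
      ∑ v ∈ sq 0 N, (3 * ‖aer (v.1 + l) v.2‖ ^ 2 + 3 * ‖aer (v.1 + k) v.2‖ ^ 2 + 3 / 16) := by
    refine Finset.sum_le_sum fun v hv => ?_
    simp only [sq, Finset.mem_product, Finset.mem_Icc] at hv
    rw [hsum (v.1 + l) v.2 (by omega) (by omega), hsum (v.1 + k) v.2 (by omega) (by omega)]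
    have e1 : ast (v.1 + l) v.2 + aer (v.1 + l) v.2 - (ast (v.1 + k) v.2 + aer (v.1 + k) v.2) =
        aer (v.1 + l) v.2 + (-aer (v.1 + k) v.2) + (ast (v.1 + l) v.2 - ast (v.1 + k) v.2) := by ring
    have e2 := norm_add₃_le (a := aer (v.1 + l) v.2) (b := -aer (v.1 + k) v.2)
      (c := ast (v.1 + l) v.2 - ast (v.1 + k) v.2)
    rw [norm_neg] at e2
    have e3 := hrec v.1 v.2 (by omega) (by omega)
    rw [e1]
    have p1 := norm_nonneg (aer (v.1 + l) v.2)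
    have p2 := norm_nonneg (aer (v.1 + k) v.2)
    have p3 := norm_nonneg (ast (v.1 + l) v.2 - ast (v.1 + k) v.2)
    have p4 := norm_nonneg (aer (v.1 + l) v.2 + (-aer (v.1 + k) v.2) +
      (ast (v.1 + l) v.2 - ast (v.1 + k) v.2))
    have e4 : ‖aer (v.1 + l) v.2 + (-aer (v.1 + k) v.2) +
        (ast (v.1 + l) v.2 - ast (v.1 + k) v.2)‖ ^ 2 ≤
        (‖aer (v.1 + l) v.2‖ + ‖aer (v.1 + k) v.2‖ + 1 / 4) ^ 2 := by
      apply pow_le_pow_left₀ p4
      linarith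
    refine e4.trans ?_
    nlinarith [sq_nonneg (‖aer (v.1 + l) v.2‖ - ‖aer (v.1 + k) v.2‖),
      sq_nonneg (‖aer (v.1 + l) v.2‖ - 1 / 4), sq_nonneg (‖aer (v.1 + k) v.2‖ - 1 / 4)]
  rw [Finset.sum_add_distrib, Finset.sum_add_distrib, ← Finset.mul_sum, ← Finset.mul_sum,
    Finset.sum_const, sq_card, nsmul_eq_mul] at hup
  have hlow := hK N
  push_cast at hl' hk' hup
  have hN0 : (0 : ℝ) ≤ N := Nat.cast_nonneg N
  nlinarith

end H524R3
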