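import Mathlib

/-!
# Two commuting skew rotations of the 2-torus
-/

set_option autoImplicit false

open MeasureTheory

namespace H524R3

/-- The 2-torus. -/
abbrev Tor : Type := UnitAddCircle × UnitAddCircle

/-- The skew rotation (x, y) ↦ (x + α, y + x). -/
noncomputable def skewA (α : ℝ) : Tor ≃ₜ Tor where
  toFun p := (p.1 + (α : UnitAddCircle), p.2 + p.1)
  invFun p := (p.1 - (α : UnitAddCircle), p.2 - (p.1 - (α : UnitAddCircle)))
  left_inv p := by ext <;> simp
  right_inv p := by ext <;> simp
  continuous_toFun := by fun_prop
  continuous_invFun := by fun_prop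

/-- The skew rotation (x, y) ↦ (x - α, y - x). -/
noncomputable def skewB (α : ℝ) : Tor ≃ₜ Tor where
  toFun p := (p.1 - (α : UnitAddCircle), p.2 - p.1)
  invFun p := (p.1 + (α : UnitAddCircle), p.2 + (p.1 + (α : UnitAddCircle)))
  left_inv p := by ext <;> simp
  right_inv p := by ext <;> simp
  continuous_toFun := by fun_prop
  continuous_invFun := by fun_prop

theorem skewA_apply (α : ℝ) (p : Tor) : skewA α p = (p.1 + (α : UnitAddCircle), p.2 + p.1) := rfl

theorem skewB_apply (α : ℝ) (p : Tor) : skewB α p = (p.1 - (α : UnitAddCircle), p.2 - p.1) := rfl

theorem skew_comm (α : ℝ) (p : Tor) : skewA α (skewB α p) = skewB α (skewA α p) := by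
  simp only [skewA_apply, skewB_apply]
  ext
  · simp
  · simp only
    abel

theorem skewA_mp (α : ℝ) : MeasurePreserving (skewA α) (volume : Measure Tor) volume := by
  have h1 : MeasurePreserving (fun x : UnitAddCircle => x + (α : UnitAddCircle)) volume volume :=
    measurePreserving_add_right volume _
  have h2 := MeasurePreserving.skew_product (μa := (volume : Measure UnitAddCircle))
    (μb := (volume : Measure UnitAddCircle)) (μc := (volume : Measure UnitAddCircle))
    (μd := (volume : Measure UnitAddCircle)) h1
    (g := fun x y => y + x) (by fun_prop)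
    (Filter.Eventually.of_forall fun x => (measurePreserving_add_right volume x).map_eq)
  exact h2

theorem skewB_mp (α : ℝ) : MeasurePreserving (skewB α) (volume : Measure Tor) volume := by
  have h1 : MeasurePreserving (fun x : UnitAddCircle => x - (α : UnitAddCircle)) volume volume :=
    measurePreserving_sub_right volume _
  have h2 := MeasurePreserving.skew_product (μa := (volume : Measure UnitAddCircle))
    (μb := (volume : Measure UnitAddCircle)) (μc := (volume : Measure UnitAddCircle))
    (μd := (volume : Measure UnitAddCircle)) h1
    (g := fun x y => y - x) (by fun_prop)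
    (Filter.Eventually.of_forall fun x => (measurePreserving_sub_right volume x).map_eq)
  exact h2

end H524R3
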