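import Mathlib
import Pool.Agent.H524R3.NilSystem
import Pool.Agent.H524R3.NilQuad

/-!
# The correlation sequence of the two skew rotations is a quadratic phase
-/

set_option autoImplicit false

open MeasureTheory Filter Topology

namespace H524R3

theorem prob_circle : IsProbabilityMeasure (volume : Measure UnitAddCircle) :=
  ⟨UnitAddCircle.measure_univ⟩

theorem prob_tor : IsProbabilityMeasure (volume : Measure Tor) := by
  have := prob_circle
  infer_instance

theorem skewA_iter (α : ℝ) (m : ℕ) (p : Tor) :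
    (skewA α)^[m] p = (p.1 + (m : ℤ) • (α : UnitAddCircle),
      p.2 + (m : ℤ) • p.1 + ((m.choose 2 : ℕ) : ℤ) • (α : UnitAddCircle)) := by
  induction m with
  | zero => simp
  | succ m ih =>
    rw [Function.iterate_succ_apply', ih, skewA_apply]
    have hch : (((m + 1).choose 2 : ℕ) : ℤ) = (m.choose 2 : ℕ) + (m : ℤ) := by
      rw [Nat.choose_succ_succ' m 1, Nat.choose_one_right]; push_cast; ring
    ext
    · simp only
      push_cast
      rw [add_smul, one_smul, add_assoc]
    · simp only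
      rw [hch]
      push_cast
      rw [add_smul, add_smul, one_smul]
      abel

theorem skewB_iter (α : ℝ) (n : ℕ) (p : Tor) :
    (skewB α)^[n] p = (p.1 - (n : ℤ) • (α : UnitAddCircle),
      p.2 - (n : ℤ) • p.1 + ((n.choose 2 : ℕ) : ℤ) • (α : UnitAddCircle)) := by
  induction n with
  | zero => simp
  | succ m ih =>
    rw [Function.iterate_succ_apply', ih, skewB_apply]
    have hch : (((m + 1).choose 2 : ℕ) : ℤ) = (m.choose 2 : ℕ) + (m : ℤ) := by
      rw [Nat.choose_succ_succ' m 1, Nat.choose_one_right]; push_cast; ring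
    ext
    · simp only
      push_cast
      rw [add_smul, one_smul]
      abel
    · simp only
      rw [hch]
      push_cast
      rw [add_smul, add_smul, one_smul]
      abel

theorem two_choose (m : ℕ) : 2 * ((m.choose 2 : ℕ) : ℤ) = (m : ℤ) * (m - 1) := by
  induction m with
  | zero => simp
  | succ m ih =>
    rw [Nat.choose_succ_succ' m 1, Nat.choose_one_right]
    push_cast
    linear_combination ih

/-- T₁^m T₂^n (x, y) = (x + (m - n) α, y + (m - n) x + q α). -/
theorem iter_comp (α : ℝ) (m n : ℕ) (p : Tor) :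
    (skewA α)^[m] ((skewB α)^[n] p) = (p.1 + ((m : ℤ) - n) • (α : UnitAddCircle),
      p.2 + ((m : ℤ) - n) • p.1 + (((m.choose 2 : ℕ) : ℤ) + ((n.choose 2 : ℕ) : ℤ) - m * n) •
        (α : UnitAddCircle)) := by
  rw [skewA_iter, skewB_iter]
  ext
  · simp only
    rw [sub_smul]; abel
  · simp only
    rw [sub_smul, sub_smul, add_smul, smul_sub, mul_smul]
    abel

/-- The functions. -/
noncomputable def fG (p : Tor) : ℂ := fourier 1 p.2

noncomputable def fF (p : Tor) : ℂ := fourier (-2) p.2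

theorem integrand_eq (α : ℝ) (m n : ℕ) (p : Tor) :
    fF p * fG ((skewA α)^[m] ((skewB α)^[n] p)) * fG ((skewA α)^[n] ((skewB α)^[m] p)) =
      quadSeq α m n := by
  rw [iter_comp, iter_comp]
  unfold fF fG
  simp only [fourier_apply, ← Circle.coe_mul, ← AddCircle.toCircle_add]
  set q : ℤ := ((m.choose 2 : ℕ) : ℤ) + ((n.choose 2 : ℕ) : ℤ) - m * n with hq
  have hq' : ((n.choose 2 : ℕ) : ℤ) + ((m.choose 2 : ℕ) : ℤ) - n * m = q := by rw [hq]; ring
  have h2q : 2 * q = ((m : ℤ) - n) ^ 2 - (m + n) := by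
    rw [hq]
    linear_combination two_choose m + two_choose n
  rw [hq']
  clear_value q
  have harg : (-2 : ℤ) • p.2 + (1 : ℤ) • (p.2 + ((m : ℤ) - n) • p.1 + q • (α : UnitAddCircle)) +
      (1 : ℤ) • (p.2 + ((n : ℤ) - m) • p.1 + q • (α : UnitAddCircle)) =
      (((((m : ℤ) - n) ^ 2 - (m + n) : ℤ) : ℝ) * α : ℝ) := by
    rw [← h2q]
    have e1 : ((((2 * q : ℤ) : ℝ) * α : ℝ) : UnitAddCircle) = (2 * q : ℤ) • (α : UnitAddCircle) := by
      rw [← AddCircle.coe_zsmul, zsmul_eq_mul]
    rw [e1, one_smul, one_smul, two_mul, add_smul]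
    have e2 : (-2 : ℤ) • p.2 = -(p.2 + p.2) := by
      rw [neg_smul, two_smul]
    have e3 : ((m : ℤ) - n) • p.1 = (m : ℤ) • p.1 - (n : ℤ) • p.1 := sub_smul _ _ _
    have e4 : ((n : ℤ) - m) • p.1 = (n : ℤ) • p.1 - (m : ℤ) • p.1 := sub_smul _ _ _
    rw [e2, e3, e4]
    abel
  rw [harg]
  have h1 := fourier_coe_apply (T := 1) (n := 1) (x := (((((m : ℤ) - n) ^ 2 - (m + n) : ℤ) : ℝ) * α : ℝ))
  rw [fourier_apply, one_smul] at h1
  rw [h1]
  unfold quadSeq
  congr 1
  push_cast
  ring

theorem correlation_eq (α : ℝ) (m n : ℕ) :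
    ∫ p : Tor, fF p * fG ((skewA α)^[m] ((skewB α)^[n] p)) * fG ((skewA α)^[n] ((skewB α)^[m] p)) =
      quadSeq α m n := by
  have := prob_tor
  simp only [integrand_eq]
  simp

theorem smul_coe_injective (α : ℝ) (hα : Irrational α) (a b : ℤ)
    (h : a • (α : UnitAddCircle) = b • (α : UnitAddCircle)) : a = b := by
  by_contra hne
  have h1 : (a - b) • (α : UnitAddCircle) = 0 := by rw [sub_smul, h, sub_self]
  rw [← AddCircle.coe_zsmul, AddCircle.coe_eq_zero_iff] at h1
  obtain ⟨n, hn⟩ := h1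
  rw [zsmul_eq_mul, zsmul_eq_mul, mul_one] at hn
  have hab : ((a : ℝ) - b) ≠ 0 := by
    intro h0
    apply hne
    have : (a : ℝ) = b := by linarith
    exact_mod_cast this
  apply hα
  refine ⟨(n : ℚ) / ((a : ℚ) - b), ?_⟩
  push_cast
  rw [div_eq_iff hab]
  push_cast at hn
  linarith

/-- The ℤ²-action generated by the two skew rotations is free. -/
theorem skew_free (α : ℝ) (hα : Irrational α) (m n m' n' : ℕ) (hne : (m, n) ≠ (m', n')) (p : Tor) :
    (skewA α)^[m] ((skewB α)^[n] p) ≠ (skewA α)^[m'] ((skewB α)^[n'] p) := by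
  intro h
  rw [iter_comp, iter_comp, Prod.mk.injEq] at h
  obtain ⟨h1, h2⟩ := h
  have h3 := smul_coe_injective α hα _ _ (add_left_cancel h1)
  rw [h3] at h2
  have h4 := smul_coe_injective α hα _ _ (add_left_cancel h2)
  apply hne
  have h5 := two_choose m
  have h6 := two_choose n
  have h7 := two_choose m'
  have h8 := two_choose n'
  have h9 : (m : ℤ) + n = m' + n' := by
    have e1 : ((m : ℤ) - n) ^ 2 - (m + n) = ((m' : ℤ) - n') ^ 2 - (m' + n') := by
      linear_combination 2 * h4 - h5 - h6 + h7 + h8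
    rw [h3] at e1
    linarith
  ext
  · show m = m'; omega
  · show n = n'; omega

end H524R3
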