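import Mathlib
import Pool.Agent.H524R3.NoExp
import Pool.Agent.H524R3.ExpDefs

/-!
# No expansion for sequences of size n^s log n
-/

set_option autoImplicit false

open Finset Filter Topology

namespace H524R3

/-- If |F n| is at most C n^s (1 + log n) and |F n| / n^s is unbounded, the sequence k ↦ F (k + h) has no
asymptotic expansion. -/
theorem not_hasExpansion (h : ℕ) (s : ℝ) (F : ℕ → ℂ) (C : ℝ)
    (hF : ∀ᶠ n : ℕ in atTop, ‖F n‖ ≤ C * ((n : ℝ) ^ s * (1 + Real.log n)))
    (hlim : Tendsto (fun n : ℕ => ‖F n‖ / (n : ℝ) ^ s) atTop atTop) :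
    ¬ HasExpansion h (fun k => F (k + h)) := by
  rintro ⟨m, c, d, b, a, hexp⟩
  set D : ℝ := univ.sup' univ_nonempty d with hD
  -- choose L
  obtain ⟨L, hL⟩ : ∃ L : ℕ, D - ((L : ℝ) + 1) / 2 ≤ s := by
    obtain ⟨L, hL⟩ := exists_nat_ge (2 * (D - s))
    exact ⟨L, by linarith⟩
  obtain ⟨C₁, k₀, hC₁⟩ := hexp L
  let ι := Fin (m + 1) × ℕ
  let β : ι → ℂ := fun i => b i.1 * (if i.2 = 0 then 1 else a i.1 i.2)
  let z : ι → ℂ := fun i => Complex.exp (2 * Real.pi * Complex.I * (c i.1 : ℂ))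
  let e : ι → ℝ := fun i => d i.1 - (i.2 : ℝ) / 2
  have hz : ∀ i, ‖z i‖ = 1 := by
    intro i
    show ‖Complex.exp (2 * Real.pi * Complex.I * (c i.1 : ℂ))‖ = 1
    rw [show 2 * (Real.pi : ℂ) * Complex.I * (c i.1 : ℂ) = ((2 * Real.pi * c i.1 : ℝ) : ℂ) * Complex.I by
      push_cast; ring]
    exact Complex.norm_exp_ofReal_mul_I _
  have key := bounded_of_expansion s F C hF β z e hz _ ((univ : Finset (Fin (m + 1))) ×ˢ range (L + 1))
    le_rfl ⟨|C₁|, ?_⟩
  · obtain ⟨C'', hC''⟩ := key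
    have h1 := hlim.eventually (eventually_gt_atTop C'')
    obtain ⟨n, hn1, hn2, hn3⟩ := (h1.and (hC''.and (eventually_ge_atTop 1))).exists
    have hn' : (0 : ℝ) < n := by exact_mod_cast hn3
    have hp := Real.rpow_pos_of_pos hn' s
    rw [lt_div_iff₀ hp] at hn1
    linarith
  · filter_upwards [eventually_ge_atTop (k₀ + h + 1)] with n hn
    have h1 := hC₁ (n - h) (by omega)
    have hnh : n - h + h = n := by omega
    simp only [hnh] at h1
    have hn' : (1 : ℝ) ≤ n := by
      have : 1 ≤ n := by omega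
      exact_mod_cast this
    have hsum : ∑ i ∈ (univ : Finset (Fin (m + 1))) ×ˢ range (L + 1),
          β i * (((n : ℝ) ^ e i : ℝ) : ℂ) * z i ^ n =
        ∑ j, Complex.exp (2 * Real.pi * Complex.I * (n * (c j : ℂ))) *
          (((n : ℝ) ^ d j : ℝ) : ℂ) * b j *
            (1 + ∑ l ∈ Icc 1 L, a j l * (((n : ℝ) ^ (-(l : ℝ) / 2) : ℝ) : ℂ)) := by
      rw [Finset.sum_product]
      refine Finset.sum_congr rfl fun j _ => ?_
      have hzn : Complex.exp (2 * Real.pi * Complex.I * (n * (c j : ℂ))) =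
          Complex.exp (2 * Real.pi * Complex.I * (c j : ℂ)) ^ n := by
        rw [← Complex.exp_nat_mul]; congr 1; ring
      have hr1 : range (L + 1) = insert 0 (Icc 1 L) := by
        ext x; simp only [mem_range, mem_insert, mem_Icc]; omega
      rw [hr1, Finset.sum_insert (by simp), hzn, mul_add, mul_one, Finset.mul_sum]
      congr 1
      · simp only [β, e, z]
        simp
        ring
      · refine Finset.sum_congr rfl fun l hl => ?_
        have hl0 : l ≠ 0 := by rw [mem_Icc] at hl; omega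
        simp only [β, e, z, if_neg hl0]
        have hp : (n : ℝ) ^ (d j - (l : ℝ) / 2) = (n : ℝ) ^ d j * (n : ℝ) ^ (-(l : ℝ) / 2) := by
          rw [← Real.rpow_add (by linarith)]; congr 1; ring
        rw [hp]
        push_cast
        ring
    rw [hsum]
    refine h1.trans ?_
    calc C₁ * (n : ℝ) ^ (D - ((L : ℝ) + 1) / 2) ≤ |C₁| * (n : ℝ) ^ (D - ((L : ℝ) + 1) / 2) :=
          mul_le_mul_of_nonneg_right (le_abs_self _) (Real.rpow_nonneg (by linarith) _)
      _ ≤ |C₁| * (n : ℝ) ^ s :=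
          mul_le_mul_of_nonneg_left (Real.rpow_le_rpow_of_exponent_le hn' hL) (abs_nonneg _)

end H524R3
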